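import Pool.Agent.Lib.MP_be93de_nt.Hd.Defs

/-! The mean of the mixed rank weight over a long interval is close to one. -/

namespace Pool.Agent.Lib.MP_be93de_nt.Hd

open Finset Filter Pool.Agent.Lib.MP_be93de_nt.Hb

namespace Avg3x

/-- the classes of `-j`, `j ∈ J` -/
def om (J : Finset ℕ) (p : ℕ) : Finset ℕ := J.image fun j => (p - j % p) % p

theorem om_sub (J : Finset ℕ) {p : ℕ} (hp : 0 < p) : om J p ⊆ range p := by
  intro a ha
  obtain ⟨j, _, rfl⟩ := mem_image.1 ha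
  exact mem_range.2 (Nat.mod_lt _ hp)

theorem neg_iff {p : ℕ} (hp : 0 < p) (m j : ℕ) : (p - j % p) % p = m % p ↔ p ∣ m + j := by
  have hj := Nat.mod_lt j hp
  have h1 : (p - j % p) + j ≡ 0 [MOD p] := by
    have h2 : (p - j % p) + j ≡ (p - j % p) + j % p [MOD p] :=
      Nat.ModEq.add_left _ (Nat.mod_modEq j p).symm
    rw [Nat.sub_add_cancel hj.le] at h2
    exact h2.trans (Nat.modEq_zero_iff_dvd.2 dvd_rfl)
  constructor
  · intro h
    have h3 : (p - j % p) + j ≡ m + j [MOD p] := Nat.ModEq.add_right j h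
    exact Nat.modEq_zero_iff_dvd.1 (h3.symm.trans h1)
  · intro h
    have h3 : (p - j % p) + j ≡ m + j [MOD p] := h1.trans (Nat.modEq_zero_iff_dvd.2 h).symm
    exact Nat.ModEq.add_right_cancel' j h3

theorem mem_om (J : Finset ℕ) {p : ℕ} (hp : 0 < p) (m : ℕ) :
    m % p ∈ om J p ↔ ∃ j ∈ J, p ∣ m + j := by
  unfold om
  rw [mem_image]
  exact exists_congr fun j => and_congr_right fun _ => neg_iff hp m j

theorem om_card (J : Finset ℕ) {p y : ℕ} (hp : y < p) (hJ : ∀ i ∈ J, ∀ j ∈ J, i ≤ j + y) :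
    (om J p).card = J.card := by
  have hp0 : 0 < p := by omega
  refine card_image_of_injOn fun i hi j hj hij => ?_
  have hij' : (p - i % p) % p = (p - j % p) % p := hij
  have h1 : p ∣ (p - j % p) + i := (neg_iff hp0 _ i).1 hij'
  have h2 : p ∣ (p - j % p) + j := (neg_iff hp0 _ j).1 rfl
  have h3 : i ≡ j [MOD p] := Nat.ModEq.add_left_cancel' (p - j % p)
    ((Nat.modEq_zero_iff_dvd.2 h1).trans (Nat.modEq_zero_iff_dvd.2 h2).symm)
  have a := hJ i hi j hj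
  have b := hJ j hj i hi
  exact Nat.ModEq.eq_of_abs_lt h3 (by rw [abs_lt]; constructor <;> omega)

theorem av_eq (a b L r : ℕ) (g : ℝ) (J : Finset ℕ) :
    Av L r (G (Free a b) g J) = g ^ J.card *
      (((Ico r (r + L)).filter (fun m => ∀ p ∈ pr a b, m % p ∉ om J p)).card : ℝ) / L := by
  classical
  unfold Av
  congr 1
  have h1 : ∑ u ∈ range L, G (Free a b) g J (r + u) = ∑ m ∈ Ico r (r + L), G (Free a b) g J m := by
    rw [sum_Ico_eq_sum_range]
    simp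
  rw [h1, card_filter]
  push_cast
  rw [mul_sum]
  refine sum_congr rfl fun m _ => ?_
  have hpos : ∀ p ∈ pr a b, 0 < p := fun p hp => (mem_filter.1 hp).2.pos
  by_cases h : ∀ p ∈ pr a b, m % p ∉ om J p
  · rw [if_pos h, mul_one]
    unfold G
    rw [← prod_const]
    refine prod_congr rfl fun j hj => ind_pos fun p hp hd => ?_
    exact h p hp ((mem_om J (hpos p hp) m).2 ⟨j, hj, hd⟩)
  · rw [if_neg h, mul_zero]
    push Not at h
    obtain ⟨p, hp, hm⟩ := h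
    obtain ⟨j, hj, hd⟩ := (mem_om J (hpos p hp) m).1 hm
    exact prod_eq_zero hj (ind_neg fun hf => hf p hp hd)

theorem pr_card (a b : ℕ) : (pr a b).card ≤ b := by
  unfold pr
  refine (card_filter_le _ _).trans ?_
  rw [Nat.card_Ioc]
  omega

theorem mean_av {ι : Type} (I : Finset ι) (a b L r : ℕ) (g : ι → ℝ) (J : Finset ℕ) :
    mean I (fun i => Av L r (G (Free a b) (g i) J)) = mean I (fun i => g i ^ J.card) *
      (((Ico r (r + L)).filter (fun m => ∀ p ∈ pr a b, m % p ∉ om J p)).card : ℝ) / L := by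
  unfold mean
  simp only [av_eq]
  rw [← sum_div, ← sum_mul]
  ring

theorem log_le_self' {x : ℝ} (hx : 0 < x) : Real.log x ≤ x := by
  have := Real.log_le_sub_one_of_pos hx
  linarith

theorem lam_le (a u : ℕ) (ha : 60 ≤ a) (hu : 100 * a ≤ u) :
    Real.log (1 + Real.log ((u ^ a : ℕ) : ℝ)) + 38 ≤ u := by
  have ha' : (60 : ℝ) ≤ a := by exact_mod_cast ha
  have hu' : 100 * (a : ℝ) ≤ u := by exact_mod_cast hu
  have hu0 : (0 : ℝ) < u := by linarith
  have hL := log_le_self' hu0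
  have hL0 : 0 ≤ Real.log u := Real.log_natCast_nonneg u
  have h1 : Real.log ((u ^ a : ℕ) : ℝ) = a * Real.log u := by
    push_cast
    rw [Real.log_pow]
  rw [h1]
  have h2 : (a : ℝ) * Real.log u ≤ a * u := mul_le_mul_of_nonneg_left hL (by linarith)
  have h3 : 1 + (a : ℝ) * Real.log u ≤ (100 * ((u : ℝ) / 100)) ^ 2 := by nlinarith
  have h4 : Real.log (1 + (a : ℝ) * Real.log u) ≤ Real.log ((100 * ((u : ℝ) / 100)) ^ 2) :=
    Real.log_le_log (by positivity) h3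
  rw [Real.log_pow, Real.log_mul (by norm_num) (by positivity)] at h4
  have h5 := Real.log_le_sub_one_of_pos (show (0 : ℝ) < 100 by norm_num)
  have h6 := Real.log_le_sub_one_of_pos (show (0 : ℝ) < (u : ℝ) / 100 by positivity)
  push_cast at h4
  linarith

theorem fact_le (x y : ℝ) (t : ℕ) (hx : 0 ≤ x) (hy : 0 < y) (h : x ≤ y ^ 3) :
    x ^ t / t.factorial ≤ Real.exp (y ^ 10 - 7 * (Real.log y * t)) := by
  have h1 := Real.pow_div_factorial_le_exp (y ^ 7 * x) (by positivity) t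
  have h2 : Real.exp (y ^ 7 * x) ≤ Real.exp (y ^ 10) := by
    refine Real.exp_le_exp.2 ?_
    calc y ^ 7 * x ≤ y ^ 7 * y ^ 3 := mul_le_mul_of_nonneg_left h (by positivity)
      _ = y ^ 10 := by ring
  have h3 : Real.exp (7 * (Real.log y * t)) = (y ^ 7) ^ t := by
    rw [show 7 * (Real.log y * t) = ((7 * t : ℕ) : ℝ) * Real.log y by push_cast; ring,
      Real.exp_nat_mul, Real.exp_log hy, pow_mul]
  rw [Real.exp_sub, h3, le_div_iff₀ (by positivity)]
  calc x ^ t / t.factorial * (y ^ 7) ^ t = (y ^ 7 * x) ^ t / t.factorial := by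
        rw [mul_pow]; ring
    _ ≤ _ := h1.trans h2

theorem pow_exp (y : ℝ) (hy : 0 < y) (n : ℕ) : y ^ n = Real.exp (n * Real.log y) := by
  rw [Real.exp_nat_mul, Real.exp_log hy]

theorem mean_le {ι : Type} (I : Finset ι) (hI : I.Nonempty) (f : ι → ℝ) (M : ℝ)
    (h0 : ∀ i ∈ I, 0 ≤ f i) (h : ∀ i ∈ I, f i ≤ M) : 0 ≤ mean I f ∧ mean I f ≤ M := by
  have hc : (0 : ℝ) < I.card := by exact_mod_cast hI.card_pos
  unfold mean
  refine ⟨div_nonneg (sum_nonneg h0) hc.le, ?_⟩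
  rw [div_le_iff₀ hc]
  have := sum_le_card_nsmul I f M h
  rw [nsmul_eq_mul] at this
  linarith

theorem fin (g c P R T2 T3 v z w D : ℝ) (hR : Real.exp (v / 2) ≤ R) (hg0 : 0 ≤ g)
    (hg : g ≤ Real.exp w) (hm : |g * P - 1| ≤ 1 / R) (hB : |c - R * P| ≤ 2 * R * T2 + T3)
    (h2 : T2 ≤ Real.exp (2 * w - 3 / 2 * z)) (h3 : T3 ≤ Real.exp (v / 4)) (hw0 : 0 ≤ w)
    (hw : 8 * w ≤ z) (hz : 60 * z ≤ v) (hD0 : 0 < D) (hD : 6 * D ≤ Real.exp w) :
    |g * c / R - 1| ≤ Real.exp (-z) / D := by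
  have hR0 : 0 < R := (Real.exp_pos _).trans_le hR
  have a1 : 1 / R ≤ Real.exp (-(v / 2)) := by
    rw [Real.exp_neg, ← one_div]
    exact one_div_le_one_div_of_le (Real.exp_pos _) hR
  have a2 : g * c / R - g * P = g * (c - R * P) / R := by field_simp
  have a3 : |g * c / R - g * P| ≤ 2 * (Real.exp w * Real.exp (2 * w - 3 / 2 * z)) +
      Real.exp w * Real.exp (v / 4) * Real.exp (-(v / 2)) := by
    rw [a2, abs_div, abs_mul, abs_of_nonneg hg0, abs_of_pos hR0]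
    have b : |c - R * P| ≤ 2 * R * Real.exp (2 * w - 3 / 2 * z) + Real.exp (v / 4) :=
      hB.trans (add_le_add (mul_le_mul_of_nonneg_left h2 (by positivity)) h3)
    calc g * |c - R * P| / R
        ≤ Real.exp w * (2 * R * Real.exp (2 * w - 3 / 2 * z) + Real.exp (v / 4)) / R :=
          div_le_div_of_nonneg_right (mul_le_mul hg b (abs_nonneg _) (by positivity)) hR0.le
      _ = 2 * (Real.exp w * Real.exp (2 * w - 3 / 2 * z)) +
            Real.exp w * Real.exp (v / 4) * (1 / R) := by field_simp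
      _ ≤ _ := by
          have := mul_le_mul_of_nonneg_left a1
            (show 0 ≤ Real.exp w * Real.exp (v / 4) by positivity)
          linarith
  rw [← Real.exp_add, ← Real.exp_add, ← Real.exp_add] at a3
  have e1 : Real.exp (-(v / 2)) ≤ Real.exp (-z - w) := Real.exp_le_exp.2 (by linarith)
  have e2 : Real.exp (w + (2 * w - 3 / 2 * z)) ≤ Real.exp (-z - w) :=
    Real.exp_le_exp.2 (by linarith)
  have e3 : Real.exp (w + v / 4 + -(v / 2)) ≤ Real.exp (-z - w) :=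
    Real.exp_le_exp.2 (by linarith)
  have e4 : 6 * Real.exp (-z - w) ≤ Real.exp (-z) / D := by
    rw [le_div_iff₀ hD0, Real.exp_sub, mul_comm, ← mul_assoc, ← mul_div_assoc,
      div_le_iff₀ (Real.exp_pos _)]
    have := mul_le_mul_of_nonneg_left hD (Real.exp_pos (-z)).le
    linarith
  have e5 := Real.exp_pos (-z - w)
  rw [abs_le] at a3 hm ⊢
  constructor <;> linarith [a3.1, a3.2, hm.1, hm.2]

end Avg3x

open Avg3x in
theorem avg3_st (h1 : Mert3St) (h2 : BonfSt) (h3 : MomSt) : Avg3St := by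
  intro a ha
  filter_upwards [h3 a ha, eventually_ge_atTop (100 * a)] with u hm hu
  obtain ⟨ι, I, g, hI, hg, hm⟩ := hm
  refine ⟨ι, I, g, hI, hg, fun r J hk hJ => ?_⟩
  have ha' : (60 : ℝ) ≤ a := by exact_mod_cast ha
  have hu' : 100 * (a : ℝ) ≤ u := by exact_mod_cast hu
  have hu0 : (0 : ℝ) < u := by linarith
  have hu1 : (1 : ℝ) ≤ u := by linarith
  have hL := log_le_self' hu0
  have hL0 : 0 < Real.log u := Real.log_pos (by linarith)
  have hm' := hm J.card hk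
  have hk' : (J.card : ℝ) ≤ (u : ℝ) ^ 2 := by exact_mod_cast hk
  have hpr : ∀ p ∈ pr (u ^ 27) (u ^ a), p.Prime := fun p hp => (mem_filter.1 hp).2
  have hgt : ∀ p ∈ pr (u ^ 27) (u ^ a), u ^ 27 < p := fun p hp =>
    (mem_Ioc.1 (mem_filter.1 hp).1).1
  have hcard : ∀ p ∈ pr (u ^ 27) (u ^ a), ((om J p).card : ℝ) = J.card := fun p hp => by
    rw [om_card J (hgt p hp) hJ]
  obtain ⟨t, ht1, ht2⟩ : ∃ t : ℕ, (t : ℝ) ≤ (u : ℝ) ^ 12 / (4 * (a + 3) * Real.log u) ∧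
      (u : ℝ) ^ 12 / (4 * (a + 3) * Real.log u) < t + 1 :=
    ⟨⌊(u : ℝ) ^ 12 / (4 * (a + 3) * Real.log u)⌋₊, Nat.floor_le (by positivity),
      Nat.lt_floor_add_one _⟩
  rw [le_div_iff₀ (by positivity)] at ht1
  rw [div_lt_iff₀ (by positivity)] at ht2
  have hB := h2 (pr (u ^ 27) (u ^ a)) (om J) r (R3 u) t hpr fun p hp => om_sub J (hpr p hp).pos
  rw [prod_congr rfl fun p hp => by rw [hcard p hp], sum_congr rfl fun p hp => by rw [hcard p hp],
    sum_congr rfl hcard] at hB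
  have hlam : ∑ p ∈ pr (u ^ 27) (u ^ a), (J.card : ℝ) / p ≤ (u : ℝ) ^ 3 := by
    have a1 : ∑ p ∈ pr (u ^ 27) (u ^ a), (J.card : ℝ) / p =
        J.card * ∑ p ∈ pr (u ^ 27) (u ^ a), 1 / (p : ℝ) := by
      rw [mul_sum]; exact sum_congr rfl fun p _ => by ring
    have b := (h1.2.1 (u ^ 27) (u ^ a)).trans (lam_le a u ha hu)
    have c : 0 ≤ ∑ p ∈ pr (u ^ 27) (u ^ a), 1 / (p : ℝ) := sum_nonneg fun p _ => by positivity
    rw [a1]
    calc (J.card : ℝ) * ∑ p ∈ pr (u ^ 27) (u ^ a), 1 / (p : ℝ) ≤ (u : ℝ) ^ 2 * u :=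
          mul_le_mul hk' b c (by positivity)
      _ = _ := by ring
  have hT2 := fact_le _ (u : ℝ) t (sum_nonneg fun p _ => by positivity) hu0 hlam
  have p3 : 24 * (u : ℝ) ≤ (u : ℝ) ^ 3 := by
    have : 24 ≤ (u : ℝ) ^ 2 := by nlinarith
    nlinarith
  have p10 : (u : ℝ) ^ 3 ≤ (u : ℝ) ^ 10 := pow_le_pow_right₀ hu1 (by norm_num)
  have hz0 : (0 : ℝ) ≤ (u : ℝ) ^ 12 / a := by positivity
  have hz1 : (a : ℝ) * ((u : ℝ) ^ 12 / a) = (u : ℝ) ^ 12 := by field_simp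
  have hz : 60 * ((u : ℝ) ^ 12 / a) ≤ (u : ℝ) ^ 12 := by
    have := mul_le_mul_of_nonneg_right ha' hz0
    linarith
  have hw : 8 * (u : ℝ) ^ 10 ≤ (u : ℝ) ^ 12 / a := by
    rw [le_div_iff₀ (by linarith)]
    have b : 8 * (a : ℝ) ≤ (u : ℝ) ^ 2 := by nlinarith
    have := mul_le_mul_of_nonneg_left b (show 0 ≤ (u : ℝ) ^ 10 by positivity)
    calc 8 * (u : ℝ) ^ 10 * a = (u : ℝ) ^ 10 * (8 * a) := by ring
      _ ≤ (u : ℝ) ^ 10 * (u : ℝ) ^ 2 := this
      _ = _ := by ring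
  have hy : 3 / 2 * ((u : ℝ) ^ 12 / a) ≤ 7 * (Real.log u * t) + 7 * Real.log u := by
    generalize (u : ℝ) ^ 12 / a = z at hz0 hz1 ⊢
    rw [← hz1] at ht2
    by_contra hc
    have hc' : 14 * (Real.log u * t + Real.log u) < 3 * z := by linarith
    have b1 := mul_lt_mul_of_pos_left hc' (show (0 : ℝ) < 4 * (a + 3) by linarith)
    have b2 := mul_le_mul_of_nonneg_right (show 12 * ((a : ℝ) + 3) ≤ 14 * a by linarith) hz0
    have b3 : ((t : ℝ) + 1) * (4 * (a + 3) * Real.log u) =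
        4 * (a + 3) * (Real.log u * t + Real.log u) := by ring
    rw [b3] at ht2
    linarith
  have hT2' : (∑ p ∈ pr (u ^ 27) (u ^ a), (J.card : ℝ) / p) ^ t / t.factorial ≤
      Real.exp (2 * (u : ℝ) ^ 10 - 3 / 2 * ((u : ℝ) ^ 12 / a)) :=
    hT2.trans (Real.exp_le_exp.2 (by linarith))
  have hT3 : (1 + ∑ _p ∈ pr (u ^ 27) (u ^ a), (J.card : ℝ)) ^ t ≤ Real.exp ((u : ℝ) ^ 12 / 4) := by
    have a1 : ((pr (u ^ 27) (u ^ a)).card : ℝ) ≤ (u : ℝ) ^ a := by exact_mod_cast pr_card _ _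
    have b : (1 : ℝ) ≤ (u : ℝ) ^ a * (u : ℝ) ^ 2 :=
      one_le_mul_of_one_le_of_one_le (one_le_pow₀ hu1) (one_le_pow₀ hu1)
    have d : 1 + ∑ _p ∈ pr (u ^ 27) (u ^ a), (J.card : ℝ) ≤ (u : ℝ) ^ (a + 3) := by
      rw [sum_const, nsmul_eq_mul]
      have e : ((pr (u ^ 27) (u ^ a)).card : ℝ) * J.card ≤ (u : ℝ) ^ a * (u : ℝ) ^ 2 :=
        mul_le_mul a1 hk' (by positivity) (by positivity)
      have f : (u : ℝ) ^ (a + 3) = (u : ℝ) ^ a * (u : ℝ) ^ 2 * u := by ring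
      have f2 := mul_le_mul_of_nonneg_left (show (2 : ℝ) ≤ u by linarith)
        (show 0 ≤ (u : ℝ) ^ a * (u : ℝ) ^ 2 by positivity)
      rw [f]
      linarith
    calc (1 + ∑ _p ∈ pr (u ^ 27) (u ^ a), (J.card : ℝ)) ^ t ≤ ((u : ℝ) ^ (a + 3)) ^ t :=
          pow_le_pow_left₀ (by positivity) d _
      _ = Real.exp ((((a + 3) * t : ℕ) : ℝ) * Real.log u) := by rw [← pow_mul, pow_exp _ hu0]
      _ ≤ _ := Real.exp_le_exp.2 (by push_cast; linarith)
  have hR : Real.exp ((u : ℝ) ^ 12 / 2) ≤ (R3 u : ℝ) := by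
    unfold R3
    push_cast
    rw [pow_exp 2 (by norm_num)]
    refine Real.exp_le_exp.2 ?_
    have := mul_le_mul_of_nonneg_left Real.log_two_gt_d9.le (show 0 ≤ (u : ℝ) ^ 12 by positivity)
    have h0 : 0 ≤ (u : ℝ) ^ 12 := by positivity
    push_cast
    linarith
  have hgk : (u : ℝ) ^ J.card ≤ Real.exp ((u : ℝ) ^ 10) := by
    rw [pow_exp _ hu0]
    refine Real.exp_le_exp.2 ?_
    have := mul_le_mul hk' hL hL0.le (show 0 ≤ (u : ℝ) ^ 2 by positivity)
    have e : (u : ℝ) ^ 2 * u = (u : ℝ) ^ 3 := by ring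
    linarith
  obtain ⟨m0, m1⟩ := mean_le I hI (fun i => g i ^ J.card) ((u : ℝ) ^ J.card)
    (fun i hi => pow_nonneg (hg i hi).1 _) fun i hi => pow_le_pow_left₀ (hg i hi).1 (hg i hi).2 _
  have hD : 6 * (4 * (3 : ℝ) ^ u) ≤ Real.exp ((u : ℝ) ^ 10) := by
    have b1 : (3 : ℝ) ^ u ≤ Real.exp (2 * u) := by
      rw [pow_exp 3 (by norm_num)]
      refine Real.exp_le_exp.2 ?_
      have := Real.log_le_sub_one_of_pos (show (0 : ℝ) < 3 by norm_num)
      nlinarith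
    have b2 : (24 : ℝ) ≤ Real.exp u := by
      have := Real.add_one_le_exp (u : ℝ)
      linarith
    calc 6 * (4 * (3 : ℝ) ^ u) = 24 * 3 ^ u := by ring
      _ ≤ Real.exp u * Real.exp (2 * u) := mul_le_mul b2 b1 (by positivity) (by positivity)
      _ = Real.exp (u + 2 * u) := (Real.exp_add _ _).symm
      _ ≤ _ := Real.exp_le_exp.2 (by linarith)
  have hS : S3 a u = Free (u ^ 27) (u ^ a) := rfl
  rw [hS, mean_av]
  rw [mul_div_assoc] at hB
  exact fin _ _ _ _ _ _ _ _ _ _ hR m0 (m1.trans hgk) hm' hB hT2' hT3 (by positivity) hw hz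
    (by positivity) hD

end Pool.Agent.Lib.MP_be93de_nt.Hd
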