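import Pool.Agent.Lib.MP_be93de_nt.Hd.Defs

/-! A cell law with few points and exact marginals. -/

namespace Pool.Agent.Lib.MP_be93de_nt.Hd

open Finset

namespace Base2x

/-- truncated inclusion and exclusion -/
noncomputable def Al (ρ : ℕ → ℝ) (e : Finset ℕ) (k : ℕ) : ℝ :=
  ∑ L ∈ e.powerset, if L.card < k then (-1) ^ L.card * ∏ t ∈ L, ρ t else 0

variable {ρ : ℕ → ℝ}

theorem Al_zero (e : Finset ℕ) : Al ρ e 0 = 0 :=
  sum_eq_zero fun _ _ => if_neg (Nat.not_lt_zero _)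

theorem Al_empty {k : ℕ} (hk : 0 < k) : Al ρ ∅ k = 1 := by
  unfold Al
  rw [powerset_empty, sum_singleton, card_empty, if_pos hk, pow_zero, prod_empty, mul_one]

theorem Al_insert {t : ℕ} {e : Finset ℕ} (ht : t ∉ e) (k : ℕ) :
    Al ρ (insert t e) k = Al ρ e k - ρ t * Al ρ e (k - 1) := by
  unfold Al
  rw [sum_powerset_insert ht, mul_sum, sub_eq_add_neg, ← sum_neg_distrib]
  congr 1
  refine sum_congr rfl fun L hL => ?_
  have h1 : t ∉ L := fun h => ht (mem_powerset.1 hL h)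
  rw [card_insert_of_notMem h1, prod_insert h1]
  by_cases h : L.card + 1 < k
  · rw [if_pos h, if_pos (by omega)]
    ring
  · rw [if_neg h, if_neg (by omega)]
    ring

theorem Al_bd (e : Finset ℕ) : (∀ t ∈ e, 0 ≤ ρ t) → ∑ t ∈ e, ρ t ≤ 1 → ∀ k,
    0 ≤ Al ρ e k ∧ Al ρ e k ≤ 1 ∧ (0 < k → 1 - ∑ t ∈ e, ρ t ≤ Al ρ e k) := by
  induction e using Finset.induction_on with
  | empty =>
    intro _ _ k
    rcases Nat.eq_zero_or_pos k with rfl | hk
    · rw [Al_zero]
      exact ⟨le_rfl, zero_le_one, fun h => absurd h (lt_irrefl 0)⟩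
    · rw [Al_empty hk, sum_empty]
      exact ⟨zero_le_one, le_rfl, fun _ => by norm_num⟩
  | insert t e ht ih =>
    intro h0 h1 k
    rw [sum_insert ht] at h1 ⊢
    have r0 := h0 t (mem_insert_self _ _)
    have ih' := ih (fun s hs => h0 s (mem_insert_of_mem hs)) (by linarith)
    rcases Nat.eq_zero_or_pos k with rfl | hk
    · rw [Al_zero]
      exact ⟨le_rfl, zero_le_one, fun h => absurd h (lt_irrefl 0)⟩
    · obtain ⟨-, a2, a3⟩ := ih' k
      obtain ⟨b1, b2, -⟩ := ih' (k - 1)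
      have a4 := a3 hk
      have c1 := mul_nonneg r0 b1
      have c2 := mul_le_of_le_one_right r0 b2
      rw [Al_insert ht]
      exact ⟨by linarith, by linarith, fun _ => by linarith⟩

theorem tot (d : Finset ℕ) {k : ℕ} (hk : 0 < k) :
    ∑ σ ∈ d.powerset, (∏ t ∈ σ, ρ t) * Al ρ (d \ σ) (k - σ.card) = 1 := by
  induction d using Finset.induction_on with
  | empty =>
    rw [powerset_empty, sum_singleton, prod_empty, sdiff_empty, card_empty, Nat.sub_zero,
      Al_empty hk, mul_one]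
  | insert t d ht ih =>
    rw [sum_powerset_insert ht, ← sum_add_distrib, ← ih]
    refine sum_congr rfl fun σ hσ => ?_
    have h1 : t ∉ σ := fun h => ht (mem_powerset.1 hσ h)
    have h2 : t ∉ d \ σ := fun h => ht (mem_sdiff.1 h).1
    rw [insert_sdiff_of_notMem _ h1, insert_sdiff_insert, sdiff_insert_of_notMem ht,
      Al_insert h2, card_insert_of_notMem h1, prod_insert h1, Nat.sub_add_eq]
    ring

theorem reidx {c K : Finset ℕ} (hK : K ⊆ c) (f : Finset ℕ → ℝ) :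
    ∑ π ∈ c.powerset.filter (K ⊆ ·), f π = ∑ σ ∈ (c \ K).powerset, f (K ∪ σ) := by
  refine sum_nbij' (fun π => π \ K) (fun σ => K ∪ σ) ?_ ?_ ?_ ?_ ?_
  · intro π hπ
    exact mem_powerset.2 (sdiff_subset_sdiff (mem_powerset.1 (mem_filter.1 hπ).1) (Subset.refl _))
  · intro σ hσ
    exact mem_filter.2 ⟨mem_powerset.2
      (union_subset hK ((mem_powerset.1 hσ).trans sdiff_subset)), subset_union_left⟩
  · intro π hπ
    exact union_sdiff_of_subset (mem_filter.1 hπ).2
  · intro σ hσ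
    exact union_sdiff_cancel_left
      (disjoint_left.2 fun x hx hx' => (mem_sdiff.1 (mem_powerset.1 hσ hx')).2 hx)
  · intro π hπ
    rw [union_sdiff_of_subset (mem_filter.1 hπ).2]

end Base2x

open Base2x in
theorem base2_st : Base2St := by
  intro c ρ nm h0 h1
  obtain ⟨b, hb⟩ : ∃ b : Finset ℕ → ℝ, ∀ π, b π =
      if π ⊆ c then (∏ t ∈ π, ρ t) * Al ρ (c \ π) (nm + 1 - π.card) else 0 := ⟨_, fun _ => rfl⟩
  have hs : ∀ π, ∑ t ∈ c \ π, ρ t ≤ 1 / 2 := fun π =>
    (sum_le_sum_of_subset_of_nonneg sdiff_subset fun t ht _ => h0 t ht).trans h1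
  have hA := fun π => Al_bd (ρ := ρ) (c \ π) (fun t ht => h0 t (mem_sdiff.1 ht).1)
    ((hs π).trans (by norm_num))
  have hp : ∀ π ⊆ c, 0 ≤ ∏ t ∈ π, ρ t := fun π h => prod_nonneg fun t ht => h0 t (h ht)
  have hm : ∀ K ⊆ c, K.card ≤ nm → ∑ π ∈ c.powerset.filter (K ⊆ ·), b π = ∏ t ∈ K, ρ t := by
    intro K hK hc
    rw [reidx hK, ← mul_one (∏ t ∈ K, ρ t),
      ← tot (ρ := ρ) (c \ K) (k := nm + 1 - K.card) (by omega), mul_sum]
    refine sum_congr rfl fun σ hσ => ?_
    have h2 := mem_powerset.1 hσ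
    have h3 : Disjoint K σ := disjoint_left.2 fun x hx hx' => (mem_sdiff.1 (h2 hx')).2 hx
    have h4 : c \ (K ∪ σ) = (c \ K) \ σ := by
      ext x
      rw [mem_sdiff, mem_sdiff, mem_sdiff, mem_union, not_or, and_assoc]
    rw [hb, if_pos (union_subset hK (h2.trans sdiff_subset)), prod_union h3,
      card_union_of_disjoint h3, h4, Nat.sub_add_eq, mul_assoc]
  refine ⟨b, fun π => ?_, ?_, fun π hπ => ?_, hm, fun π hπ hc => ?_⟩
  · rw [hb]
    by_cases h : π ⊆ c
    · rw [if_pos h]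
      exact mul_nonneg (hp π h) (hA π _).1
    · rw [if_neg h]
  · have := hm ∅ (empty_subset _) (by simp)
    rwa [filter_true_of_mem (fun π _ => empty_subset π), prod_empty] at this
  · rw [hb, show nm + 1 - π.card = 0 by omega, Al_zero, mul_zero, ite_self]
  · rw [hb, if_pos hπ]
    obtain ⟨-, a2, a3⟩ := hA π (nm + 1 - π.card)
    have a4 := a3 (by omega)
    have a5 := hs π
    have a6 := mul_le_mul_of_nonneg_left
      (show 1 / 2 ≤ Al ρ (c \ π) (nm + 1 - π.card) by linarith) (hp π hπ)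
    exact ⟨by linarith, mul_le_of_le_one_right (hp π hπ) a2⟩

end Pool.Agent.Lib.MP_be93de_nt.Hd
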