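import Pool.Agent.Lib.MP_be93de_nt.Hd.Defs

namespace Pool.Agent.Lib.MP_be93de_nt.Hd

open Finset Filter Pool.Agent.Lib.MP_be93de_nt.Hb
open Pool.Agent.Lib.MP_be93de_nt.Hc (one Cells2St)

namespace Block3x

def Ms (q : ℕ) (H : Finset ℕ) (T Z : ℕ) : Finset ℕ :=
  (range Z).filter (fun m => ∀ b ∈ H, q * m + b ∈ Ico T Z)

def Ks (q : ℕ) (H : Finset ℕ) (m : ℕ) : Finset ℕ := H.image (fun b => q * m + b)

theorem one_Ks (q : ℕ) (H B : Finset ℕ) (m : ℕ) :
    one (B : Set ℕ) (Ks q H m) = if ∀ b ∈ H, q * m + b ∈ B then 1 else 0 := by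
  unfold one Ks
  by_cases h : ∀ b ∈ H, q * m + b ∈ B
  · rw [if_pos h, if_pos]
    intro t ht
    obtain ⟨b, hb, rfl⟩ := mem_image.1 ht
    exact mem_coe.2 (h b hb)
  · rw [if_neg h, if_neg]
    intro k
    exact h fun b hb => mem_coe.1 (k _ (mem_image_of_mem _ hb))

theorem tup_eq (q : ℕ) (H : Finset ℕ) {T Z : ℕ} {B : Finset ℕ} (hB : B ⊆ Ico T Z) :
    (tup q H Z B : ℝ) = ∑ m ∈ Ms q H T Z, one (B : Set ℕ) (Ks q H m) := by
  unfold tup Ms
  rw [sum_filter, card_filter]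
  push_cast
  refine sum_congr rfl fun m _ => ?_
  rw [one_Ks]
  by_cases h : ∀ b ∈ H, q * m + b ∈ B
  · rw [if_pos h, if_pos fun b hb => hB (h b hb)]
  · rw [if_neg h, ite_self]

theorem card_le {q b T W : ℕ} (hq : 1 ≤ q) {S : Finset ℕ}
    (h : ∀ m ∈ S, q * m + b ∈ Ico T (T + W)) : S.card ≤ W := by
  have k := card_le_card_of_injOn (s := S) (t := Ico T (T + W)) (fun m => q * m + b)
    (fun m hm => mem_coe.2 (h m (mem_coe.1 hm))) (fun m _ n _ e => by
      have e' : q * m = q * n := by simpa using e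
      exact Nat.eq_of_mul_eq_mul_left hq e')
  simpa using k

theorem card_Ks (q : ℕ) (H : Finset ℕ) (m : ℕ) : (Ks q H m).card = H.card :=
  card_image_of_injective _ fun a b e => by simpa using e

theorem bad_le {q T Z W : ℕ} (hq : 1 ≤ q) (H : Finset ℕ) :
    ((Ms q H T Z).filter (fun m => ∃ b ∈ H, q * m + b < T + W)).card ≤ H.card * W := by
  have k : (Ms q H T Z).filter (fun m => ∃ b ∈ H, q * m + b < T + W) ⊆
      H.biUnion (fun b => (range Z).filter (fun m => q * m + b ∈ Ico T (T + W))) := by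
    intro m hm
    obtain ⟨k1, b, hb, k2⟩ := mem_filter.1 hm
    obtain ⟨k3, k4⟩ := mem_filter.1 k1
    exact mem_biUnion.2 ⟨b, hb, mem_filter.2 ⟨k3, mem_Ico.2 ⟨(mem_Ico.1 (k4 b hb)).1, k2⟩⟩⟩
  refine (card_le_card k).trans (card_biUnion_le_card_mul _ _ _ fun b _ => ?_)
  exact card_le (b := b) (T := T) hq fun m hm => (mem_filter.1 hm).2

theorem num {a u : ℕ} (ha : 60 ≤ a) (hu : 2 ≤ u) :
    (u : ℝ) * (3 * R3 u + 3) ≤ Y3 u * er a u / 2 := by
  have u2 : (2 : ℝ) ≤ u := by exact_mod_cast hu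
  have a2 : (60 : ℝ) ≤ a := by exact_mod_cast ha
  have eY : (Y3 u : ℝ) = R3 u * R3 u := by
    unfold Y3 R3
    rw [two_mul, pow_add, Nat.cast_mul]
  have r1 : (1 : ℝ) ≤ R3 u := by
    have : 1 ≤ R3 u := Nat.one_le_two_pow
    exact_mod_cast this
  have n0 : (0 : ℝ) ≤ (u : ℝ) ^ 12 := by positivity
  have eR : (R3 u : ℝ) = Real.exp (Real.log 2 * (u : ℝ) ^ 12) := by
    unfold R3
    rw [Real.exp_mul, Real.exp_log (by norm_num), ← Nat.cast_pow, Real.rpow_natCast]
    push_cast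
    rfl
  have l2 := Real.log_two_gt_d9
  have d1 : (u : ℝ) ^ 12 / a ≤ (u : ℝ) ^ 12 / 60 :=
    div_le_div_of_nonneg_left n0 (by norm_num) a2
  have p1 : (2 : ℝ) ^ 11 ≤ (u : ℝ) ^ 11 := pow_le_pow_left₀ (by norm_num) u2 11
  have p2 : (u : ℝ) ^ 12 = u * u ^ 11 := by ring
  have p3 : 24 * (u : ℝ) ≤ (u : ℝ) ^ 12 := by rw [p2]; nlinarith
  have k : 12 * (u : ℝ) ≤ R3 u * er a u := by
    rw [eR, er, ← Real.exp_add]
    have := Real.add_one_le_exp (Real.log 2 * (u : ℝ) ^ 12 + -((u : ℝ) ^ 12 / a))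
    nlinarith
  rw [eY]
  have k2 := mul_le_mul_of_nonneg_left k (show (0 : ℝ) ≤ R3 u by linarith)
  nlinarith

end Block3x

open Block3x in
theorem block3_st (h1 : BlockKSt) (h2 : Sing3St) : Block3St := by
  intro a ha
  filter_upwards [h1 a ha, eventually_ge_atTop 2] with u hK hu T r ρ d h0 hρ
  obtain ⟨B, ν, hB, hne, hG, hsum, hν, hdev⟩ := hK T r ρ (Σ _ : ℕ × Finset ℕ, ℕ)
    ((tests3 u).sigma fun τ => Ms τ.1 τ.2 T (T + Y3 u)) (fun i => Ks i.1.1 i.1.2 i.2)
    (fun i => d i.1) h0 hρ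
  have hB' : B ⊆ Ico T (T + Y3 u) := hB.trans (Ico_subset_Ico (by omega) le_rfl)
  have hE : EB3 u T ⊆ Ico T (T + Y3 u) := filter_subset _ _
  have u2 : (2 : ℝ) ≤ u := by exact_mod_cast hu
  have ρ1 : ρ ≤ 1 := hρ.trans (by
    rw [div_le_one (by positivity)]
    exact one_le_pow₀ (by linarith))
  have e0 : 0 < er a u := Real.exp_pos _
  refine ⟨B, fun τ => ∑ m ∈ Ms τ.1 τ.2 T (T + Y3 u), ν (Ks τ.1 τ.2 m), hB, hne, hG, ?_,
    fun τ hτ => ?_⟩
  · rw [sum_sigma] at hsum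
    refine le_of_eq_of_le (sum_congr rfl fun τ _ => ?_) hsum
    rw [tup_eq _ _ hB', ← sum_sub_distrib, mul_sum]
  · obtain ⟨q, H⟩ := τ
    obtain ⟨t1, t2⟩ := mem_product.1 hτ
    obtain ⟨t3, t4, t5⟩ := mem_filter.1 t2
    have hq : 1 ≤ q := (mem_Icc.1 t1).1
    have t6 : ∀ b ∈ H, b ≤ u ^ 25 := fun b hb =>
      Nat.lt_succ_iff.1 (mem_range.1 (mem_powerset.1 t3 hb))
    dsimp only at t4 t5 ⊢
    obtain ⟨b0, hb0⟩ := card_pos.1 t4
    have cM : (Ms q H T (T + Y3 u)).card ≤ Y3 u :=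
      card_le (b := b0) (T := T) hq fun m hm => (mem_filter.1 hm).2 b0 hb0
    have cM' : ((Ms q H T (T + Y3 u)).card : ℝ) ≤ Y3 u := by exact_mod_cast cM
    refine ⟨⟨sum_nonneg fun m _ => (hν _).1, ?_⟩, ?_⟩
    · refine (sum_le_sum (g := fun _ => (1 : ℝ)) fun m _ => (hν _).2).trans ?_
      simpa using cM
    · obtain ⟨ψ0, ψ1⟩ := (h2 u).1 H.card t5
      have c0 : 0 ≤ ρ ^ H.card * psi u H.card := mul_nonneg (pow_nonneg h0 _) ψ0
      have c1 : ρ ^ H.card * psi u H.card ≤ 1 := mul_le_one₀ (pow_le_one₀ h0 ρ1) ψ0 ψ1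
      rw [tup_eq _ _ hE, mul_sum, ← sum_sub_distrib]
      have key : ∀ m ∈ Ms q H T (T + Y3 u),
          |ν (Ks q H m) - ρ ^ H.card * psi u H.card * one (EB3 u T : Set ℕ) (Ks q H m)| ≤
            er a u / 2 + if ∃ b ∈ H, q * m + b < T + (3 * R3 u + 3) then 1 else 0 := by
        intro m hm
        have m2 := (mem_filter.1 hm).2
        by_cases hb : ∃ b ∈ H, q * m + b < T + (3 * R3 u + 3)
        · rw [if_pos hb, one_Ks, abs_le]
          have n1 := (hν (Ks q H m)).1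
          have n2 := (hν (Ks q H m)).2
          split_ifs
          · constructor <;> linarith
          · constructor <;> linarith
        · rw [if_neg hb, add_zero]
          have k := hdev (Ks q H m) (fun t ht => by
              obtain ⟨b, hb', rfl⟩ := mem_image.1 ht
              have k1 := (mem_Ico.1 (m2 b hb')).2
              have k2 : ¬ q * m + b < T + (3 * R3 u + 3) := fun k => hb ⟨b, hb', k⟩
              exact mem_Ico.2 ⟨by omega, k1⟩)
            (by rw [card_Ks]; exact t5) (fun s hs t ht => by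
              obtain ⟨b, hb', rfl⟩ := mem_image.1 hs
              obtain ⟨c, -, rfl⟩ := mem_image.1 ht
              have := t6 b hb'
              omega)
          rw [card_Ks] at k
          rw [one_Ks]
          by_cases hf : ∀ b ∈ H, q * m + b ∈ EB3 u T
          · rw [if_pos hf, mul_one]
            rw [if_pos (fun t ht => by
              obtain ⟨b, hb', rfl⟩ := mem_image.1 ht
              exact (mem_filter.1 (hf b hb')).2)] at k
            exact k
          · rw [if_neg hf, mul_zero]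
            rw [if_neg (fun k' => hf fun b hb' =>
              mem_filter.2 ⟨m2 b hb', k' _ (mem_image_of_mem _ hb')⟩)] at k
            exact k
      refine (abs_sum_le_sum_abs _ _).trans ((sum_le_sum key).trans ?_)
      rw [sum_add_distrib, sum_const, nsmul_eq_mul, sum_boole]
      have b1 : ((((Ms q H T (T + Y3 u)).filter
          (fun m => ∃ b ∈ H, q * m + b < T + (3 * R3 u + 3))).card : ℕ) : ℝ) ≤
          (u : ℝ) * (3 * R3 u + 3) := by
        have := (bad_le (T := T) (Z := T + Y3 u) (W := 3 * R3 u + 3) hq H).trans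
          (Nat.mul_le_mul_right _ t5)
        exact_mod_cast this
      have b2 := num ha hu
      have b3 := mul_le_mul_of_nonneg_right cM' (show 0 ≤ er a u / 2 by linarith)
      linarith

end Pool.Agent.Lib.MP_be93de_nt.Hd
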