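import Pool.Agent.Lib.MP_be93de_nt.Hd.Defs

namespace Pool.Agent.Lib.MP_be93de_nt.Hd

open Finset Filter Pool.Agent.Lib.MP_be93de_nt.Hb
open Pool.Agent.Lib.MP_be93de_nt.Hc (one Cells2St)

namespace BlockKx

def Zn (T u : ℕ) : Finset ℕ := (range (u + 1)).image (fun i => T + 3 * (i + 1))

theorem mem_Zn {T u a : ℕ} : a ∈ Zn T u ↔ ∃ i, i ≤ u ∧ T + 3 * (i + 1) = a := by
  simp [Zn]

theorem card_Zn (T u : ℕ) : (Zn T u).card = u + 1 := by
  rw [Zn, card_image_of_injective _ (fun i j e => by omega), card_range]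

theorem good_union {P : ℕ → Prop} {T L u r : ℕ} {B : Finset ℕ} (hu : u < L)
    (hB : ∀ a ∈ B, T + 3 * L + 3 ≤ a) (h : Good P (r + 1 + u) B) : Good P r (Zn T u ∪ B) := by
  intro a ha ha2
  have a1 : a ∈ B := by
    rcases mem_union.1 ha with e | e
    · obtain ⟨i, hi, rfl⟩ := mem_Zn.1 e
      rcases mem_union.1 ha2 with e' | e'
      · obtain ⟨j, -, hj⟩ := mem_Zn.1 e'
        omega
      · have := hB _ e'
        omega
    · exact e
  have a0 := hB a a1
  have a2 : a + 2 ∈ B := by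
    rcases mem_union.1 ha2 with e' | e'
    · obtain ⟨j, hj, hj'⟩ := mem_Zn.1 e'
      omega
    · exact e'
  have e1 : (Zn T u).filter (· ≤ a) = Zn T u := filter_true_of_mem fun x hx => by
    obtain ⟨j, hj, hj'⟩ := mem_Zn.1 hx
    omega
  have e2 : Disjoint (Zn T u) (B.filter (· ≤ a)) := disjoint_left.2 fun x hx hx' => by
    obtain ⟨j, hj, hj'⟩ := mem_Zn.1 hx
    have := hB x (mem_filter.1 hx').1
    omega
  have := h a a1 a2
  rw [filter_union, e1, card_union_of_disjoint e2, card_Zn]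
  convert this using 1
  omega

theorem sub_un {cs : List (Finset ℕ)} {c : Finset ℕ} (h : c ∈ cs) : c ⊆ un cs := by
  induction cs with
  | nil => simp at h
  | cons a l ih =>
    rcases List.mem_cons.1 h with rfl | e
    · exact subset_union_left
    · exact (ih e).trans subset_union_right

theorem one_eq (B K : Finset ℕ) : one (B : Set ℕ) K = if K ⊆ B then 1 else 0 := by
  unfold one
  by_cases h : K ⊆ B
  · rw [if_pos h, if_pos fun t ht => mem_coe.2 (h ht)]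
  · rw [if_neg h, if_neg fun k => h fun t ht => mem_coe.1 (k t ht)]

theorem mean_abs {ι : Type} {I : Finset ι} (hI : I.Nonempty) {f : ι → ℝ} {c : ℝ}
    (h : ∀ i ∈ I, |f i| ≤ c) : |mean I f| ≤ c := by
  have c0 : (0 : ℝ) < I.card := by exact_mod_cast hI.card_pos
  unfold mean
  rw [abs_div, abs_of_pos c0, div_le_iff₀ c0]
  refine (abs_sum_le_sum_abs _ _).trans ((sum_le_sum h).trans ?_)
  rw [sum_const, nsmul_eq_mul, mul_comm]

theorem mean_split {ι : Type} (I : Finset ι) (m f : ι → ℝ) (c z : ℝ) :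
    mean I m - c * z = mean I (fun i => m i - c * f i) + c * (mean I f - z) := by
  unfold mean
  rw [sum_sub_distrib, ← mul_sum]
  ring

theorem mean3 {ι κ : Type} (I : Finset ι) (J : Finset κ) (L r : ℕ) (F : ι → κ → ℕ → ℝ) :
    (∑ x ∈ I ×ˢ (J ×ˢ range L), F x.1 x.2.1 (r + x.2.2)) / ((I ×ˢ (J ×ˢ range L)).card : ℝ) =
      mean I (fun i => mean J (fun j => Av L r (F i j))) := by
  unfold mean Av
  rw [sum_product, card_product, card_product, card_range]
  simp only [sum_product, ← sum_div]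
  push_cast
  rw [div_div, div_div]
  congr 1
  ring

theorem ratio {θ : ℝ} {n : ℕ} (h0 : 0 ≤ θ) (h1 : θ ≤ 1 / 4) (h : n * θ ≤ 1 / 4) :
    (1 + θ) ^ n / 2 ≤ (1 - θ) ^ n := by
  have a1 : 1 + (n : ℝ) * (-(2 * θ)) ≤ (1 + -(2 * θ)) ^ n := one_add_mul_le_pow (by linarith) n
  have a2 : ((1 + θ) * (1 + -(2 * θ))) ^ n ≤ (1 - θ) ^ n :=
    pow_le_pow_left₀ (mul_nonneg (by linarith) (by linarith)) (by nlinarith) n
  rw [mul_pow] at a2
  have a3 : (0 : ℝ) ≤ (1 + θ) ^ n := by positivity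
  have a4 : (1 + θ) ^ n * (1 / 2) ≤ (1 + θ) ^ n * (1 + -(2 * θ)) ^ n :=
    mul_le_mul_of_nonneg_left (by linarith) a3
  linarith

theorem numR {a v : ℕ} (ha : 60 ≤ a) (hv : 4 ≤ v) :
    1 / ((2 ^ v : ℕ) : ℝ) ≤ Real.exp (-((v : ℝ) / a)) / 4 := by
  have a1 : (60 : ℝ) ≤ a := by exact_mod_cast ha
  have v4 : (4 : ℝ) ≤ v := by exact_mod_cast hv
  have l1 := Real.log_two_gt_d9
  have l2 := Real.log_two_lt_d9
  have e1 : ((2 ^ v : ℕ) : ℝ) = Real.exp (v * Real.log 2) := by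
    rw [Real.exp_nat_mul, Real.exp_log (by norm_num)]
    push_cast
    rfl
  have e2 : (4 : ℝ) = Real.exp (2 * Real.log 2) := by
    have := Real.exp_nat_mul (Real.log 2) 2
    rw [Real.exp_log (by norm_num)] at this
    push_cast at this
    rw [this]
    norm_num
  have b1 : (v : ℝ) / a ≤ v / 60 := div_le_div_of_nonneg_left (by linarith) (by norm_num) a1
  rw [e1, one_div, ← Real.exp_neg, e2, ← Real.exp_sub]
  refine Real.exp_le_exp.2 ?_
  nlinarith

end BlockKx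

open BlockKx in
theorem blockk_st (h1 : Cells2St) (h2 : Base2St) (h3 : Tilt2St) (h4 : FuncSt) (h5 : Comb2St)
    (h6 : Avg3St) (h7 : Many3St) (h8 : KillSt) : BlockKSt := by
  intro a ha
  filter_upwards [h6 a ha, h7, h8, eventually_ge_atTop 16] with u hA hM hK hs T r ρ ι I K d h0 hρ
  obtain ⟨ι2, I2, g, ne2, hg, hA⟩ := hA
  obtain ⟨ι1, I1, φ, ne1, hφ, hK⟩ := hK
  have s8 : (16 : ℝ) ≤ u := by exact_mod_cast hs
  have s0 : (0 : ℝ) < u := by linarith
  have s5 : (1 : ℝ) ≤ u ^ 5 := one_le_pow₀ (by linarith)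
  have s6 : (16 : ℝ) ≤ u ^ 6 := s8.trans (le_self_pow₀ (by linarith) (by norm_num))
  have hρ' : ρ * (u : ℝ) ^ 11 ≤ 1 := (le_div_iff₀ (by positivity)).1 hρ
  have e11 : (u : ℝ) ^ 11 = u ^ 5 * u ^ 6 := by ring
  have ρ5 : ρ * (u : ℝ) ^ 5 ≤ 1 / 16 := by
    have : 0 ≤ ρ * (u : ℝ) ^ 5 := by positivity
    nlinarith
  have ρ1 : ρ ≤ 1 / 16 := by nlinarith
  obtain ⟨θ, hθ⟩ : ∃ θ : ℝ, θ = 1 / (u : ℝ) ^ 2 := ⟨_, rfl⟩
  rw [← hθ] at hφ
  have θ0 : 0 ≤ θ := by rw [hθ]; positivity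
  have θu : (u : ℝ) * θ ≤ 1 / 4 := by
    have : (u : ℝ) * θ = 1 / u := by rw [hθ]; field_simp
    rw [this]
    exact one_div_le_one_div_of_le (by norm_num) (by linarith)
  have θ1 : θ ≤ 1 / 4 := by nlinarith
  have f4 : 4 ≤ u ^ 60 := (show 4 ≤ u by omega).trans (Nat.le_self_pow (by norm_num) u)
  have m1 : 1 ≤ u ^ 5 := Nat.one_le_pow _ _ (by omega)
  have hU : ∀ x ∈ (Ico (T + 3 * R3 u + 3) (T + Y3 u)).filter (Free 0 (u ^ 60)),
      ¬ 2 ∣ x ∧ ¬ 3 ∣ x := fun x hx => by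
    have k := (mem_filter.1 hx).2
    exact ⟨k 2 (mem_filter.2 ⟨mem_Ioc.2 ⟨by norm_num, by omega⟩, Nat.prime_two⟩),
      k 3 (mem_filter.2 ⟨mem_Ioc.2 ⟨by norm_num, by omega⟩, Nat.prime_three⟩)⟩
  have n2 : 3 * R3 u + 3 ≤ Y3 u := by
    obtain ⟨x, hx⟩ := card_pos.1 (lt_of_lt_of_le m1 (hM T))
    have := mem_Ico.1 (mem_filter.1 hx).1
    omega
  obtain ⟨cs, hS, hc, hu⟩ := h1 _ (u ^ 5) m1 (hM T) hU
  have hp : ∀ (i : ι1) (c : Finset ℕ), ∃ p : ι2 → ℕ → Finset ℕ → ℝ, i ∈ I1 → c ∈ cs →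
      (∀ j ∈ I2, Prob (S3 a u) c (p j)) ∧ Rep2 (S3 a u) I2 g (fun t => ρ * φ i t) u c p := by
    intro i c
    by_cases hi : i ∈ I1
    swap
    · exact ⟨fun _ _ _ => 0, fun k => absurd k hi⟩
    by_cases hcs : c ∈ cs
    swap
    · exact ⟨fun _ _ _ => 0, fun _ k => absurd k hcs⟩
    have k1 : (u : ℝ) ^ 5 ≤ c.card := by exact_mod_cast (hc c hcs).1
    have k2 : (c.card : ℝ) ≤ 2 * u ^ 5 + 1 := by exact_mod_cast (hc c hcs).2
    have lo : ∀ t, ρ * (1 - θ) ≤ ρ * φ i t := fun t =>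
      mul_le_mul_of_nonneg_left (by have := abs_le.1 (hφ i hi t); linarith) h0
    have hi' : ∀ t, ρ * φ i t ≤ ρ * (1 + θ) := fun t =>
      mul_le_mul_of_nonneg_left (by have := abs_le.1 (hφ i hi t); linarith) h0
    have lo0 : 0 ≤ ρ * (1 - θ) := mul_nonneg h0 (by linarith)
    obtain ⟨b, hb⟩ := h2 c (fun t => ρ * φ i t) u (fun t _ => lo0.trans (lo t)) (by
      refine (sum_le_sum fun t _ => hi' t).trans ?_
      rw [sum_const, nsmul_eq_mul]
      have q1 : ρ * (1 + θ) ≤ ρ * 2 := mul_le_mul_of_nonneg_left (by linarith) h0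
      have q2 : (c.card : ℝ) * (ρ * (1 + θ)) ≤ (3 * u ^ 5) * (ρ * 2) :=
        mul_le_mul (by linarith) q1 (mul_nonneg h0 (by linarith)) (by positivity)
      linarith)
    obtain ⟨p, hp⟩ := h3 (S3 a u) c ι2 I2 g u (fun t => ρ * φ i t) u b
      (fun x hx => (hU x (hu ▸ sub_un hcs hx)).2) (by linarith) hg (by
        refine le_trans ?_ k1
        have q1 : (u : ℝ) ^ 5 = u ^ 3 * u ^ 2 := by ring
        have q2 : (12 : ℝ) ≤ u ^ 2 := by nlinarith
        have q3 : (u : ℝ) ^ 3 * 12 ≤ u ^ 3 * u ^ 2 := mul_le_mul_of_nonneg_left q2 (by positivity)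
        have q4 : 12 * (u : ℝ) * u ^ 2 = u ^ 3 * 12 := by ring
        linarith) hb (fun n hn => ⟨(ρ * (1 + θ)) ^ n, fun π hπ e => by
        obtain ⟨c1, c2⟩ := hb.cmp π hπ (e ▸ hn)
        have n' : (n : ℝ) ≤ u := by exact_mod_cast hn
        have q1 : (ρ * (1 - θ)) ^ n ≤ ∏ t ∈ π, ρ * φ i t := by
          rw [← e, ← prod_const]
          exact prod_le_prod (fun _ _ => lo0) fun t _ => lo t
        have q2 : ∏ t ∈ π, ρ * φ i t ≤ (ρ * (1 + θ)) ^ n := by
          rw [← e, ← prod_const]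
          exact prod_le_prod (fun t _ => lo0.trans (lo t)) fun t _ => hi' t
        have q3 := ratio (n := n) θ0 θ1 ((mul_le_mul_of_nonneg_right n' θ0).trans θu)
        have q4 : ρ ^ n * ((1 + θ) ^ n / 2) ≤ ρ ^ n * (1 - θ) ^ n :=
          mul_le_mul_of_nonneg_left q3 (by positivity)
        rw [mul_pow] at q1
        refine ⟨?_, c2.trans q2⟩
        rw [mul_pow]
        linarith⟩)
    exact ⟨p, fun _ _ => hp⟩
  choose p hp using hp
  have R1 : 1 ≤ R3 u := Nat.one_le_two_pow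
  obtain ⟨W, hW⟩ : ∃ W, W = I1 ×ˢ (I2 ×ˢ range (R3 u)) := ⟨_, rfl⟩
  have mW : ∀ x ∈ W, x.1 ∈ I1 ∧ x.2.1 ∈ I2 ∧ x.2.2 < R3 u := fun x hx => by
    rw [hW] at hx
    exact ⟨(mem_product.1 hx).1, (mem_product.1 (mem_product.1 hx).2).1,
      mem_range.1 (mem_product.1 (mem_product.1 hx).2).2⟩
  have neW : W.Nonempty := by
    rw [hW]
    exact ne1.product (ne2.product ⟨0, mem_range.2 R1⟩)
  have W0 : (0 : ℝ) < W.card := by exact_mod_cast neW.card_pos
  have fn := fun x (hx : x ∈ W) => (h4 (S3 a u) (fun c => p x.1 c x.2.1) cs).2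
    fun c k => (hp x.1 c (mW x hx).1 k).1 x.2.1 (mW x hx).2.1
  obtain ⟨w, hw, hmin⟩ := exists_min_image W (fun x => ∑ i ∈ I, d i *
    Ex (fun c => p x.1 c x.2.1) cs (r + 1 + x.2.2)
      (fun B => if K i ⊆ Zn T x.2.2 ∪ B then 1 else 0)) neW
  obtain ⟨B, hB, hG, hle⟩ := (fn w hw).2.2 hS (r + 1 + w.2.2)
    (fun B => ∑ i ∈ I, d i * if K i ⊆ Zn T w.2.2 ∪ B then 1 else 0)
  rw [(h4 (S3 a u) (fun c => p w.1 c w.2.1) cs).1] at hle
  have uR := (mW w hw).2.2
  have hBU : ∀ x ∈ un cs, T + 3 * R3 u + 3 ≤ x ∧ x < T + Y3 u := fun x hx =>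
    mem_Ico.1 (mem_filter.1 (hu ▸ hx)).1
  have er0 : 0 < er a u := Real.exp_pos _
  refine ⟨Zn T w.2.2 ∪ B, fun L => (∑ x ∈ W, Ex (fun c => p x.1 c x.2.1) cs (r + 1 + x.2.2)
      (fun B => if L ⊆ Zn T x.2.2 ∪ B then 1 else 0)) / W.card,
    fun x hx => ?_, ⟨T + 3, mem_union_left _ (mem_Zn.2 ⟨0, Nat.zero_le _, rfl⟩)⟩,
    good_union uR (fun x hx => (hBU x (hB hx)).1) hG, ?_, fun L => ⟨?_, ?_⟩,
    fun L hL hLs hLD => ?_⟩
  · rcases mem_union.1 hx with e | e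
    · obtain ⟨i, hi, rfl⟩ := mem_Zn.1 e
      exact mem_Ico.2 ⟨by omega, by omega⟩
    · have k := hBU x (hB e)
      exact mem_Ico.2 ⟨by omega, k.2⟩
  · have k := card_nsmul_le_sum _ _ _ hmin
    rw [nsmul_eq_mul, sum_comm] at k
    simp only [one_eq, mul_sub, sum_sub_distrib, ← mul_div_assoc, mul_sum]
    rw [← sum_div, sub_nonpos, le_div_iff₀ W0]
    exact (mul_le_mul_of_nonneg_right hle W0.le).trans ((mul_comm _ _).trans_le k)
  · exact div_nonneg (sum_nonneg fun x hx => ((fn x hx).1 _ 0).symm.trans_le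
      ((fn x hx).2.1 _ _ _ fun B _ => by split_ifs <;> norm_num)) W0.le
  · rw [div_le_one W0]
    refine (sum_le_sum (g := fun _ => (1 : ℝ)) fun x hx => ((fn x hx).2.1 _ _ (fun _ => 1)
      fun B _ => by split_ifs <;> norm_num).trans_eq ((fn x hx).1 _ 1)).trans ?_
    simp
  · have hz : ∀ s < R3 u, ∀ x ∈ L, x ∉ Zn T s := fun s hs x hx k => by
      obtain ⟨i, hi, rfl⟩ := mem_Zn.1 k
      have := mem_Ico.1 (hL hx)
      omega
    by_cases hf : ∀ t ∈ L, Free 0 (u ^ 60) t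
    · rw [if_pos hf]
      have hm : L ⊆ un cs := fun x hx => by
        rw [hu]; exact mem_filter.2 ⟨hL hx, hf x hx⟩
      have d27 : u * (u ^ 25 + 1) ≤ u ^ 27 := by
        have b1 : 1 ≤ u ^ 25 := Nat.one_le_pow _ _ (by omega)
        have b2 : u ^ 27 = u * (u * u ^ 25) := by ring
        have b3 : 2 * u ^ 25 ≤ u * u ^ 25 := Nat.mul_le_mul_right _ (by omega)
        rw [b2]
        exact Nat.mul_le_mul_left _ (by omega)
      have k1 := fun i (hi : i ∈ I1) => h5 (S3 a u) ι2 I2 g (fun t => ρ * φ i t)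
        (er a u / (4 * 3 ^ u)) u (u ^ 2) (u ^ 27) (u ^ 25) (R3 u) (r + 1)
        (fun j c => p i c j) cs L (hA (r + 1)) hS
        (fun c k => ⟨card_pos.1 (lt_of_lt_of_le (by positivity) (hc c k).1), hp i c hi k⟩) hm hLs
        hLD (by nlinarith) d27
      have k3 : (3 : ℝ) ^ L.card * (er a u / (4 * 3 ^ u)) ≤ er a u / 4 := by
        have b1 : (3 : ℝ) ^ L.card ≤ 3 ^ u := pow_le_pow_right₀ (by norm_num) hLs
        refine (mul_le_mul_of_nonneg_right b1 (by positivity)).trans_eq ?_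
        field_simp
      have k2 := mean_abs ne1 fun i hi => (k1 i hi).trans k3
      have k4 : ∀ x ∈ W, Ex (fun c => p x.1 c x.2.1) cs (r + 1 + x.2.2)
            (fun B => if L ⊆ Zn T x.2.2 ∪ B then 1 else 0) =
          Ex (fun c => p x.1 c x.2.1) cs (r + 1 + x.2.2) (fun B => if L ⊆ B then 1 else 0) :=
        fun x hx => by
          have k5 : ∀ B : Finset ℕ, L ⊆ Zn T x.2.2 ∪ B ↔ L ⊆ B := fun B =>
            ⟨fun k y hy => (mem_union.1 (k hy)).resolve_left (hz _ (mW x hx).2.2 y hy),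
              fun k => k.trans subset_union_right⟩
          simp only [k5]
      have k6 := mean3 I1 I2 (R3 u) (r + 1)
        (fun i j s => Ex (fun c => p i c j) cs s (fun B => if L ⊆ B then 1 else 0))
      rw [← hW] at k6
      beta_reduce
      rw [sum_congr rfl k4, k6]
      have k7 := hK L hLs hLD
      have k8 : 1 / (R3 u : ℝ) ≤ er a u / 4 := by
        have b1 : 4 ≤ u ^ 12 := (show 4 ≤ u by omega).trans (Nat.le_self_pow (by norm_num) u)
        have b2 := numR ha b1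
        rw [Nat.cast_pow u 12] at b2
        exact b2
      have k9 : ρ ^ L.card ≤ 1 := pow_le_one₀ h0 (by linarith)
      have k10 : (0 : ℝ) ≤ ρ ^ L.card := by positivity
      simp only [prod_mul_distrib, prod_const] at k2
      rw [mean_split I1 _ (fun i => ∏ t ∈ L, φ i t)]
      refine (abs_add_le _ _).trans ?_
      rw [abs_mul, abs_of_nonneg k10]
      have k11 := mul_le_mul k9 (k7.trans k8) (abs_nonneg _) zero_le_one
      linarith
    · rw [if_neg hf]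
      have hb : ∃ x ∈ L, x ∉ un cs := by
        by_contra k
        refine hf fun t ht => ?_
        have : t ∈ un cs := by
          by_contra k'
          exact k ⟨t, ht, k'⟩
        rw [hu] at this
        exact (mem_filter.1 this).2
      obtain ⟨y, hy, hy'⟩ := hb
      have z1 : ∀ x ∈ W, Ex (fun c => p x.1 c x.2.1) cs (r + 1 + x.2.2)
          (fun B => if L ⊆ Zn T x.2.2 ∪ B then 1 else 0) = 0 := fun x hx => by
        have k : ∀ B ⊆ un cs, (if L ⊆ Zn T x.2.2 ∪ B then (1 : ℝ) else 0) = 0 := fun B hB =>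
          if_neg fun k => (mem_union.1 (k hy)).elim (hz _ (mW x hx).2.2 y hy) fun k' => hy' (hB k')
        exact le_antisymm (((fn x hx).2.1 _ _ _ fun B hB => (k B hB).le).trans_eq ((fn x hx).1 _ 0))
          (((fn x hx).1 _ 0).symm.trans_le ((fn x hx).2.1 _ _ _ fun B hB => (k B hB).ge))
      beta_reduce
      rw [sum_eq_zero z1]
      simp only [zero_div, sub_zero, abs_zero]
      positivity

end Pool.Agent.Lib.MP_be93de_nt.Hd
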