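import Pool.Agent.Lib.MP_be93de_nt.Hc.Defs

/-! Third version: power saving in the tuple counts. -/

namespace Pool.Agent.Lib.MP_be93de_nt.Hd

open Finset Filter Pool.Agent.Lib.MP_be93de_nt.Hb
open Pool.Agent.Lib.MP_be93de_nt.Hc (one Cells2St)

noncomputable section

def X3 (u : ℕ) : ℕ := 2 ^ (4 * u ^ 12)
def Y3 (u : ℕ) : ℕ := 2 ^ (2 * u ^ 12)
def R3 (u : ℕ) : ℕ := 2 ^ (u ^ 12)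
def er (a u : ℕ) : ℝ := Real.exp (-((u : ℝ) ^ 12 / a))
def S3 (a u : ℕ) : ℕ → Prop := Free (u ^ 27) (u ^ a)
def EB3 (u T : ℕ) : Finset ℕ := (Ico T (T + Y3 u)).filter (Free 0 (u ^ 60))
def T3 (u j : ℕ) : ℕ := X3 u + j * Y3 u
def nb3 (u : ℕ) : ℕ := (X3 (2 * u) - X3 u) / Y3 u
def tests3 (u : ℕ) : Finset (ℕ × Finset ℕ) :=
  (Icc 1 (u ^ 25)) ×ˢ ((range (u ^ 25 + 1)).powerset.filter (fun H => 1 ≤ H.card ∧ H.card ≤ u))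
/-- the factor of the singular series between the sieving level and a power of `x` -/
def psi (u k : ℕ) : ℝ := ∏ p ∈ pr (u ^ 60) (Y3 u), (1 - (k : ℝ) / p) / (1 - 1 / (p : ℝ)) ^ k
/-- mean over a finite index set -/
def mean {ι : Type} (I : Finset ι) (f : ι → ℝ) : ℝ := (∑ i ∈ I, f i) / I.card

structure Base2 (ρ : ℕ → ℝ) (nm : ℕ) (c : Finset ℕ) (b : Finset ℕ → ℝ) : Prop where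
  nonneg : ∀ π, 0 ≤ b π
  total : ∑ π ∈ c.powerset, b π = 1
  trunc : ∀ π, nm < π.card → b π = 0
  marg : ∀ K ⊆ c, K.card ≤ nm → ∑ π ∈ c.powerset.filter (K ⊆ ·), b π = ∏ t ∈ K, ρ t
  cmp : ∀ π ⊆ c, π.card ≤ nm → (∏ t ∈ π, ρ t) / 2 ≤ b π ∧ b π ≤ ∏ t ∈ π, ρ t

def Rep2 (P : ℕ → Prop) {ι : Type} (I : Finset ι) (g : ι → ℝ) (ρ : ℕ → ℝ) (nm : ℕ) (c : Finset ℕ)
    (p : ι → ℕ → Finset ℕ → ℝ) : Prop :=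
  ∃ (b : Finset ℕ → ℝ) (α : Finset ℕ → Finset ℕ → ℝ), Base2 ρ nm c b ∧
    (∀ i ∈ I, ∀ r n, ∑ π ∈ powersetCard n c, p i r π = ∑ π ∈ powersetCard n c, b π) ∧
    ∀ π ⊆ c, ∑ J ∈ (Icc 1 π.card).powerset, α π J = 1 ∧
      ∑ J ∈ (Icc 1 π.card).powerset, |α π J| ≤ 3 ∧
      ∀ i ∈ I, ∀ r, p i r π = b π * ∑ J ∈ (Icc 1 π.card).powerset, α π J * G P (g i) J r

structure SeqOK3 (a u r : ℕ) (B : ℕ → Finset ℕ) : Prop where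
  sub : ∀ j, B j ⊆ Ico (T3 u j + 3) (T3 u j + Y3 u)
  ne : ∀ j, (B j).Nonempty
  good : ∀ j, Good (S3 a u) (r + ∑ i ∈ range j, (B i).card) (B j)
  dev : ∀ τ ∈ tests3 u, ∀ S, IsS τ.1 τ.2 S → ∀ j1 j2 : ℕ, j1 ≤ j2 →
    |∑ j ∈ Ico j1 j2, ((tup τ.1 τ.2 (T3 u j + Y3 u) (B j) : ℝ) -
        Y3 u * (S / τ.1 * (1 / Real.log (T3 u j) ^ τ.2.card)))| ≤
      3 * ((j2 : ℝ) - j1) * Y3 u * er a u + 4 * Y3 u * Real.sqrt (j2 * 2 ^ (u ^ 2))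

def Agree3 (u : ℕ) (A : Set ℕ) (F : Finset ℕ) : Prop :=
  ∀ t, X3 u ≤ t → t < X3 (2 * u) → (t ∈ A ↔ t ∈ F)

def HLs3 (a u : ℕ) (A : Set ℕ) : Prop :=
  ∀ τ ∈ tests3 u, ∀ S, IsS τ.1 τ.2 S → ∀ y x : ℝ, (X3 u : ℝ) ≤ y → y ≤ x → x ≤ X3 (2 * u) →
    |(cnt A τ.1 τ.2 y x : ℝ) - S / τ.1 * ∫ t in y..x, 1 / Real.log t ^ τ.2.card| ≤
      4 * (x - y) * er a u + x ^ (4 / 5 : ℝ)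

structure StageOK3 (a u r : ℕ) (F : Finset ℕ) : Prop where
  sub : F ⊆ Ico (X3 u + 3) (X3 (2 * u))
  good : Good (S3 a u) r F
  big : X3 u ≤ F.card
  hl : ∀ A : Set ℕ, Agree3 u A F → HLs3 a u A

structure GlobOK3 (a i0 : ℕ) (A : Set ℕ) : Prop where
  low : ∀ t ∈ A, X3 (2 ^ i0) ≤ t
  st : ∀ i, i0 ≤ i → ∃ F, StageOK3 a (2 ^ i) {t ∈ A | t < X3 (2 ^ i)}.ncard F ∧ Agree3 (2 ^ i) A F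

def Part1P (A : Set ℕ) (ε C : ℝ) : Prop :=
  ∀ (x y : ℝ) (q : ℕ) (H : Finset ℕ), 2 ≤ y → y ≤ x → 1 ≤ q → (q : ℝ) ≤ Real.log x ^ 2 →
    H.Nonempty → (H.card : ℝ) ≤ Real.log x ^ (1 / 13 : ℝ) → (∀ b ∈ H, (b : ℝ) ≤ Real.log x ^ 2) →
    ∃ S : ℝ, IsS q H S ∧
      |(cnt A q H y x : ℝ) - S / q * ∫ t in y..x, 1 / Real.log t ^ H.card| ≤ C * x ^ (1 - ε)

def Part2P (A : Set ℕ) (δ : ℝ) : Prop :=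
  ∀ᶠ N : ℕ in atTop, ({n : ℕ | 1 ≤ n ∧ n ≤ N ∧ ∃ k : ℕ, 1 ≤ k ∧ k ≤ n ^ 2 ∧
    Nat.nth (· ∈ A) (k * n - 1) + 2 ∈ A}.ncard : ℝ) ≤ δ * N

/-! ### Statements of the steps -/

def Mert3St : Prop :=
  (∀ a b, 0 < th a b ∧ th a b ≤ 1) ∧
  (∀ a b : ℕ, ∑ p ∈ pr a b, 1 / (p : ℝ) ≤ Real.log (1 + Real.log b) + 38) ∧
  (∀ a b, a ≤ b → th 0 b = th 0 a * th a b) ∧
  ∀ n : ℕ, Real.log n ≤ (th 0 n)⁻¹ ∧ (th 0 n)⁻¹ ≤ Real.exp 40 * (1 + Real.log n)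

def ParetoSt : Prop :=
  ∀ (Q : Finset ℕ) (m : ℕ) (η : ℝ), 0 < η → (∀ l ∈ Q, 2 * m < l) →
    ∃ (ι : Type) (I : Finset ι) (g : ι → ℝ), I.Nonempty ∧ (∀ i ∈ I, 0 ≤ g i) ∧
      ∀ k ≤ m, |mean I (fun i => g i ^ k) - ∏ l ∈ Q, 1 / (1 - (k : ℝ) / l)| ≤ η

def MomSt : Prop :=
  ∀ a : ℕ, 60 ≤ a → ∀ᶠ u : ℕ in atTop, ∃ (ι : Type) (I : Finset ι) (g : ι → ℝ), I.Nonempty ∧
    (∀ i ∈ I, 0 ≤ g i ∧ g i ≤ u) ∧ ∀ k ≤ u ^ 2,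
      |mean I (fun i => g i ^ k) * ∏ l ∈ pr (u ^ 27) (u ^ a), (1 - (k : ℝ) / l) - 1| ≤ 1 / R3 u

def SoftSt : Prop :=
  ∀ (Q : Finset ℕ) (D m w : ℕ), 1 ≤ D → 1 ≤ m → 2 * m * D ≤ w → (∀ p ∈ Q, w < p) →
    ∃ (ι : Type) (I : Finset ι) (φ : ι → ℕ → ℝ), I.Nonempty ∧
      (∀ i ∈ I, ∀ t, 0 < φ i t ∧ φ i t = φ i (t % D) ∧ φ i t ≤ ∏ p ∈ Q, (1 - 1 / (p : ℝ))⁻¹) ∧
      (∀ K : Finset ℕ, (∀ a ∈ K, ∀ b ∈ K, a < b + D) → mean I (fun i => ∏ t ∈ K, φ i t) =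
        ∏ p ∈ Q, (1 - (K.card : ℝ) / p) / (1 - 1 / (p : ℝ)) ^ K.card) ∧
      ∀ t, mean I (fun i => φ i t ^ m) ≤ Real.exp (2 * (m : ℝ) ^ 2 * D / w) ∧
        mean I (fun i => (φ i t)⁻¹ ^ m) ≤ Real.exp (2 * (m : ℝ) ^ 2 * D / w)

def KillSt : Prop :=
  ∀ᶠ u : ℕ in atTop, ∃ (ι : Type) (I : Finset ι) (φ : ι → ℕ → ℝ), I.Nonempty ∧
    (∀ i ∈ I, ∀ t, |φ i t - 1| ≤ 1 / (u : ℝ) ^ 2) ∧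
    ∀ K : Finset ℕ, K.card ≤ u → (∀ a ∈ K, ∀ b ∈ K, a ≤ b + u ^ 25) →
      |mean I (fun i => ∏ t ∈ K, φ i t) - psi u K.card| ≤ 1 / R3 u

def Base2St : Prop :=
  ∀ (c : Finset ℕ) (ρ : ℕ → ℝ) (nm : ℕ), (∀ t ∈ c, 0 ≤ ρ t) → ∑ t ∈ c, ρ t ≤ 1 / 2 →
    ∃ b, Base2 ρ nm c b

def Tilt2St : Prop :=
  ∀ (P : ℕ → Prop) (c : Finset ℕ) (ι : Type) (I : Finset ι) (g : ι → ℝ) (gm : ℝ) (ρ : ℕ → ℝ)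
    (nm : ℕ) (b : Finset ℕ → ℝ), (∀ t ∈ c, ¬ 3 ∣ t) → 1 ≤ gm → (∀ i ∈ I, 0 ≤ g i ∧ g i ≤ gm) →
    12 * gm * (nm : ℝ) ^ 2 ≤ c.card → Base2 ρ nm c b →
    (∀ n ≤ nm, ∃ β : ℝ, ∀ π ⊆ c, π.card = n → β / 4 ≤ b π ∧ b π ≤ β) →
    ∃ p : ι → ℕ → Finset ℕ → ℝ, (∀ i ∈ I, Prob P c (p i)) ∧ Rep2 P I g ρ nm c p

def Comb2St : Prop :=
  ∀ (P : ℕ → Prop) (ι : Type) (I : Finset ι) (g : ι → ℝ) (ρ : ℕ → ℝ) (η : ℝ) (nm κ Δ D L r : ℕ)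
    (p : ι → Finset ℕ → ℕ → Finset ℕ → ℝ) (cs : List (Finset ℕ)) (K : Finset ℕ),
    (∀ J : Finset ℕ, J.card ≤ κ → (∀ i ∈ J, ∀ j ∈ J, i ≤ j + Δ) →
      |mean I (fun i => Av L r (G P (g i) J)) - 1| ≤ η) →
    Srt cs → (∀ c ∈ cs, c.Nonempty ∧ (∀ i ∈ I, Prob P c (p i c)) ∧
      Rep2 P I g ρ nm c (fun i => p i c)) →
    K ⊆ un cs → K.card ≤ nm → (∀ a ∈ K, ∀ b ∈ K, a ≤ b + D) → nm * K.card ≤ κ →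
    nm * (D + 1) ≤ Δ →
    |mean I (fun i => Av L r (fun s => Ex (p i) cs s (fun B => if K ⊆ B then 1 else 0))) -
      ∏ t ∈ K, ρ t| ≤ 3 ^ K.card * η

def Avg3St : Prop :=
  ∀ a : ℕ, 60 ≤ a → ∀ᶠ u : ℕ in atTop, ∃ (ι : Type) (I : Finset ι) (g : ι → ℝ), I.Nonempty ∧
    (∀ i ∈ I, 0 ≤ g i ∧ g i ≤ u) ∧ ∀ (r : ℕ) (J : Finset ℕ), J.card ≤ u ^ 2 →
      (∀ i ∈ J, ∀ j ∈ J, i ≤ j + u ^ 27) →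
      |mean I (fun i => Av (R3 u) r (G (S3 a u) (g i) J)) - 1| ≤ er a u / (4 * 3 ^ u)

def Many3St : Prop :=
  ∀ᶠ u : ℕ in atTop, ∀ T : ℕ,
    u ^ 5 ≤ ((Ico (T + 3 * R3 u + 3) (T + Y3 u)).filter (Free 0 (u ^ 60))).card

def BlockKSt : Prop :=
  ∀ a : ℕ, 60 ≤ a → ∀ᶠ u : ℕ in atTop, ∀ (T r : ℕ) (ρ : ℝ) (ι : Type) (I : Finset ι)
    (K : ι → Finset ℕ) (d : ι → ℝ), 0 ≤ ρ → ρ ≤ 1 / (u : ℝ) ^ 11 →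
    ∃ (B : Finset ℕ) (ν : Finset ℕ → ℝ), B ⊆ Ico (T + 3) (T + Y3 u) ∧ B.Nonempty ∧
      Good (S3 a u) r B ∧ ∑ i ∈ I, d i * (one B (K i) - ν (K i)) ≤ 0 ∧
      (∀ L, 0 ≤ ν L ∧ ν L ≤ 1) ∧
      ∀ L ⊆ Ico (T + 3 * R3 u + 3) (T + Y3 u), L.card ≤ u → (∀ s ∈ L, ∀ t ∈ L, s ≤ t + u ^ 25) →
        |ν L - if ∀ t ∈ L, Free 0 (u ^ 60) t then ρ ^ L.card * psi u L.card else 0| ≤ er a u / 2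

def Block3St : Prop :=
  ∀ a : ℕ, 60 ≤ a → ∀ᶠ u : ℕ in atTop, ∀ (T r : ℕ) (ρ : ℝ) (d : ℕ × Finset ℕ → ℝ), 0 ≤ ρ →
    ρ ≤ 1 / (u : ℝ) ^ 11 →
    ∃ (B : Finset ℕ) (μ : ℕ × Finset ℕ → ℝ), B ⊆ Ico (T + 3) (T + Y3 u) ∧ B.Nonempty ∧
      Good (S3 a u) r B ∧ ∑ τ ∈ tests3 u, d τ * ((tup τ.1 τ.2 (T + Y3 u) B : ℝ) - μ τ) ≤ 0 ∧
      ∀ τ ∈ tests3 u, (0 ≤ μ τ ∧ μ τ ≤ Y3 u) ∧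
        |μ τ - ρ ^ τ.2.card * psi u τ.2.card * tup τ.1 τ.2 (T + Y3 u) (EB3 u T)| ≤ Y3 u * er a u

def Ecount3St : Prop :=
  ∀ᶠ u : ℕ in atTop, ∀ T : ℕ, ∀ τ ∈ tests3 u,
    |(tup τ.1 τ.2 (T + Y3 u) (EB3 u T) : ℝ) -
      Y3 u / τ.1 * ∏ p ∈ pr 0 (u ^ 60), (1 - (nu τ.1 τ.2 p : ℝ) / p)| ≤ Y3 u * er 60 u

def Sing3St : Prop :=
  ∀ u : ℕ, (∀ k ≤ u, 0 ≤ psi u k ∧ psi u k ≤ 1) ∧ ∀ τ ∈ tests3 u, (∃ S, IsS τ.1 τ.2 S) ∧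
    ∀ S, IsS τ.1 τ.2 S → 0 ≤ S ∧ S * th 0 (u ^ 60) ^ τ.2.card ≤ 1 ∧
      |S * th 0 (u ^ 60) ^ τ.2.card -
        (∏ p ∈ pr 0 (u ^ 60), (1 - (nu τ.1 τ.2 p : ℝ) / p)) * psi u τ.2.card| ≤
        (u : ℝ) ^ 2 / Y3 u

def Term3St : Prop :=
  ∀ᶠ u : ℕ in atTop, ∀ T : ℕ, X3 u ≤ T →
    0 ≤ 1 / (th 0 (u ^ 60) * Real.log T) ∧
    1 / (th 0 (u ^ 60) * Real.log T) ≤ 1 / (u : ℝ) ^ 11 ∧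
    ∀ τ ∈ tests3 u, ∀ S, IsS τ.1 τ.2 S → 0 ≤ S ∧ S ≤ Real.log (X3 u) ^ τ.2.card ∧
      |(1 / (th 0 (u ^ 60) * Real.log T)) ^ τ.2.card * psi u τ.2.card *
          tup τ.1 τ.2 (T + Y3 u) (EB3 u T) -
        Y3 u * (S / τ.1 * (1 / Real.log T ^ τ.2.card))| ≤ 2 * Y3 u * er 60 u

def Seq3St : Prop := ∀ a : ℕ, 60 ≤ a → ∀ᶠ u : ℕ in atTop, ∀ r : ℕ, ∃ B, SeqOK3 a u r B

def Union3St : Prop :=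
  ∀ (a u r : ℕ) (B : ℕ → Finset ℕ), 1 ≤ u → SeqOK3 a u r B →
    T3 u (nb3 u) = X3 (2 * u) ∧ (range (nb3 u)).biUnion B ⊆ Ico (X3 u + 3) (X3 (2 * u)) ∧
    Good (S3 a u) r ((range (nb3 u)).biUnion B) ∧ X3 u ≤ ((range (nb3 u)).biUnion B).card

def Inter3St : Prop :=
  ∀ a : ℕ, 60 ≤ a → ∀ᶠ u : ℕ in atTop, ∀ (r : ℕ) (B : ℕ → Finset ℕ) (A : Set ℕ), SeqOK3 a u r B →
    T3 u (nb3 u) = X3 (2 * u) → Agree3 u A ((range (nb3 u)).biUnion B) → HLs3 a u A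

def Stage3St : Prop := ∀ a : ℕ, 60 ≤ a → ∀ᶠ u : ℕ in atTop, ∀ r : ℕ, ∃ F, StageOK3 a u r F

def Glob3St : Prop := ∀ a : ℕ, 60 ≤ a → ∃ i0 A, GlobOK3 a i0 A

def Hl3St : Prop :=
  ∀ a : ℕ, 60 ≤ a → ∀ i0 A, GlobOK3 a i0 A → ∃ C, Part1P A (1 / (a * 4 ^ 13)) C

def Free3St : Prop :=
  ∀ a : ℕ, 60 ≤ a → ∀ᶠ u : ℕ in atTop, ∀ N : ℕ,
    (((Icc 1 N).filter (fun n => Free (u ^ 27) (u ^ a) n)).card : ℝ) ≤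
      Real.exp 44 / a * N + 2 ^ (u ^ 2)

def Rank3St : Prop :=
  ∀ a i0 A, GlobOK3 a i0 A → A.Infinite ∧ ∀ m : ℕ, 1 ≤ m → Nat.nth (· ∈ A) (m - 1) + 2 ∈ A →
    ∃ i, i0 ≤ i ∧ S3 a (2 ^ i) m ∧ m ≤ X3 (2 ^ (i + 1)) ∧ (i = i0 ∨ X3 (2 ^ (i - 1)) ≤ m)

def Exc3St : Prop := ∀ a : ℕ, 60 ≤ a → ∀ i0 A, GlobOK3 a i0 A → Part2P A (5 * Real.exp 44 / a)

end

end Pool.Agent.Lib.MP_be93de_nt.Hd
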