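import Pool.Agent.Lib.MP_be93de_nt.Hd.Defs

/-! Count of sieved tuples in one block, with a power saving. -/

namespace Pool.Agent.Lib.MP_be93de_nt.Hd

open Finset Filter Pool.Agent.Lib.MP_be93de_nt.Hb

namespace Ecount3x

theorem nu_le_p (q : ℕ) (H : Finset ℕ) (p : ℕ) : nu q H p ≤ p :=
  (card_filter_le _ _).trans_eq (card_range p)

theorem nu_le_card (q : ℕ) (H : Finset ℕ) (p : ℕ) (hp : p.Prime) (hq : ¬ p ∣ q) :
    nu q H p ≤ H.card := by
  classical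
  unfold nu
  have hsub : (range p).filter (fun m => ∃ b ∈ H, p ∣ q * m + b) ⊆
      H.biUnion (fun b => (range p).filter (fun m => p ∣ q * m + b)) := by
    intro m hm
    simp only [mem_filter, mem_biUnion] at hm ⊢
    obtain ⟨h1, b, hb, h2⟩ := hm
    exact ⟨b, hb, h1, h2⟩
  refine (card_le_card hsub).trans (card_biUnion_le.trans ?_)
  have : ∀ b ∈ H, ((range p).filter (fun m => p ∣ q * m + b)).card ≤ 1 := by
    intro b _
    refine card_le_one.2 fun m hm m' hm' => ?_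
    simp only [mem_filter, mem_range] at hm hm'
    have h1 : q * m + b ≡ q * m' + b [MOD p] :=
      ((Nat.modEq_zero_iff_dvd).2 hm.2).trans ((Nat.modEq_zero_iff_dvd).2 hm'.2).symm
    have h2 : q * m ≡ q * m' [MOD p] := Nat.ModEq.add_right_cancel' b h1
    have h3 : m ≡ m' [MOD p] :=
      Nat.ModEq.cancel_left_of_coprime ((Nat.Prime.coprime_iff_not_dvd hp).2 hq) h2
    exact Nat.ModEq.eq_of_lt_of_lt h3 hm.1 hm'.1
  exact (sum_le_sum this).trans (by simp)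

theorem divs_le (q s : ℕ) (hq : 1 ≤ q) (hs : q ≤ 2 ^ s) (Q : Finset ℕ) (hQ : ∀ p ∈ Q, p.Prime) :
    (Q.filter (· ∣ q)).card ≤ s := by
  have h1 : ∏ p ∈ Q.filter (· ∣ q), p ∣ q :=
    Finset.prod_primes_dvd q (fun p hp => (hQ p (mem_filter.1 hp).1).prime)
      (fun p hp => (mem_filter.1 hp).2)
  have h2 : 2 ^ (Q.filter (· ∣ q)).card ≤ ∏ p ∈ Q.filter (· ∣ q), p :=
    Finset.pow_card_le_prod _ _ _ (fun p hp => (hQ p (mem_filter.1 hp).1).two_le)
  have h3 := (h2.trans (Nat.le_of_dvd hq h1)).trans hs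
  exact (Nat.pow_le_pow_iff_right (by norm_num)).1 h3

theorem sum_nu (q s : ℕ) (H : Finset ℕ) (hq : 1 ≤ q) (hs : q ≤ 2 ^ s) (hH : H.card ≤ s)
    (Q : Finset ℕ) (hQ : ∀ p ∈ Q, p.Prime) :
    ∑ p ∈ Q, (nu q H p : ℝ) / p ≤ s * ∑ p ∈ Q, 1 / (p : ℝ) + s := by
  have h1 : ∀ p ∈ Q, (nu q H p : ℝ) / p ≤ s * (1 / (p : ℝ)) + if p ∣ q then 1 else 0 := by
    intro p hp
    have hp0 : (0 : ℝ) < p := by exact_mod_cast (hQ p hp).pos
    split_ifs with h
    · have : (nu q H p : ℝ) / p ≤ 1 := (div_le_one hp0).2 (by exact_mod_cast nu_le_p q H p)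
      have : (0 : ℝ) ≤ s * (1 / (p : ℝ)) := by positivity
      linarith
    · have : (nu q H p : ℝ) ≤ s := by exact_mod_cast (nu_le_card q H p (hQ p hp) h).trans hH
      rw [add_zero, mul_one_div]
      gcongr
  refine (sum_le_sum h1).trans ?_
  rw [sum_add_distrib, ← mul_sum, sum_boole]
  have : ((Q.filter (· ∣ q)).card : ℝ) ≤ s := by exact_mod_cast divs_le q s hq hs Q hQ
  linarith

theorem tail_le (t : ℕ) {L A : ℝ} (h0 : 0 ≤ L) (hA : 0 < A) (hL : 3 * (L * A) ≤ (t : ℝ)) :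
    L ^ t / t.factorial ≤ 1 / A ^ t := by
  have hs0 : (0 : ℝ) ≤ t := Nat.cast_nonneg t
  have hf : (0 : ℝ) < t.factorial := by exact_mod_cast t.factorial_pos
  have h1 := Real.pow_div_factorial_le_exp (t : ℝ) hs0 t
  have h2 : Real.exp t ≤ 3 ^ t := by
    rw [← Real.exp_one_pow]
    exact pow_le_pow_left₀ (Real.exp_pos 1).le (Real.exp_one_lt_d9.le.trans (by norm_num)) t
  have h3 : (3 * (L * A)) ^ t ≤ (t : ℝ) ^ t := pow_le_pow_left₀ (by positivity) hL t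
  have h4 : (t : ℝ) ^ t ≤ 3 ^ t * t.factorial := (div_le_iff₀ hf).1 (h1.trans h2)
  rw [mul_pow, mul_pow] at h3
  have h7 : L ^ t * A ^ t ≤ t.factorial :=
    le_of_mul_le_mul_left (h3.trans h4) (by positivity)
  rw [div_le_div_iff₀ hf (by positivity)]
  linarith

theorem er_ge (u : ℕ) : 1 / (2 : ℝ) ^ (u ^ 12 / 41 + 1) ≤ er 60 u := by
  unfold er
  rw [Real.exp_neg, one_div]
  refine inv_anti₀ (Real.exp_pos _) ?_
  have h1 : u ^ 12 ≤ 41 * (u ^ 12 / 41 + 1) := by omega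
  have h2 : (u : ℝ) ^ 12 ≤ 41 * ((u ^ 12 / 41 + 1 : ℕ) : ℝ) := by exact_mod_cast h1
  have h3 := Real.log_two_gt_d9
  have h4 : (0 : ℝ) ≤ ((u ^ 12 / 41 + 1 : ℕ) : ℝ) := Nat.cast_nonneg _
  calc Real.exp ((u : ℝ) ^ 12 / ((60 : ℕ) : ℝ))
      ≤ Real.exp (((u ^ 12 / 41 + 1 : ℕ) : ℝ) * Real.log 2) := by
        refine Real.exp_le_exp.2 ?_
        rw [div_le_iff₀ (by norm_num)]
        generalize ((u ^ 12 / 41 + 1 : ℕ) : ℝ) = k at h2 h4 ⊢
        push_cast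
        nlinarith
    _ = 2 ^ (u ^ 12 / 41 + 1) := by
        rw [Real.exp_nat_mul, Real.exp_log (by norm_num)]

theorem par (u : ℕ) (hu : 10000 ≤ u) : ∃ n t : ℕ, 2 ^ n ≤ u ∧ u ^ 10 ≤ t ∧
    u ^ 12 / 41 + 1 + 2 ≤ 7 * n * t ∧
    (u ^ 25 + 3 + (1 + u ^ 60 * u ^ 60) ^ t) * 2 ^ (u ^ 12 / 41 + 1 + 1) ≤ Y3 u := by
  obtain ⟨n, h1, h2⟩ : ∃ n, 2 ^ n ≤ u ∧ u < 2 ^ (n + 1) :=
    ⟨Nat.log 2 u, Nat.pow_log_le_self 2 (by omega), Nat.lt_pow_succ_log_self (by norm_num) u⟩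
  have h3 : n < u := (Nat.lt_two_pow_self).trans_le h1
  have h4 : 1 ≤ n := by
    rcases n with _ | n
    · omega
    · omega
  have p2 : 10000 * u ≤ u ^ 2 := by nlinarith
  have p10 : u ^ 2 ≤ u ^ 10 := Nat.pow_le_pow_right (by omega) (by norm_num)
  have p12 : u ^ 10 ≤ u ^ 12 := Nat.pow_le_pow_right (by omega) (by norm_num)
  have hm : 0 < 120 * (n + 1) := by omega
  have t1 : u ^ 10 ≤ u ^ 12 / (120 * (n + 1)) := by
    rw [Nat.le_div_iff_mul_le hm, show u ^ 12 = u ^ 10 * u ^ 2 by ring]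
    exact Nat.mul_le_mul_left _ (by omega)
  have t2 := Nat.div_add_mod (u ^ 12) (120 * (n + 1))
  have t3 := Nat.mod_lt (u ^ 12) hm
  refine ⟨n, u ^ 12 / (120 * (n + 1)), h1, t1, ?_, ?_⟩
  · generalize u ^ 12 / (120 * (n + 1)) = t at t1 t2 ⊢
    have z1 : t ≤ n * t := Nat.le_mul_of_pos_left t h4
    have z2 : 120 * (n + 1) * t = 120 * (n * t) + 120 * t := by ring
    rw [mul_assoc]
    omega
  · have d1 : (1 + u ^ 60 * u ^ 60) ^ (u ^ 12 / (120 * (n + 1))) ≤ 2 ^ (u ^ 12) := by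
      have e1 : u ^ 120 < (2 ^ (n + 1)) ^ 120 := Nat.pow_lt_pow_left h2 (by norm_num)
      have e2 : 1 + u ^ 60 * u ^ 60 ≤ 2 ^ (120 * (n + 1)) := by
        rw [← pow_add, mul_comm 120, pow_mul, add_comm]
        exact e1
      refine (Nat.pow_le_pow_left e2 _).trans ?_
      rw [← pow_mul]
      exact Nat.pow_le_pow_right (by norm_num) (by omega)
    have d2 : u ^ 25 + 3 ≤ 2 ^ (u ^ 12) := by
      have e1 : u ^ 25 ≤ (2 ^ (n + 1)) ^ 25 := Nat.pow_le_pow_left h2.le _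
      rw [← pow_mul] at e1
      have e2 : 2 ^ ((n + 1) * 25 + 2) ≤ 2 ^ (u ^ 12) :=
        Nat.pow_le_pow_right (by norm_num) (by omega)
      have e3 : 1 ≤ 2 ^ ((n + 1) * 25) := Nat.one_le_two_pow
      rw [pow_add] at e2
      omega
    calc _ ≤ 2 ^ (u ^ 12 + 1) * 2 ^ (u ^ 12 / 41 + 1 + 1) := by
          refine Nat.mul_le_mul_right _ ?_
          rw [pow_succ 2 (u ^ 12)]
          omega
      _ = 2 ^ (u ^ 12 + 1 + (u ^ 12 / 41 + 1 + 1)) := by rw [← pow_add]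
      _ ≤ Y3 u := Nat.pow_le_pow_right (by norm_num) (by omega)

theorem cmp (q T Yy W : ℕ) (H : Finset ℕ) (hq : 1 ≤ q) (hne : H.Nonempty) (hW : ∀ b ∈ H, b ≤ W)
    (P : ℕ → Prop) [DecidablePred P] (P' : ℕ → Prop) [DecidablePred P']
    (hP : ∀ m, P' m ↔ ∀ b ∈ H, P (q * m + b)) :
    |(tup q H (T + Yy) ((Ico T (T + Yy)).filter P) : ℝ) -
      ((Ico (T / q + 1) (T / q + 1 + Yy / q)).filter P').card| ≤ W + 2 := by
  obtain ⟨b0, hb0⟩ := hne
  have a1 := Nat.div_add_mod T q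
  have a2 := Nat.mod_lt T hq
  have a3 := Nat.div_add_mod Yy q
  have a4 := Nat.mod_lt Yy hq
  set a := T / q with ha
  set L := Yy / q with hL
  have s1 : (range (T + Yy)).filter (fun m => ∀ b ∈ H, q * m + b ∈ (Ico T (T + Yy)).filter P) ⊆
      (Ico (a + 1) (a + 1 + L)).filter P' ∪ (Ico (a + 1 - (W + 1)) (a + 1) ∪ {a + 1 + L}) := by
    intro m hm
    simp only [mem_filter, mem_range, mem_Ico, mem_union, mem_singleton] at hm ⊢
    have c0 := (hm.2 b0 hb0).1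
    have c1 := hW b0 hb0
    have c2 : m < a + 1 + L + 1 := by
      by_contra hc
      have : q * (a + 1 + L + 1) ≤ q * m := Nat.mul_le_mul_left q (by omega)
      nlinarith
    have c3 : a ≤ m + W := by
      by_contra hc
      have f1 : q * (m + W + 1) ≤ q * a := Nat.mul_le_mul_left q (by omega)
      have f2 : W ≤ q * W := Nat.le_mul_of_pos_left W hq
      rw [mul_add, mul_add, mul_one] at f1
      omega
    by_cases d1 : m < a + 1
    · exact Or.inr (Or.inl ⟨by omega, d1⟩)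
    · by_cases d2 : m = a + 1 + L
      · exact Or.inr (Or.inr d2)
      · exact Or.inl ⟨⟨by omega, by omega⟩, (hP m).2 fun b hb => (hm.2 b hb).2⟩
  have s2 : (Ico (a + 1) (a + 1 + L)).filter P' ⊆
      (range (T + Yy)).filter (fun m => ∀ b ∈ H, q * m + b ∈ (Ico T (T + Yy)).filter P) ∪
        Ico (a + 1 + L - (W + 1)) (a + 1 + L) := by
    intro m hm
    simp only [mem_filter, mem_range, mem_Ico, mem_union] at hm ⊢
    by_cases d1 : m + W < a + L
    · have e1 : q * (m + W + 1) ≤ q * (a + L) := Nat.mul_le_mul_left q (by omega)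
      have e2 : q * (a + 1) ≤ q * m := Nat.mul_le_mul_left q hm.1.1
      have e3 : q * m + W < T + Yy := by
        have f2 : W ≤ q * W := Nat.le_mul_of_pos_left W hq
        rw [mul_add, mul_add, mul_add, mul_one] at e1
        omega
      have e4 : m ≤ q * m := Nat.le_mul_of_pos_left m hq
      refine Or.inl ⟨by omega, fun b hb => ⟨⟨by nlinarith, ?_⟩, (hP m).1 hm.2 b hb⟩⟩
      have := hW b hb
      omega
    · exact Or.inr ⟨by omega, hm.1.2⟩
  have k1 := (card_le_card s1).trans ((card_union_le _ _).trans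
    (Nat.add_le_add_left (card_union_le _ _) _))
  have k2 := (card_le_card s2).trans (card_union_le _ _)
  rw [Nat.card_Ico, card_singleton] at k1
  rw [Nat.card_Ico] at k2
  unfold tup
  set A := ((range (T + Yy)).filter
    (fun m => ∀ b ∈ H, q * m + b ∈ (Ico T (T + Yy)).filter P)).card
  set B := ((Ico (a + 1) (a + 1 + L)).filter P').card
  have k3 : (A : ℝ) ≤ B + (W + 2) := by exact_mod_cast (by omega : A ≤ B + (W + 2))
  have k4 : (B : ℝ) ≤ A + (W + 2) := by exact_mod_cast (by omega : B ≤ A + (W + 2))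
  rw [abs_le]
  constructor <;> linarith

theorem core (h2 : BonfSt) (q T Yy W w t : ℕ) (H : Finset ℕ) (hq : 1 ≤ q) (hne : H.Nonempty)
    (hW : ∀ b ∈ H, b ≤ W) :
    |(tup q H (T + Yy) ((Ico T (T + Yy)).filter (Free 0 w)) : ℝ) -
      Yy / q * ∏ p ∈ pr 0 w, (1 - (nu q H p : ℝ) / p)| ≤
      2 * (Yy * ((∑ p ∈ pr 0 w, (nu q H p : ℝ) / p) ^ t / t.factorial)) +
        (W + 3 + (1 + ∑ p ∈ pr 0 w, (nu q H p : ℝ)) ^ t) := by
  have hQ : ∀ p ∈ pr 0 w, p.Prime := fun p hp => (mem_filter.1 hp).2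
  have hB := h2 (pr 0 w) (fun p => (range p).filter (fun m => ∃ b ∈ H, p ∣ q * m + b))
    (T / q + 1) (Yy / q) t hQ (fun p _ => filter_subset _ _)
  have hC := cmp q T Yy W H hq hne hW (Free 0 w)
    (fun m => ∀ p ∈ pr 0 w, m % p ∉ (range p).filter (fun m => ∃ b ∈ H, p ∣ q * m + b))
    (by
      intro m
      have key : ∀ p b, p ∣ q * (m % p) + b ↔ p ∣ q * m + b := by
        intro p b
        have : q * (m % p) + b ≡ q * m + b [MOD p] :=
          ((Nat.mod_modEq m p).mul_left q).add_right b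
        exact this.dvd_iff dvd_rfl
      constructor
      · intro h b hb p hp hd
        exact h p hp (mem_filter.2 ⟨mem_range.2 (Nat.mod_lt _ (hQ p hp).pos), b, hb,
          (key p b).2 hd⟩)
      · intro h p hp hm
        obtain ⟨b, hb, hd⟩ := (mem_filter.1 hm).2
        exact h b hb p hp ((key p b).1 hd))
  change |_ - ((Yy / q : ℕ) : ℝ) * ∏ p ∈ pr 0 w, (1 - (nu q H p : ℝ) / p)| ≤
    2 * ((Yy / q : ℕ) : ℝ) * (∑ p ∈ pr 0 w, (nu q H p : ℝ) / p) ^ t /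
      t.factorial + (1 + ∑ p ∈ pr 0 w, (nu q H p : ℝ)) ^ t at hB
  have hq0 : (0 : ℝ) < q := by exact_mod_cast hq
  have hf : ∀ p ∈ pr 0 w, 0 ≤ 1 - (nu q H p : ℝ) / p ∧ 1 - (nu q H p : ℝ) / p ≤ 1 := by
    intro p hp
    have hp0 : (0 : ℝ) < p := by exact_mod_cast (hQ p hp).pos
    have : (nu q H p : ℝ) / p ≤ 1 := (div_le_one hp0).2 (by exact_mod_cast nu_le_p q H p)
    have : 0 ≤ (nu q H p : ℝ) / p := by positivity
    constructor <;> linarith
  have P0 := prod_nonneg (fun p hp => (hf p hp).1)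
  have P1 := prod_le_one (fun p hp => (hf p hp).1) (fun p hp => (hf p hp).2)
  set P := ∏ p ∈ pr 0 w, (1 - (nu q H p : ℝ) / p)
  have L1 : ((Yy / q : ℕ) : ℝ) ≤ (Yy : ℝ) / q := Nat.cast_div_le
  have L2 : (Yy : ℝ) / q ≤ ((Yy / q : ℕ) : ℝ) + 1 := by
    rw [div_le_iff₀ hq0]
    have a3 := Nat.div_add_mod Yy q
    have a4 := Nat.mod_lt Yy hq
    have : Yy ≤ (Yy / q + 1) * q := by nlinarith
    exact_mod_cast this
  have L3 : ((Yy / q : ℕ) : ℝ) ≤ Yy := by exact_mod_cast Nat.div_le_self _ _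
  have S0 : 0 ≤ (∑ p ∈ pr 0 w, (nu q H p : ℝ) / p) ^ t / t.factorial :=
    div_nonneg (pow_nonneg (sum_nonneg fun p _ => by positivity) t) (Nat.cast_nonneg _)
  have g1 := mul_le_mul_of_nonneg_right L3 S0
  rw [mul_div_assoc, mul_assoc] at hB
  have u1 := mul_le_mul_of_nonneg_right L1 P0
  have u2 := mul_le_mul_of_nonneg_right L2 P0
  rw [abs_le] at hB hC ⊢
  constructor <;> linarith [hB.1, hB.2, hC.1, hC.2, add_mul ((Yy / q : ℕ) : ℝ) 1 P]

end Ecount3x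

theorem ecount3_st (h1 : Mert3St) (h2 : BonfSt) : Ecount3St := by
  filter_upwards [eventually_ge_atTop 10000] with u hs T τ hτ
  obtain ⟨q, H⟩ := τ
  simp only [tests3, mem_product, mem_Icc, mem_filter, mem_powerset] at hτ
  obtain ⟨⟨hq, hq2⟩, hH, hk1, hk⟩ := hτ
  obtain ⟨n, t, n1, t1, t2, big0⟩ := Ecount3x.par u hs
  have hQ : ∀ p ∈ pr 0 (u ^ 60), p.Prime := fun p hp => (mem_filter.1 hp).2
  refine (Ecount3x.core h2 q T (Y3 u) (u ^ 25) (u ^ 60) t H hq (card_pos.1 hk1)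
    (fun b hb => by have := mem_range.1 (hH hb); omega)).trans ?_
  refine le_trans ?_ (mul_le_mul_of_nonneg_left (Ecount3x.er_ge u) (Nat.cast_nonneg _))
  rw [mul_one_div]
  generalize u ^ 12 / 41 + 1 = k at t2 big0 ⊢
  have hs0 : (10000 : ℝ) ≤ u := by exact_mod_cast hs
  have lam : 3 * ∑ p ∈ pr 0 (u ^ 60), (nu q H p : ℝ) / p ≤ (u : ℝ) ^ 3 := by
    have hq3 : q ≤ 2 ^ (25 * u) := by
      refine hq2.trans ?_
      rw [mul_comm, pow_mul]
      exact Nat.pow_le_pow_left Nat.lt_two_pow_self.le _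
    have b1 := Ecount3x.sum_nu q (25 * u) H hq hq3 (by omega) _ hQ
    have b2 := h1.2.1 0 (u ^ 60)
    have l0 : 0 ≤ Real.log u := Real.log_nonneg (by linarith)
    have l1 := Real.log_le_sub_one_of_pos (show (0 : ℝ) < u by linarith)
    have e : Real.log ((u ^ 60 : ℕ) : ℝ) = 60 * Real.log u := by
      push_cast
      rw [Real.log_pow]
      norm_num
    rw [e] at b2
    have l2 := Real.log_le_sub_one_of_pos (show (0 : ℝ) < 1 + 60 * Real.log u by linarith)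
    have b4 : 25 * (u : ℝ) * ∑ p ∈ pr 0 (u ^ 60), 1 / (p : ℝ) ≤ 25 * u * (60 * u - 1) :=
      mul_le_mul_of_nonneg_left (by linarith) (by linarith)
    have b5 : (u : ℝ) * u * 4500 ≤ u * u * u :=
      mul_le_mul_of_nonneg_left (by linarith) (by positivity)
    push_cast at b1
    nlinarith
  have S0 : 0 ≤ ∑ p ∈ pr 0 (u ^ 60), (nu q H p : ℝ) / p := sum_nonneg fun p _ => by positivity
  have tl := Ecount3x.tail_le t (A := (2 : ℝ) ^ (7 * n)) S0 (by positivity) (by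
    have a1 : (2 : ℝ) ^ n ≤ u := by exact_mod_cast n1
    have a2 : (2 : ℝ) ^ (7 * n) ≤ (u : ℝ) ^ 7 := by
      rw [mul_comm, pow_mul]
      exact pow_le_pow_left₀ (by positivity) a1 7
    have a3 : (u : ℝ) ^ 10 ≤ t := by exact_mod_cast t1
    have a4 := mul_le_mul lam a2 (by positivity) (by positivity)
    calc _ = 3 * (∑ p ∈ pr 0 (u ^ 60), (nu q H p : ℝ) / p) * 2 ^ (7 * n) := by ring
      _ ≤ (u : ℝ) ^ 3 * (u : ℝ) ^ 7 := a4
      _ = (u : ℝ) ^ 10 := by ring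
      _ ≤ t := a3)
  have tl2 : (1 : ℝ) / (2 ^ (7 * n)) ^ t ≤ 1 / 2 ^ (k + 2) := by
    rw [← pow_mul]
    exact one_div_le_one_div_of_le (by positivity) (pow_le_pow_right₀ (by norm_num) t2)
  have sn : ∑ p ∈ pr 0 (u ^ 60), nu q H p ≤ u ^ 60 * u ^ 60 := by
    have c1 : ∑ p ∈ pr 0 (u ^ 60), nu q H p ≤ (pr 0 (u ^ 60)).card • u ^ 60 :=
      sum_le_card_nsmul _ _ _ fun p hp =>
        (Ecount3x.nu_le_p q H p).trans (mem_Ioc.1 (mem_filter.1 hp).1).2
    have c2 : (pr 0 (u ^ 60)).card ≤ u ^ 60 :=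
      (card_filter_le _ _).trans_eq (by simp)
    rw [smul_eq_mul] at c1
    exact c1.trans (Nat.mul_le_mul_right _ c2)
  have big : (u ^ 25 + 3 + (1 + ∑ p ∈ pr 0 (u ^ 60), nu q H p) ^ t) * 2 ^ (k + 1) ≤ Y3 u :=
    le_trans (Nat.mul_le_mul_right _ (Nat.add_le_add_left
      (Nat.pow_le_pow_left (Nat.add_le_add_left sn 1) t) _)) big0
  have big' : (u : ℝ) ^ 25 + 3 + (1 + ∑ p ∈ pr 0 (u ^ 60), (nu q H p : ℝ)) ^ t ≤
      Y3 u / 2 ^ k / 2 := by
    rw [div_div, ← pow_succ, le_div_iff₀ (by positivity)]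
    exact_mod_cast big
  have g1 := mul_le_mul_of_nonneg_left (tl.trans tl2) (Nat.cast_nonneg (Y3 u))
  have g2 : (Y3 u : ℝ) * (1 / 2 ^ (k + 2)) = Y3 u / 2 ^ k / 4 := by
    rw [pow_add]; field_simp; norm_num
  rw [Nat.cast_pow]
  linarith

end Pool.Agent.Lib.MP_be93de_nt.Hd
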