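import Pool.Agent.Lib.MP_be93de_nt.Hd.Defs

/-! Gluing the levels. -/

namespace Pool.Agent.Lib.MP_be93de_nt.Hd

open Finset Filter Pool.Agent.Lib.MP_be93de_nt.Hb

namespace Glob3x

theorem X_mono {a b : ℕ} (h : a ≤ b) : X3 a ≤ X3 b :=
  Nat.pow_le_pow_right (by norm_num) (Nat.mul_le_mul_left 4 (Nat.pow_le_pow_left h 12))

theorem XX_mono (i0 : ℕ) {j k : ℕ} (h : j ≤ k) : X3 (2 ^ (i0 + j)) ≤ X3 (2 ^ (i0 + k)) :=
  X_mono (Nat.pow_le_pow_right (by norm_num) (by omega))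

/-- the part built in the first `j` levels -/
def U (f : ℕ → Finset ℕ → Finset ℕ) : ℕ → Finset ℕ
  | 0 => ∅
  | j + 1 => U f j ∪ f j (U f j)

theorem U_mono (f : ℕ → Finset ℕ → Finset ℕ) {j k : ℕ} (h : j ≤ k) : U f j ⊆ U f k := by
  induction k, h using Nat.le_induction with
  | base => exact Subset.refl _
  | succ k _ ih => exact ih.trans subset_union_left

variable {c i0 : ℕ} {f : ℕ → Finset ℕ → Finset ℕ}

theorem f_mem (hf : ∀ j P, StageOK3 c (2 ^ (i0 + j)) (card P) (f j P)) {j a : ℕ} {P : Finset ℕ}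
    (ha : a ∈ f j P) : X3 (2 ^ (i0 + j)) ≤ a ∧ a < X3 (2 ^ (i0 + (j + 1))) := by
  have h := mem_Ico.1 ((hf j P).sub ha)
  have e : 2 ^ (i0 + (j + 1)) = 2 * 2 ^ (i0 + j) := by ring
  rw [e]
  exact ⟨by omega, h.2⟩

theorem U_mem (hf : ∀ j P, StageOK3 c (2 ^ (i0 + j)) (card P) (f j P)) (j : ℕ) :
    ∀ a ∈ U f j, X3 (2 ^ (i0 + 0)) ≤ a ∧ a < X3 (2 ^ (i0 + j)) := by
  induction j with
  | zero => intro a ha; simp [U] at ha
  | succ j ih =>
    intro a ha
    rcases mem_union.1 ha with h | h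
    · exact ⟨(ih a h).1, (ih a h).2.trans_le (XX_mono i0 (Nat.le_succ j))⟩
    · exact ⟨(XX_mono i0 (Nat.zero_le j)).trans (f_mem hf h).1, (f_mem hf h).2⟩

theorem U_back (hf : ∀ j P, StageOK3 c (2 ^ (i0 + j)) (card P) (f j P)) (j k : ℕ) :
    ∀ a ∈ U f k, a < X3 (2 ^ (i0 + j)) → a ∈ U f j := by
  induction k with
  | zero => intro a ha; simp [U] at ha
  | succ k ih =>
    intro a ha hlt
    rcases le_or_gt (k + 1) j with h | h
    · exact U_mono f h ha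
    · rcases mem_union.1 ha with h1 | h1
      · exact ih a h1 hlt
      · have h2 := (f_mem hf h1).1
        have h3 := XX_mono i0 (show j ≤ k by omega)
        omega

end Glob3x

open Glob3x in
theorem glob3_st (h : Stage3St) : Glob3St := by
  intro c hc
  obtain ⟨i0, h0⟩ := eventually_atTop.1 (h c hc)
  have h1 : ∀ (j : ℕ) (P : Finset ℕ), ∃ F, StageOK3 c (2 ^ (i0 + j)) P.card F := fun j P =>
    h0 _ ((Nat.le_add_right i0 j).trans Nat.lt_two_pow_self.le) P.card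
  choose f hf using h1
  have ag : ∀ j, Agree3 (2 ^ (i0 + j)) {a | ∃ k, a ∈ U f k} (f j (U f j)) := by
    intro j a h1 h2
    refine ⟨?_, fun ha => ⟨j + 1, mem_union_right _ ha⟩⟩
    rintro ⟨k, hk⟩
    have e2 : 2 ^ (i0 + (j + 1)) = 2 * 2 ^ (i0 + j) := by ring
    rcases mem_union.1 (U_back hf (j + 1) k a hk (by rw [e2]; exact h2)) with h3 | h3
    · exact absurd (U_mem hf j a h3).2 (not_lt.2 h1)
    · exact h3
  refine ⟨i0, {a | ∃ k, a ∈ U f k}, ?_, ?_⟩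
  · rintro a ⟨k, hk⟩
    exact (U_mem hf k a hk).1
  · intro i hi
    obtain ⟨j, rfl⟩ := Nat.exists_eq_add_of_le hi
    have e : {a ∈ {a | ∃ k, a ∈ U f k} | a < X3 (2 ^ (i0 + j))} = (U f j : Set ℕ) := by
      ext a
      constructor
      · rintro ⟨⟨k, hk⟩, hlt⟩
        exact U_back hf j k a hk hlt
      · intro ha
        exact ⟨⟨j, ha⟩, (U_mem hf j a ha).2⟩
    rw [e, Set.ncard_coe_finset]
    exact ⟨f j (U f j), hf j _, ag j⟩

end Pool.Agent.Lib.MP_be93de_nt.Hd
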