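import Pool.Agent.Lib.MP_be93de_nt.Hd.Defs

/-! Gluing the levels: the tuple counts with a power saving. -/

namespace Pool.Agent.Lib.MP_be93de_nt.Hd

open Finset Filter Pool.Agent.Lib.MP_be93de_nt.Hb

namespace Hl3x

/-- the error term -/
noncomputable def E (A : Set ℕ) (q : ℕ) (H : Finset ℕ) (S u v : ℝ) : ℝ :=
  (cnt A q H u v : ℝ) - S / q * ∫ t in u..v, 1 / Real.log t ^ H.card

lemma sub_Icc (A : Set ℕ) {q : ℕ} (H : Finset ℕ) (hq : 1 ≤ q) {u : ℝ} (v : ℝ) (hu : 0 ≤ u) :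
    {m : ℕ | u < (q * m : ℕ) ∧ ((q * m : ℕ) : ℝ) ≤ v ∧ ∀ b ∈ H, q * m + b ∈ A} ⊆
      ((Icc 1 ⌊v⌋₊ : Finset ℕ) : Set ℕ) := by
  rintro m ⟨h1, h2, -⟩
  rw [mem_coe, mem_Icc]
  constructor
  · rcases Nat.eq_zero_or_pos m with rfl | h
    · simp at h1; linarith
    · exact h
  · exact le_trans (Nat.le_mul_of_pos_left m hq) (Nat.le_floor h2)

lemma cnt_le (A : Set ℕ) {q : ℕ} (H : Finset ℕ) (hq : 1 ≤ q) {u v : ℝ} (hu : 0 ≤ u) (hv : 0 ≤ v) :
    (cnt A q H u v : ℝ) ≤ v := by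
  have h := Set.ncard_le_ncard (sub_Icc A H hq v hu) (Finset.finite_toSet _)
  rw [Set.ncard_coe_finset, Nat.card_Icc, Nat.add_sub_cancel] at h
  exact le_trans (Nat.cast_le.2 h) (Nat.floor_le hv)

lemma cnt_add (A : Set ℕ) {q : ℕ} (H : Finset ℕ) (hq : 1 ≤ q) {u v w : ℝ} (hu : 0 ≤ u)
    (huv : u ≤ v) (hvw : v ≤ w) : cnt A q H u w = cnt A q H u v + cnt A q H v w := by
  unfold cnt
  rw [← Set.ncard_union_eq _ ((Finset.finite_toSet _).subset (sub_Icc A H hq v hu))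
    ((Finset.finite_toSet _).subset (sub_Icc A H hq w (hu.trans huv)))]
  · congr 1
    ext m
    simp only [Set.mem_setOf_eq, Set.mem_union]
    constructor
    · rintro ⟨h1, h2, h3⟩
      rcases le_or_gt ((q * m : ℕ) : ℝ) v with h | h
      · exact Or.inl ⟨h1, h, h3⟩
      · exact Or.inr ⟨h, h2, h3⟩
    · rintro (⟨h1, h2, h3⟩ | ⟨h1, h2, h3⟩)
      · exact ⟨h1, h2.trans hvw, h3⟩
      · exact ⟨huv.trans_lt h1, h2, h3⟩
  · rw [Set.disjoint_left]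
    rintro m ⟨-, h2, -⟩ ⟨h1, -, -⟩
    exact absurd h2 (not_le.2 h1)

lemma half_lt_log {t : ℝ} (ht : 2 ≤ t) : 1 / 2 ≤ Real.log t := by
  have h1 := Real.log_two_gt_d9
  have h2 := Real.log_le_log (by norm_num) ht
  linarith

lemma integ (k : ℕ) {u v : ℝ} (hu : 2 ≤ u) (huv : u ≤ v) :
    IntervalIntegrable (fun t : ℝ => 1 / Real.log t ^ k) MeasureTheory.volume u v := by
  apply ContinuousOn.intervalIntegrable
  rw [Set.uIcc_of_le huv]
  refine ContinuousOn.div continuousOn_const (ContinuousOn.pow ?_ k) ?_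
  · refine Real.continuousOn_log.mono fun t ht => ?_
    have : 2 ≤ t := hu.trans ht.1
    simp only [Set.mem_compl_iff, Set.mem_singleton_iff]
    linarith
  · intro t ht
    have := half_lt_log (hu.trans ht.1)
    exact pow_ne_zero _ (by linarith)

lemma E_add (A : Set ℕ) {q : ℕ} (H : Finset ℕ) (S : ℝ) (hq : 1 ≤ q) {u v w : ℝ} (hu : 2 ≤ u)
    (huv : u ≤ v) (hvw : v ≤ w) : E A q H S u w = E A q H S u v + E A q H S v w := by
  unfold E
  rw [cnt_add A H hq (by linarith) huv hvw, ← intervalIntegral.integral_add_adjacent_intervals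
    (integ H.card hu huv) (integ H.card (hu.trans huv) hvw)]
  push_cast
  ring

lemma E_self (A : Set ℕ) (q : ℕ) (H : Finset ℕ) (S u : ℝ) : E A q H S u u = 0 := by
  unfold E cnt
  have : {m : ℕ | u < (q * m : ℕ) ∧ ((q * m : ℕ) : ℝ) ≤ u ∧ ∀ b ∈ H, q * m + b ∈ A} = ∅ := by
    ext m
    simp only [Set.mem_setOf_eq, Set.mem_empty_iff_false, iff_false]
    rintro ⟨h1, h2, -⟩
    exact absurd h2 (not_le.2 h1)
  rw [this]
  simp

lemma E_crude (A : Set ℕ) {q : ℕ} (H : Finset ℕ) {S M : ℝ} (hq : 1 ≤ q) (h0 : 0 ≤ S)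
    (hM : 1 ≤ M) (hS : S * 2 ^ H.card ≤ M) {u v : ℝ} (hu : 2 ≤ u) (huv : u ≤ v) :
    |E A q H S u v| ≤ v * M := by
  unfold E
  have hv : 0 ≤ v := by linarith
  have h1 := cnt_le A H hq (u := u) (by linarith) hv
  have h2 : (0 : ℝ) ≤ cnt A q H u v := Nat.cast_nonneg _
  have h3 : 0 ≤ ∫ t in u..v, 1 / Real.log t ^ H.card := by
    apply intervalIntegral.integral_nonneg huv
    intro t ht
    have := half_lt_log (hu.trans ht.1)
    positivity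
  have h4 : ∫ t in u..v, 1 / Real.log t ^ H.card ≤ 2 ^ H.card * v := by
    have h := intervalIntegral.norm_integral_le_of_norm_le_const (a := u) (b := v)
      (f := fun t : ℝ => 1 / Real.log t ^ H.card) (C := 2 ^ H.card) (by
        intro t ht
        rw [Set.uIoc_of_le huv] at ht
        have h5 := half_lt_log (hu.trans ht.1.le)
        rw [Real.norm_eq_abs, abs_of_nonneg (by positivity), ← one_div_pow]
        refine pow_le_pow_left₀ (by positivity) ?_ _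
        rw [div_le_iff₀ (by linarith)]
        linarith)
    rw [Real.norm_eq_abs, abs_of_nonneg h3, abs_of_nonneg (by linarith)] at h
    exact h.trans (mul_le_mul_of_nonneg_left (by linarith) (by positivity))
  have hq' : (1 : ℝ) ≤ q := by exact_mod_cast hq
  have h5 : S / q ≤ S := div_le_self h0 hq'
  have h6 : 0 ≤ S / q := by positivity
  have h7 : S / q * ∫ t in u..v, 1 / Real.log t ^ H.card ≤ v * M :=
    calc _ ≤ S * (2 ^ H.card * v) := mul_le_mul h5 h4 h3 h0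
      _ = v * (S * 2 ^ H.card) := by ring
      _ ≤ v * M := mul_le_mul_of_nonneg_left hS hv
  have h8 : v ≤ v * M := le_mul_of_one_le_right hv hM
  have h9 := mul_nonneg h6 h3
  rw [abs_le]
  constructor <;> linarith

lemma log_le {u : ℕ} {x : ℝ} (hx : 2 ≤ x) (h : x ≤ X3 (4 * u)) :
    Real.log x ≤ 4 ^ 13 * (u : ℝ) ^ 12 := by
  have hl := Real.log_two_lt_d9
  refine (Real.log_le_log (by linarith) h).trans ?_
  unfold X3
  push_cast
  rw [Real.log_pow]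
  push_cast
  calc 4 * (4 * (u : ℝ)) ^ 12 * Real.log 2 ≤ 4 * (4 * (u : ℝ)) ^ 12 :=
        mul_le_of_le_one_right (by positivity) (by linarith)
    _ = 4 ^ 13 * (u : ℝ) ^ 12 := by ring

lemma root_le {L b : ℝ} (n : ℕ) (hn : n ≠ 0) (hL : 0 ≤ L) (hb : 0 ≤ b) (h : L ≤ b ^ n) :
    L ^ (1 / (n : ℝ)) ≤ b := by
  have h3 : L ^ (1 / (n : ℝ)) ≤ (b ^ n) ^ (1 / (n : ℝ)) :=
    Real.rpow_le_rpow hL h (by positivity)
  rw [one_div, Real.pow_rpow_inv_natCast hb hn] at h3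
  rwa [one_div]

lemma mem_tests {u w q : ℕ} {H : Finset ℕ} {L : ℝ} (hu : 2 ^ 52 ≤ u) (huw : u ≤ w) (hL0 : 0 ≤ L)
    (hL : L ≤ 4 ^ 13 * (u : ℝ) ^ 12) (hq : 1 ≤ q) (h1 : (q : ℝ) ≤ L ^ 2) (h2 : H.Nonempty)
    (h3 : (H.card : ℝ) ≤ L ^ (1 / 13 : ℝ)) (h4 : ∀ b ∈ H, (b : ℝ) ≤ L ^ 2) :
    (q, H) ∈ tests3 w := by
  have hu' : (2 : ℝ) ^ 52 ≤ u := by exact_mod_cast hu
  have h0 : (0 : ℝ) ≤ u := Nat.cast_nonneg _
  have hw : (u : ℝ) ≤ w := Nat.cast_le.2 huw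
  have he : L ^ 2 ≤ ((w ^ 25 : ℕ) : ℝ) := by
    push_cast
    calc L ^ 2 ≤ (4 ^ 13 * (u : ℝ) ^ 12) ^ 2 := pow_le_pow_left₀ hL0 hL _
      _ = 2 ^ 52 * (u : ℝ) ^ 24 := by ring
      _ ≤ u * (u : ℝ) ^ 24 := mul_le_mul_of_nonneg_right hu' (by positivity)
      _ = (u : ℝ) ^ 25 := by ring
      _ ≤ (w : ℝ) ^ 25 := pow_le_pow_left₀ h0 hw _
  have hc : L ^ (1 / 13 : ℝ) ≤ u := by
    have a1 : (4 : ℝ) ^ 13 ≤ u := le_trans (by norm_num) hu'
    have a2 : L ≤ (u : ℝ) ^ 13 :=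
      calc L ≤ 4 ^ 13 * (u : ℝ) ^ 12 := hL
        _ ≤ u * (u : ℝ) ^ 12 := mul_le_mul_of_nonneg_right a1 (by positivity)
        _ = _ := by ring
    have := root_le 13 (by norm_num) hL0 h0 a2
    exact_mod_cast this
  unfold tests3
  rw [mem_product, mem_Icc, mem_filter, mem_powerset]
  refine ⟨⟨hq, Nat.cast_le.1 (h1.trans he)⟩, fun b hb => ?_, h2.card_pos,
    Nat.cast_le.1 (h3.trans (hc.trans hw))⟩
  rw [mem_range, Nat.lt_succ_iff]
  exact Nat.cast_le.1 ((h4 b hb).trans he)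

/-- crude bound for the singular series -/
noncomputable def MM (u : ℕ) : ℝ := (2 * (Real.exp 40 * (1 + Real.log (u ^ 60 : ℕ)))) ^ u

lemma one_le_base (u : ℕ) : (1 : ℝ) ≤ Real.exp 40 * (1 + Real.log (u ^ 60 : ℕ)) := by
  have he : (1 : ℝ) ≤ Real.exp 40 := Real.one_le_exp (by norm_num)
  have hl : 0 ≤ Real.log (u ^ 60 : ℕ) := Real.log_natCast_nonneg _
  exact one_le_mul_of_one_le_of_one_le he (by linarith)

lemma one_le_M (u : ℕ) : 1 ≤ MM u := by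
  have := one_le_base u
  exact one_le_pow₀ (by linarith)

lemma S_le (h1 : Mert3St) (h2 : Sing3St) {u q : ℕ} {H : Finset ℕ}
    (ht : (q, H) ∈ tests3 u) {S : ℝ} (hS : IsS q H S) : 0 ≤ S ∧ S * 2 ^ H.card ≤ MM u := by
  obtain ⟨h0, h3, -⟩ := ((h2 u).2 _ ht).2 S hS
  refine ⟨h0, ?_⟩
  have hk : H.card ≤ u := (mem_filter.1 (mem_product.1 ht).2).2.2
  have hp := (h1.1 0 (u ^ 60)).1
  have h4 := (h1.2.2.2 (u ^ 60)).2
  have hb := one_le_base u
  unfold MM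
  generalize Real.exp 40 * (1 + Real.log (u ^ 60 : ℕ)) = B at h4 hb ⊢
  have h5 : S ≤ (th 0 (u ^ 60))⁻¹ ^ H.card := by
    rw [inv_pow, ← one_div, le_div_iff₀ (pow_pos hp _)]
    exact h3
  have h6 : S ≤ B ^ H.card := h5.trans (pow_le_pow_left₀ (inv_nonneg.2 hp.le) h4 _)
  calc S * 2 ^ H.card ≤ B ^ H.card * 2 ^ H.card := mul_le_mul_of_nonneg_right h6 (by positivity)
    _ = (2 * B) ^ H.card := by rw [← mul_pow, mul_comm]
    _ ≤ (2 * B) ^ u := pow_le_pow_right₀ (by linarith) hk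

lemma small {u : ℕ} (hu : 1 ≤ u) {x : ℝ} (hx : (X3 (2 * u) : ℝ) ≤ x) :
    (X3 u : ℝ) * MM u ≤ x ^ (4 / 5 : ℝ) := by
  have he : Real.exp 40 ≤ 2 ^ 80 := by
    have h1 : Real.exp 1 ≤ 2 ^ 2 := by have := Real.exp_one_lt_d9; linarith
    calc Real.exp 40 = Real.exp 1 ^ 40 := by rw [← Real.exp_nat_mul]; norm_num
      _ ≤ (2 ^ 2) ^ 40 := pow_le_pow_left₀ (Real.exp_pos _).le h1 _
      _ = 2 ^ 80 := by rw [← pow_mul]
  have hu' : (1 : ℝ) ≤ u := by exact_mod_cast hu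
  have h2 : (u : ℝ) ≤ 2 ^ u := by exact_mod_cast (Nat.lt_two_pow_self (n := u)).le
  have hl0 : 0 ≤ Real.log (u ^ 60 : ℕ) := Real.log_natCast_nonneg _
  have hl : 1 + Real.log (u ^ 60 : ℕ) ≤ 2 ^ 6 * 2 ^ u := by
    have := Real.log_le_sub_one_of_pos (show (0 : ℝ) < u by linarith)
    rw [Nat.cast_pow, Real.log_pow]
    push_cast
    linarith
  have h3 : 2 * (Real.exp 40 * (1 + Real.log (u ^ 60 : ℕ))) ≤ 2 ^ (87 + u) := by
    calc 2 * (Real.exp 40 * (1 + Real.log (u ^ 60 : ℕ))) ≤ 2 * (2 ^ 80 * (2 ^ 6 * 2 ^ u)) :=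
          mul_le_mul_of_nonneg_left (mul_le_mul he hl (by linarith) (by positivity)) (by norm_num)
      _ = 2 ^ (87 + u) := by rw [pow_add]; ring
  have hb := one_le_base u
  have h4 : (X3 u : ℝ) * MM u ≤ 2 ^ (4 * u ^ 12 + (87 + u) * u) := by
    rw [pow_add, pow_mul (2 : ℝ) (87 + u)]
    refine mul_le_mul (le_of_eq ?_) (pow_le_pow_left₀ (by linarith) h3 _)
      (zero_le_one.trans (one_le_M u)) (by positivity)
    unfold X3
    push_cast
    rfl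
  have h5 : (4 * u ^ 12 + (87 + u) * u) * 2 ≤ 4 * (2 * u) ^ 12 := by
    have a1 : u ≤ u ^ 12 := Nat.le_self_pow (by norm_num) u
    have a2 : u ^ 2 ≤ u ^ 12 := Nat.pow_le_pow_right hu (by norm_num)
    rw [mul_pow]
    nlinarith
  have h6 : ((2 : ℝ) ^ (4 * u ^ 12 + (87 + u) * u)) ^ 2 ≤ x := by
    refine le_trans ?_ hx
    rw [← pow_mul]
    unfold X3
    push_cast
    exact pow_le_pow_right₀ (by norm_num) h5
  have h7 : (1 : ℝ) ≤ x := le_trans (one_le_pow₀ (one_le_pow₀ (by norm_num))) h6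
  refine h4.trans ((Real.le_sqrt' (by positivity)).2 h6 |>.trans ?_)
  rw [Real.sqrt_eq_rpow]
  exact Real.rpow_le_rpow_of_exponent_le h7 (by norm_num)

lemma X_mono {a b : ℕ} (h : a ≤ b) : X3 a ≤ X3 b :=
  Nat.pow_le_pow_right (by norm_num) (Nat.mul_le_mul_left _ (Nat.pow_le_pow_left h _))

lemma le_X (n : ℕ) : n ≤ X3 n :=
  (Nat.le_self_pow (by norm_num) n).trans
    ((Nat.le_mul_of_pos_left _ (by norm_num)).trans (Nat.lt_two_pow_self).le)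

lemma level (j0 : ℕ) {x : ℝ} (hx : (X3 (2 * 2 ^ j0) : ℝ) ≤ x) :
    ∃ j, j0 ≤ j ∧ (X3 (2 * 2 ^ j) : ℝ) ≤ x ∧ x ≤ X3 (4 * 2 ^ j) := by
  classical
  have hex : ∃ n : ℕ, x ≤ X3 (4 * 2 ^ (j0 + n)) := by
    refine ⟨⌈x⌉₊, (Nat.le_ceil x).trans (Nat.cast_le.2 ?_)⟩
    have a1 : ⌈x⌉₊ ≤ 2 ^ (j0 + ⌈x⌉₊) :=
      (Nat.le_add_left _ _).trans (Nat.lt_two_pow_self).le
    exact a1.trans ((Nat.le_mul_of_pos_left _ (by norm_num)).trans (le_X _))
  refine ⟨j0 + Nat.find hex, Nat.le_add_right _ _, ?_, Nat.find_spec hex⟩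
  rcases h : Nat.find hex with _ | n
  · exact hx
  · have := Nat.find_min hex (m := n) (by omega)
    rw [show 2 * 2 ^ (j0 + (n + 1)) = 4 * 2 ^ (j0 + n) by ring]
    exact (not_le.1 this).le

lemma eps_le {a : ℕ} (ha : 60 ≤ a) : (1 : ℝ) / (a * 4 ^ 13) ≤ 1 / 5 := by
  have ha' : (60 : ℝ) ≤ a := by exact_mod_cast ha
  refine one_div_le_one_div_of_le (by norm_num) ?_
  nlinarith

lemma er_le {a u : ℕ} (ha : 60 ≤ a) {x : ℝ} (hx : 2 ≤ x)
    (hL : Real.log x ≤ 4 ^ 13 * (u : ℝ) ^ 12) :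
    x * er a u ≤ x ^ (1 - 1 / ((a : ℝ) * 4 ^ 13)) := by
  have ha' : (60 : ℝ) ≤ a := by exact_mod_cast ha
  have hx0 : 0 < x := by linarith
  rw [Real.rpow_def_of_pos hx0, mul_sub, mul_one, sub_eq_add_neg, Real.exp_add, Real.exp_log hx0]
  refine mul_le_mul_of_nonneg_left (Real.exp_le_exp.2 (neg_le_neg ?_)) hx0.le
  calc Real.log x * (1 / ((a : ℝ) * 4 ^ 13)) ≤ 4 ^ 13 * (u : ℝ) ^ 12 * (1 / ((a : ℝ) * 4 ^ 13)) :=
        mul_le_mul_of_nonneg_right hL (by positivity)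
    _ = (u : ℝ) ^ 12 / a := by field_simp

lemma er_two (a u : ℕ) : er a (2 * u) ≤ er a u := by
  unfold er
  refine Real.exp_le_exp.2 (neg_le_neg (div_le_div_of_nonneg_right ?_ (Nat.cast_nonneg _)))
  refine pow_le_pow_left₀ (Nat.cast_nonneg _) (Nat.cast_le.2 (by omega)) _

lemma large {a u q : ℕ} {A : Set ℕ} {H : Finset ℕ} {S x y : ℝ} (hu : 1 ≤ u) (hq : 1 ≤ q)
    (H1 : HLs3 a u A) (H2 : HLs3 a (2 * u) A) (ht : (q, H) ∈ tests3 u)
    (ht2 : (q, H) ∈ tests3 (2 * u)) (hS : IsS q H S) (p0 : 0 ≤ S) (p1 : S * 2 ^ H.card ≤ MM u)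
    (hy : 2 ≤ y) (hyx : y ≤ x) (b1 : (X3 (2 * u) : ℝ) ≤ x) (b2 : x ≤ X3 (4 * u)) :
    |E A q H S y x| ≤ 4 * (x * er a u) + 3 * x ^ (4 / 5 : ℝ) := by
  have hab : (X3 u : ℝ) ≤ X3 (2 * u) := Nat.cast_le.2 (X_mono (by omega))
  have hsm := small hu b1
  have hε2 := er_two a u
  have hε0 : 0 ≤ er a u := (Real.exp_pos _).le
  have hx23 : 0 ≤ x ^ (4 / 5 : ℝ) := Real.rpow_nonneg (by linarith) _
  have G1 := H1 _ ht S hS
  have G2 := H2 _ ht2 S hS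
  rw [show 2 * (2 * u) = 4 * u by ring] at G2
  generalize (X3 u : ℝ) = P at *
  generalize (X3 (2 * u) : ℝ) = Q at *
  generalize (X3 (4 * u) : ℝ) = W at *
  have c1 : y ≤ max y P := le_max_left _ _
  have c2 : max y P ≤ max y Q := max_le_max le_rfl hab
  have c3 : max y Q ≤ x := max_le hyx b1
  have e0 : |E A q H S y (max y P)| ≤ x ^ (4 / 5 : ℝ) := by
    rcases le_total y P with h | h
    · rw [max_eq_right h]
      exact (E_crude A H hq p0 (one_le_M u) p1 hy h).trans hsm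
    · rw [max_eq_left h, E_self, abs_zero]; exact hx23
  have e1 : |E A q H S (max y P) (max y Q)| ≤
      4 * (max y Q - max y P) * er a u + x ^ (4 / 5 : ℝ) := by
    rcases le_total y Q with h | h
    · have h3 := G1 (max y P) (max y Q) (le_max_right _ _) c2 (max_le h le_rfl)
      exact le_trans h3 (add_le_add le_rfl (Real.rpow_le_rpow (by linarith) c3 (by norm_num)))
    · rw [max_eq_left h, max_eq_left (hab.trans h), E_self, abs_zero]; linarith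
  have e2 : |E A q H S (max y Q) x| ≤ 4 * (x - max y Q) * er a u + x ^ (4 / 5 : ℝ) := by
    have h3 := G2 (max y Q) x (le_max_right _ _) c3 b2
    exact le_trans h3 (add_le_add (mul_le_mul_of_nonneg_left hε2 (by linarith)) le_rfl)
  have hsum : E A q H S y x = E A q H S y (max y P) +
      (E A q H S (max y P) (max y Q) + E A q H S (max y Q) x) := by
    rw [← E_add A H S hq (hy.trans c1) c2 c3, ← E_add A H S hq hy c1 (c2.trans c3)]
  rw [hsum]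
  refine (abs_add_le _ _).trans ((add_le_add e0 ((abs_add_le _ _).trans
    (add_le_add e1 e2))).trans ?_)
  have := mul_nonneg (show 0 ≤ max y P by linarith) hε0
  linarith

lemma thr (i0 : ℕ) : ∃ j0, ∀ j, j0 ≤ j → i0 ≤ j ∧ 2 ^ 52 ≤ 2 ^ j :=
  ⟨i0 + 52, fun j hj => ⟨by omega, Nat.pow_le_pow_right (by norm_num) (by omega)⟩⟩

lemma fin1 {e C w : ℝ} (h : e ≤ C) (hC : 0 ≤ C) (hw : 1 ≤ w) : e ≤ (C + 7) * w := by
  nlinarith

lemma fin2 {e C w p q : ℝ} (h : e ≤ 4 * p + 3 * q) (hC : 0 ≤ C) (hw : 1 ≤ w) (hp : p ≤ w)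
    (hq : q ≤ w) : e ≤ (C + 7) * w := by
  nlinarith

end Hl3x

open Hl3x in
theorem hl3_st (h1 : Mert3St) (h2 : Sing3St) : Hl3St := by
  intro a ha i0 A hA
  have hH : ∀ i, i0 ≤ i → HLs3 a (2 ^ i) A := fun i hi => by
    obtain ⟨F, hF, hag⟩ := hA.st i hi
    exact hF.hl A hag
  obtain ⟨j0, hbig⟩ := thr i0
  obtain ⟨-, hs1⟩ := hbig j0 le_rfl
  have hlev := fun x : ℝ => level j0 (x := x)
  generalize 2 ^ j0 = s0 at hs1 hlev
  have hM0 := one_le_M s0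
  have hC0 : (0 : ℝ) ≤ X3 (2 * s0) * MM s0 :=
    mul_nonneg (Nat.cast_nonneg _) (zero_le_one.trans hM0)
  refine ⟨X3 (2 * s0) * MM s0 + 7, ?_⟩
  intro x y q H hy hyx hq a1 a2 a3 a4
  have hx : 2 ≤ x := hy.trans hyx
  have hx1 : 1 ≤ x := one_le_two.trans hx
  have hε := eps_le ha
  have h45 : (4 / 5 : ℝ) ≤ 1 - 1 / ((a : ℝ) * 4 ^ 13) := by linarith only [hε]
  have hw : 1 ≤ x ^ (1 - 1 / ((a : ℝ) * 4 ^ 13)) :=
    Real.one_le_rpow hx1 (le_trans (by norm_num) h45)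
  have hL0 : 0 ≤ Real.log x := Real.log_nonneg hx1
  rcases le_total x (X3 (2 * s0)) with hb | hb
  · have hL := log_le hx
      (hb.trans (Nat.cast_le.2 (X_mono (Nat.mul_le_mul_right s0 (show 2 ≤ 4 by norm_num)))))
    have ht := mem_tests hs1 le_rfl hL0 hL hq a1 a2 a3 a4
    obtain ⟨S, hS⟩ := ((h2 s0).2 _ ht).1
    obtain ⟨p0, p1⟩ := S_le h1 h2 ht hS
    exact ⟨S, hS, fin1 ((E_crude A H hq p0 hM0 p1 hy hyx).trans
      (mul_le_mul_of_nonneg_right hb (zero_le_one.trans hM0))) hC0 hw⟩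
  · obtain ⟨j, hj, b1, b2⟩ := hlev x hb
    obtain ⟨t0, t1⟩ := hbig j hj
    have H1 : HLs3 a (2 ^ j) A := hH j t0
    have H2 : HLs3 a (2 * 2 ^ j) A := by
      have := hH (j + 1) (Nat.le_succ_of_le t0)
      rwa [pow_succ'] at this
    generalize 2 ^ j = s at b1 b2 H1 H2 t1
    have hL := log_le hx b2
    have ht := mem_tests t1 le_rfl hL0 hL hq a1 a2 a3 a4
    have ht2 := mem_tests t1 (Nat.le_mul_of_pos_left s two_pos) hL0 hL hq a1 a2 a3 a4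
    obtain ⟨S, hS⟩ := ((h2 s).2 _ ht).1
    obtain ⟨p0, p1⟩ := S_le h1 h2 ht hS
    exact ⟨S, hS, fin2 (large (le_trans Nat.one_le_two_pow t1) hq H1 H2 ht ht2 hS p0 p1 hy hyx
      b1 b2) hC0 hw (er_le ha hx hL) (Real.rpow_le_rpow_of_exponent_le hx1 h45)⟩

end Pool.Agent.Lib.MP_be93de_nt.Hd
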