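import Pool.Agent.Lib.MP_be93de_nt.Hd.Defs

namespace Pool.Agent.Lib.MP_be93de_nt.Hd

open Finset Filter Pool.Agent.Lib.MP_be93de_nt.Hb

namespace Inter3x

def cs (A : Set ℕ) (q : ℕ) (H : Finset ℕ) (y x : ℝ) : Set ℕ :=
  {m : ℕ | y < (q * m : ℕ) ∧ ((q * m : ℕ) : ℝ) ≤ x ∧ ∀ b ∈ H, q * m + b ∈ A}

theorem cnt_eq (A : Set ℕ) (q : ℕ) (H : Finset ℕ) (y x : ℝ) :
    cnt A q H y x = (cs A q H y x).ncard := rfl

theorem cs_fin (A : Set ℕ) {q : ℕ} (hq : 1 ≤ q) (H : Finset ℕ) (y x : ℝ) :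
    (cs A q H y x).Finite := by
  refine (Set.finite_Iic ⌊x⌋₊).subset fun m hm => ?_
  have h1 : q * m ≤ ⌊x⌋₊ := Nat.le_floor hm.2.1
  exact (Nat.le_mul_of_pos_left m hq).trans h1

theorem cnt_add (A : Set ℕ) {q : ℕ} (hq : 1 ≤ q) (H : Finset ℕ) {u v w : ℝ} (h1 : u ≤ v)
    (h2 : v ≤ w) : cnt A q H u w = cnt A q H u v + cnt A q H v w := by
  rw [cnt_eq, cnt_eq, cnt_eq, ← Set.ncard_union_eq ?_ (cs_fin A hq H _ _) (cs_fin A hq H _ _)]
  · congr 1
    ext m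
    constructor
    · rintro ⟨a, b, c⟩
      rcases le_or_gt ((q * m : ℕ) : ℝ) v with h | h
      · exact Or.inl ⟨a, h, c⟩
      · exact Or.inr ⟨h, b, c⟩
    · rintro (⟨a, b, c⟩ | ⟨a, b, c⟩)
      · exact ⟨a, b.trans h2, c⟩
      · exact ⟨h1.trans_lt a, b, c⟩
  · rw [Set.disjoint_left]
    rintro m ⟨_, b, _⟩ ⟨a, _, _⟩
    exact absurd b (not_le.2 a)

theorem cnt_le (A : Set ℕ) {q : ℕ} (hq : 1 ≤ q) (H : Finset ℕ) (a L : ℕ) {v : ℝ}
    (hv : v ≤ (a : ℝ) + L) : cnt A q H a v ≤ L := by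
  have := Set.ncard_le_ncard_of_injOn (s := cs A q H a v) (t := (Ioc a (a + L) : Finset ℕ))
    (fun m => q * m) (fun m hm => by
      have h1 : a < q * m := by exact_mod_cast hm.1
      have h2 : q * m ≤ a + L := by exact_mod_cast hm.2.1.trans hv
      simpa using ⟨h1, h2⟩)
    (fun m _ m' _ h => Nat.eq_of_mul_eq_mul_left hq h) (Finset.finite_toSet _)
  rwa [Set.ncard_coe_finset, Nat.card_Ioc, Nat.add_sub_cancel_left] at this

theorem bad_le {q : ℕ} (hq : 1 ≤ q) (a D : ℕ) :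
    {m : ℕ | a ≤ q * m + D ∧ q * m ≤ a}.Finite ∧
      {m : ℕ | a ≤ q * m + D ∧ q * m ≤ a}.ncard ≤ D + 1 := by
  refine ⟨(Set.finite_Iic a).subset fun m hm => (Nat.le_mul_of_pos_left m hq).trans hm.2, ?_⟩
  have := Set.ncard_le_ncard_of_injOn (s := {m : ℕ | a ≤ q * m + D ∧ q * m ≤ a})
    (t := (Icc a (a + D) : Finset ℕ)) (fun m => q * m + D) (fun m hm => by
      have h1 := hm.1
      have h2 := hm.2
      simp only [coe_Icc, Set.mem_Icc]
      omega)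
    (fun m _ m' _ h => Nat.eq_of_mul_eq_mul_left hq (Nat.add_right_cancel h))
    (Finset.finite_toSet _)
  rw [Set.ncard_coe_finset, Nat.card_Icc] at this
  omega

theorem TT_succ (s j : ℕ) : T3 s (j + 1) = T3 s j + Y3 s := by
  unfold T3; ring

theorem TT_mono (s : ℕ) {i j : ℕ} (h : i ≤ j) : T3 s i ≤ T3 s j :=
  Nat.add_le_add_left (Nat.mul_le_mul_right _ h) _

theorem block {s : ℕ} {B : ℕ → Finset ℕ} {A : Set ℕ}
    (hsub : ∀ j, B j ⊆ Ico (T3 s j + 3) (T3 s j + Y3 s)) (hT : T3 s (nb3 s) = X3 (2 * s))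
    (hA : Agree3 s A ((range (nb3 s)).biUnion B)) {q : ℕ} (hq : 1 ≤ q) {H : Finset ℕ}
    (hH : H.Nonempty) {D : ℕ} (hD : ∀ b ∈ H, b ≤ D) {j : ℕ} (hj : j < nb3 s) :
    |(cnt A q H (T3 s j) (T3 s (j + 1)) : ℝ) - tup q H (T3 s j + Y3 s) (B j)| ≤ (D : ℝ) + 1 := by
  have hX : X3 s ≤ T3 s j := Nat.le_add_right _ _
  have hU : T3 s j + Y3 s ≤ X3 (2 * s) := by
    rw [← TT_succ, ← hT]; exact TT_mono s hj
  obtain ⟨b0, hb0⟩ := hH
  have h1 : tup q H (T3 s j + Y3 s) (B j) ≤ cnt A q H (T3 s j) (T3 s (j + 1)) + (D + 1) := by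
    obtain ⟨f, l⟩ := bad_le hq (T3 s j) D
    refine le_trans ?_ ((Set.ncard_union_le _ _).trans (Nat.add_le_add_left l _))
    rw [tup, ← Set.ncard_coe_finset]
    refine Set.ncard_le_ncard (fun m hm => ?_) ((cs_fin A hq H _ _).union f)
    have hm' := (mem_filter.1 (mem_coe.1 hm)).2
    have e0 := mem_Ico.1 (hsub j (hm' b0 hb0))
    have e1 := hD b0 hb0
    by_cases h : T3 s j < q * m
    · refine Or.inl ⟨by exact_mod_cast h, ?_, fun b hb => ?_⟩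
      · rw [TT_succ]
        exact_mod_cast (by omega : q * m ≤ T3 s j + Y3 s)
      · have e := mem_Ico.1 (hsub j (hm' b hb))
        exact (hA _ (by omega) (by omega)).2 (mem_biUnion.2 ⟨j, mem_range.2 hj, hm' b hb⟩)
    · exact Or.inr ⟨by omega, by omega⟩
  have h2 : cnt A q H (T3 s j) (T3 s (j + 1)) ≤ tup q H (T3 s j + Y3 s) (B j) + (D + 1) := by
    obtain ⟨f, l⟩ := bad_le hq (T3 s j + Y3 s) D
    rw [tup, ← Set.ncard_coe_finset]
    refine le_trans ?_ ((Set.ncard_union_le _ _).trans (Nat.add_le_add_left l _))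
    refine Set.ncard_le_ncard (fun m hm => ?_) ((Finset.finite_toSet _).union f)
    have a1 : T3 s j < q * m := by exact_mod_cast hm.1
    have a2 : q * m ≤ T3 s j + Y3 s := by
      rw [← TT_succ]; exact_mod_cast hm.2.1
    by_cases h : q * m + D < T3 s j + Y3 s
    · refine Or.inl (mem_coe.2 (mem_filter.2 ⟨mem_range.2 ?_, fun b hb => ?_⟩))
      · have := Nat.le_mul_of_pos_left m hq
        omega
      · have e1 := hD b hb
        obtain ⟨i, _, hi⟩ := mem_biUnion.1 ((hA _ (by omega) (by omega)).1 (hm.2.2 b hb))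
        have e := mem_Ico.1 (hsub i hi)
        have : i = j := by
          rcases lt_trichotomy i j with c | c | c
          · have := TT_mono s (Nat.succ_le_of_lt c)
            rw [Nat.succ_eq_add_one, TT_succ] at this
            omega
          · exact c
          · have := TT_mono s (Nat.succ_le_of_lt c)
            rw [Nat.succ_eq_add_one, TT_succ] at this
            omega
        exact this ▸ hi
    · exact Or.inr ⟨by omega, a2⟩
  have h1' : (tup q H (T3 s j + Y3 s) (B j) : ℝ) ≤ cnt A q H (T3 s j) (T3 s (j + 1)) + (D + 1) := by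
    exact_mod_cast h1
  have h2' : (cnt A q H (T3 s j) (T3 s (j + 1)) : ℝ) ≤ tup q H (T3 s j + Y3 s) (B j) + (D + 1) := by
    exact_mod_cast h2
  rw [abs_le]
  constructor <;> linarith

theorem cnt_sum (s : ℕ) (A : Set ℕ) {q : ℕ} (hq : 1 ≤ q) (H : Finset ℕ) {j1 j2 : ℕ}
    (h : j1 ≤ j2) : (cnt A q H (T3 s j1) (T3 s j2) : ℝ) =
      ∑ j ∈ Ico j1 j2, (cnt A q H (T3 s j) (T3 s (j + 1)) : ℝ) := by
  induction j2, h using Nat.le_induction with
  | base =>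
    have := cnt_le A hq H (T3 s j1) 0 (v := T3 s j1) (by simp)
    simp [Nat.le_zero.1 this]
  | succ n hn ih =>
    rw [sum_Ico_succ_top hn, ← ih, cnt_add A hq H (v := T3 s n) (by exact_mod_cast TT_mono s hn)
      (by exact_mod_cast TT_mono s n.le_succ)]
    push_cast; rfl

theorem int_bd {f : ℝ → ℝ} {a : ℝ} (hf : AntitoneOn f (Set.Ici a)) {u v : ℝ} (hu : a ≤ u)
    (huv : u ≤ v) : IntervalIntegrable f MeasureTheory.volume u v ∧
      (v - u) * f v ≤ ∫ t in u..v, f t ∧ ∫ t in u..v, f t ≤ (v - u) * f u := by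
  have hi : IntervalIntegrable f MeasureTheory.volume u v := by
    apply AntitoneOn.intervalIntegrable
    rw [Set.uIcc_of_le huv]
    exact hf.mono fun t ht => hu.trans ht.1
  refine ⟨hi, ?_, ?_⟩
  · have := intervalIntegral.integral_mono_on huv (intervalIntegrable_const (c := f v)) hi
      fun t ht => hf (hu.trans ht.1) (hu.trans huv) ht.2
    simpa using this
  · have := intervalIntegral.integral_mono_on huv hi (intervalIntegrable_const (c := f u))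
      fun t ht => hf hu (hu.trans ht.1) ht.1
    simpa using this

theorem riem (s : ℕ) {f : ℝ → ℝ} (hf : AntitoneOn f (Set.Ici (X3 s : ℝ))) {j1 j2 : ℕ}
    (h : j1 ≤ j2) :
    0 ≤ ∑ j ∈ Ico j1 j2, Y3 s * f (T3 s j) - ∫ t in (T3 s j1 : ℝ)..(T3 s j2), f t ∧
    ∑ j ∈ Ico j1 j2, Y3 s * f (T3 s j) - ∫ t in (T3 s j1 : ℝ)..(T3 s j2), f t ≤
      Y3 s * (f (T3 s j1) - f (T3 s j2)) := by
  have hX : ∀ j, (X3 s : ℝ) ≤ T3 s j := fun j => by
    exact_mod_cast (Nat.le_add_right _ _ : X3 s ≤ T3 s j)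
  induction j2, h using Nat.le_induction with
  | base => simp
  | succ n hn ih =>
    have m1 : (T3 s j1 : ℝ) ≤ T3 s n := by exact_mod_cast TT_mono s hn
    have m2 : (T3 s n : ℝ) ≤ T3 s (n + 1) := by exact_mod_cast TT_mono s n.le_succ
    obtain ⟨i1, -, -⟩ := int_bd hf (hX j1) m1
    obtain ⟨i2, l, u⟩ := int_bd hf (hX n) m2
    have e : (T3 s (n + 1) : ℝ) - T3 s n = Y3 s := by
      rw [TT_succ]; push_cast; ring
    rw [e] at l u
    rw [sum_Ico_succ_top hn, ← intervalIntegral.integral_add_adjacent_intervals i1 i2]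
    constructor <;> nlinarith [ih.1, ih.2]

theorem num {s : ℕ} (hs : 2 ≤ s) {x : ℝ} (hx : (X3 s : ℝ) ≤ x) {j : ℕ}
    (hj : (j : ℝ) * Y3 s ≤ x) :
    7 * (Y3 s : ℝ) + 4 * Y3 s * Real.sqrt (j * 2 ^ (s ^ 2)) ≤ x ^ (4 / 5 : ℝ) := by
  have hY : (1 : ℝ) ≤ Y3 s := by exact_mod_cast (Nat.one_le_two_pow : 1 ≤ Y3 s)
  have hX : (1 : ℝ) ≤ X3 s := by exact_mod_cast (Nat.one_le_two_pow : 1 ≤ X3 s)
  have hM : (1 : ℝ) ≤ 2 ^ (s ^ 2) := one_le_pow₀ one_le_two
  have hx0 : 0 ≤ x := le_trans (Nat.cast_nonneg _) hx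
  set M : ℝ := 2 ^ (s ^ 2) with hMd
  set u : ℝ := x ^ (1 / 5 : ℝ) with hu
  have u1 : 1 ≤ u := Real.one_le_rpow (hX.trans hx) (by norm_num)
  have u0 : 0 ≤ u := by linarith
  have u3 : u ^ 5 = x := by
    rw [hu, ← Real.rpow_natCast, ← Real.rpow_mul hx0]; norm_num
  have u2 : x ^ (4 / 5 : ℝ) = u ^ 4 := by
    rw [hu, ← Real.rpow_natCast, ← Real.rpow_mul hx0]; norm_num
  have hW : 128 * Y3 s * M ≤ u ^ 3 := by
    refine le_of_pow_le_pow_left₀ (n := 5) (by norm_num) (by positivity) ?_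
    have e0 : (u ^ 3) ^ 5 = x ^ 3 := by rw [← u3]; ring
    rw [e0]
    refine le_trans ?_ (pow_le_pow_left₀ (Nat.cast_nonneg _) hx 3)
    have e : (128 * (Y3 s : ℝ) * M) ^ 5 = 2 ^ ((7 + 2 * s ^ 12 + s ^ 2) * 5) := by
      rw [pow_mul _ _ 5, pow_add, pow_add, hMd, Y3]; push_cast; norm_num
    have e' : ((X3 s : ℕ) : ℝ) ^ 3 = 2 ^ (4 * s ^ 12 * 3) := by
      rw [pow_mul _ _ 3, X3]; push_cast; rfl
    rw [e, e']
    refine pow_le_pow_right₀ one_le_two ?_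
    have a1 : 4 ≤ s ^ 2 := by nlinarith
    have a2 : 1024 ≤ s ^ 10 := by
      calc 1024 = 2 ^ 10 := by norm_num
        _ ≤ s ^ 10 := Nat.pow_le_pow_left hs 10
    have a3 : s ^ 12 = s ^ 10 * s ^ 2 := by ring
    have a5 : 1024 * s ^ 2 ≤ s ^ 12 := by rw [a3]; exact Nat.mul_le_mul_right _ a2
    omega
  have hYM : (Y3 s : ℝ) ≤ Y3 s * M := by nlinarith
  have h1 : (Y3 s : ℝ) * Real.sqrt (j * M) ≤ u ^ 4 / 11 := by
    rw [← Real.sqrt_sq (by linarith : (0 : ℝ) ≤ Y3 s), ← Real.sqrt_mul (sq_nonneg _)]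
    refine Real.sqrt_le_iff.2 ⟨by positivity, ?_⟩
    have b1 : (Y3 s : ℝ) ^ 2 * (j * M) = (j * Y3 s) * (Y3 s * M) := by ring
    have b2 : (j * Y3 s : ℝ) * (Y3 s * M) ≤ u ^ 5 * (u ^ 3 / 128) := by
      rw [u3]
      exact mul_le_mul hj (by linarith) (by positivity) hx0
    have b3 : 0 ≤ u ^ 8 := by positivity
    have b4 : u ^ 5 * (u ^ 3 / 128) = u ^ 8 / 128 := by ring
    have b5 : (u ^ 4 / 11) ^ 2 = u ^ 8 / 121 := by ring
    rw [b1, b5]
    linarith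
  have h3 : u ^ 3 ≤ u ^ 4 := pow_le_pow_right₀ u1 (by norm_num)
  have h4 : 0 ≤ u ^ 4 := by positivity
  have h2 : (Y3 s : ℝ) ≤ u ^ 4 / 11 := by linarith
  rw [u2]
  linarith

theorem small {a s : ℕ} (ha : 60 ≤ a) (hs : 2 ≤ s) : (s : ℝ) ^ 25 + 1 ≤ Y3 s * er a s := by
  have hs' : (2 : ℝ) ≤ s := by exact_mod_cast hs
  have ha' : (60 : ℝ) ≤ a := by exact_mod_cast ha
  set v : ℝ := (s : ℝ) ^ 12 with hv
  have v1 : (2 : ℝ) ^ 12 ≤ v := pow_le_pow_left₀ (by norm_num) hs' 12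
  have v0 : 0 ≤ v := by positivity
  have h1 : Real.exp v ≤ Y3 s := by
    have e1 : ((Y3 s : ℕ) : ℝ) = 4 ^ (s ^ 12) := by
      rw [Y3, pow_mul]; push_cast; rfl
    have e2 : Real.exp v = Real.exp 1 ^ (s ^ 12) := by
      rw [← Real.exp_nat_mul, mul_one, hv]; push_cast; rfl
    rw [e1, e2]
    exact pow_le_pow_left₀ (Real.exp_pos _).le (by linarith [Real.exp_one_lt_d9]) _
  have h2 : Real.exp (-(v / 2)) ≤ er a s := by
    unfold er
    refine Real.exp_le_exp.2 (neg_le_neg ?_)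
    exact div_le_div_of_nonneg_left v0 (by norm_num) (by linarith)
  have h3 : Real.exp (v / 2) ≤ Y3 s * er a s := by
    have e : Real.exp (v / 2) = Real.exp v * Real.exp (-(v / 2)) := by
      rw [← Real.exp_add]; congr 1; ring
    rw [e]
    exact mul_le_mul h1 h2 (Real.exp_pos _).le (Nat.cast_nonneg _)
  have h4 := Real.pow_div_factorial_le_exp (v / 2) (by positivity) 4
  have h5 : (v / 2) ^ 4 / ((4 : ℕ).factorial : ℝ) = v / 384 * v ^ 3 := by
    norm_num [Nat.factorial]; ring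
  have h6 : v ^ 3 ≤ v / 384 * v ^ 3 :=
    le_mul_of_one_le_left (by positivity) (by rw [le_div_iff₀ (by norm_num)]; linarith)
  have h7 : v ^ 3 = (s : ℝ) ^ 11 * (s : ℝ) ^ 25 := by rw [hv]; ring
  have h8 : (2 : ℝ) ≤ (s : ℝ) ^ 11 := hs'.trans (le_self_pow₀ (by linarith) (by norm_num))
  have h9 : (1 : ℝ) ≤ (s : ℝ) ^ 25 := one_le_pow₀ (by linarith)
  have h10 : 2 * (s : ℝ) ^ 25 ≤ (s : ℝ) ^ 11 * (s : ℝ) ^ 25 :=
    mul_le_mul_of_nonneg_right h8 (by positivity)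
  linarith

end Inter3x

open Inter3x in
theorem inter3_st (h : Term3St) : Inter3St := by
  intro a ha
  filter_upwards [h, eventually_ge_atTop 2] with s hT hs r B A hB hn hA τ hτ S hS y x hy hyx hx
  obtain ⟨-, -, hT⟩ := hT (X3 s) le_rfl
  obtain ⟨hS0, hS1, -⟩ := hT τ hτ S hS
  obtain ⟨q, H⟩ := τ
  have hτ' := hτ
  simp only [tests3, mem_product, mem_Icc, mem_filter, mem_powerset] at hτ'
  obtain ⟨⟨hq, -⟩, hH, hk, -⟩ := hτ'
  simp only at hS0 hS1 hS ⊢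
  have hD : ∀ b ∈ H, b ≤ s ^ 25 := fun b hb => Nat.lt_succ_iff.1 (mem_range.1 (hH hb))
  have hY : (0 : ℝ) < Y3 s := by exact_mod_cast (Nat.two_pow_pos _ : 0 < Y3 s)
  have hX1 : (1 : ℝ) < X3 s := by
    exact_mod_cast (Nat.one_lt_two_pow (by positivity) : 1 < X3 s)
  have hq' : (1 : ℝ) ≤ q := by exact_mod_cast hq
  have hlog : ∀ t : ℝ, (X3 s : ℝ) ≤ t → 0 < Real.log t ^ H.card := fun t ht =>
    pow_pos (Real.log_pos (hX1.trans_le ht)) _
  have hmono : ∀ t t' : ℝ, (X3 s : ℝ) ≤ t → t ≤ t' → Real.log t ^ H.card ≤ Real.log t' ^ H.card :=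
    fun t t' ht htt => pow_le_pow_left₀ (Real.log_pos (hX1.trans_le ht)).le
      (Real.log_le_log (by linarith) htt) _
  let f : ℝ → ℝ := fun t => S / q * (1 / Real.log t ^ H.card)
  have hf : AntitoneOn f (Set.Ici (X3 s : ℝ)) := fun t ht t' _ htt =>
    mul_le_mul_of_nonneg_left (one_div_le_one_div_of_le (hlog t ht) (hmono t t' ht htt))
      (by positivity)
  have hf0 : ∀ t : ℝ, (X3 s : ℝ) ≤ t → 0 ≤ f t := fun t ht =>
    mul_nonneg (by positivity) (one_div_pos.2 (hlog t ht)).le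
  have hf1 : ∀ t : ℝ, (X3 s : ℝ) ≤ t → f t ≤ 1 := fun t ht => by
    have a1 : S / q ≤ Real.log t ^ H.card :=
      (div_le_self hS0 hq').trans (hS1.trans (hmono _ t le_rfl ht))
    have a2 := hlog t ht
    change S / q * (1 / Real.log t ^ H.card) ≤ 1
    rw [mul_one_div, div_le_one a2]
    exact a1
  have hfl : ∀ z : ℝ, (X3 s : ℝ) ≤ z → ∃ j : ℕ, (T3 s j : ℝ) ≤ z ∧ z < T3 s j + Y3 s := by
    intro z hz
    refine ⟨⌊(z - X3 s) / Y3 s⌋₊, ?_, ?_⟩
    · have := Nat.floor_le (div_nonneg (sub_nonneg.2 hz) hY.le)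
      rw [le_div_iff₀ hY] at this
      unfold T3; push_cast; linarith
    · have := Nat.lt_floor_add_one ((z - X3 s) / Y3 s)
      rw [div_lt_iff₀ hY] at this
      unfold T3; push_cast; linarith
  obtain ⟨j1, a1, a2⟩ := hfl y hy
  obtain ⟨j2, b1, b2⟩ := hfl x (hy.trans hyx)
  have hTT : ∀ j : ℕ, (T3 s j : ℝ) = X3 s + j * Y3 s := fun j => by unfold T3; push_cast; rfl
  have hXT : ∀ j, (X3 s : ℝ) ≤ T3 s j := fun j => by
    exact_mod_cast (Nat.le_add_right _ _ : X3 s ≤ T3 s j)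
  have h12 : j1 ≤ j2 := by
    have : (j1 : ℝ) * Y3 s < (j2 + 1) * Y3 s := by
      rw [hTT] at a1 b2; linarith
    have := lt_of_mul_lt_mul_right this hY.le
    exact Nat.lt_succ_iff.1 (by exact_mod_cast this)
  have h2n : j2 ≤ nb3 s := by
    have : (j2 : ℝ) * Y3 s ≤ nb3 s * Y3 s := by
      rw [← hn, hTT] at hx; rw [hTT] at b1; linarith
    exact_mod_cast le_of_mul_le_mul_right this hY
  have m12 : (T3 s j1 : ℝ) ≤ T3 s j2 := by exact_mod_cast TT_mono s h12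
  -- counts
  have c1 := cnt_add A hq H a1 hyx
  have c2 := cnt_add A hq H m12 b1
  have c3 := cnt_le A hq H (T3 s j1) (Y3 s) a2.le
  have c4 := cnt_le A hq H (T3 s j2) (Y3 s) b2.le
  have c5 : (cnt A q H y x : ℝ) ≤ cnt A q H (T3 s j1) (T3 s j2) + Y3 s := by
    exact_mod_cast (by omega : cnt A q H y x ≤ cnt A q H (T3 s j1) (T3 s j2) + Y3 s)
  have c6 : (cnt A q H (T3 s j1) (T3 s j2) : ℝ) ≤ cnt A q H y x + Y3 s := by
    exact_mod_cast (by omega : cnt A q H (T3 s j1) (T3 s j2) ≤ cnt A q H y x + Y3 s)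
  have c7 : |(cnt A q H (T3 s j1) (T3 s j2) : ℝ) -
      ∑ j ∈ Ico j1 j2, (tup q H (T3 s j + Y3 s) (B j) : ℝ)| ≤
      ((j2 : ℝ) - j1) * (Y3 s * er a s) := by
    rw [cnt_sum s A hq H h12, ← sum_sub_distrib]
    refine (abs_sum_le_sum_abs _ _).trans ?_
    refine (sum_le_card_nsmul _ _ ((Y3 s : ℝ) * er a s) fun j hj => ?_).trans ?_
    · refine (block hB.sub hn hA hq (card_pos.1 hk) hD ((mem_Ico.1 hj).2.trans_le h2n)).trans ?_
      push_cast
      exact small ha hs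
    · rw [Nat.card_Ico, nsmul_eq_mul, Nat.cast_sub h12]
  have d1 := hB.dev (q, H) hτ S hS j1 j2 h12
  simp only at d1
  rw [sum_sub_distrib] at d1
  obtain ⟨r1, r2⟩ := riem s hf h12
  obtain ⟨i1, l1, u1⟩ := int_bd hf (hXT j1) a1
  obtain ⟨i2, -, -⟩ := int_bd hf hy hyx
  obtain ⟨i3, -, -⟩ := int_bd hf (hXT j1) m12
  obtain ⟨i4, l4, u4⟩ := int_bd hf (hXT j2) b1
  have e1 := intervalIntegral.integral_add_adjacent_intervals i1 i2
  have e2 := intervalIntegral.integral_add_adjacent_intervals i3 i4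
  have e3 : S / q * ∫ t in y..x, 1 / Real.log t ^ H.card = ∫ t in y..x, f t :=
    (intervalIntegral.integral_const_mul _ _).symm
  have p1 : 0 ≤ (y - T3 s j1) * f y := mul_nonneg (by linarith) (hf0 y hy)
  have p2 : 0 ≤ (x - T3 s j2) * f x := mul_nonneg (by linarith) (hf0 x (hy.trans hyx))
  have p3 : (y - T3 s j1) * f (T3 s j1) ≤ Y3 s :=
    (mul_le_of_le_one_right (by linarith) (hf1 _ (hXT j1))).trans (by linarith)
  have p4 : (x - T3 s j2) * f (T3 s j2) ≤ Y3 s :=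
    (mul_le_of_le_one_right (by linarith) (hf1 _ (hXT j2))).trans (by linarith)
  have p5 : (Y3 s : ℝ) * (f (T3 s j1) - f (T3 s j2)) ≤ Y3 s :=
    mul_le_of_le_one_right hY.le (by linarith [hf1 _ (hXT j1), hf0 _ (hXT j2)])
  have hj2 : (j2 : ℝ) * Y3 s ≤ x := by
    rw [hTT] at b1; linarith
  have n1 := num hs (hy.trans hyx) hj2
  have w1 : ((j2 : ℝ) - j1) * Y3 s ≤ x - y + Y3 s := by
    rw [hTT] at a2 b1; linarith
  have w0 : 0 ≤ er a s := (Real.exp_pos _).le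
  have w2 : er a s ≤ 1 := Real.exp_le_one_iff.2 (neg_nonpos.2 (by positivity))
  have w3 : ((j2 : ℝ) - j1) * Y3 s * er a s ≤ (x - y) * er a s + Y3 s := by
    refine (mul_le_mul_of_nonneg_right w1 w0).trans ?_
    rw [add_mul]
    exact add_le_add_right (mul_le_of_le_one_right hY.le w2) _
  have w4 : 3 * ((j2 : ℝ) - j1) * Y3 s * er a s = 3 * (((j2 : ℝ) - j1) * Y3 s * er a s) := by ring
  have w5 : ((j2 : ℝ) - j1) * (Y3 s * er a s) = ((j2 : ℝ) - j1) * Y3 s * er a s := by ring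
  have w6 : 4 * (x - y) * er a s = 4 * ((x - y) * er a s) := by ring
  rw [w4] at d1
  rw [w5] at c7
  rw [e3, w6]
  have d2 := abs_le.1 d1
  have c8 := abs_le.1 c7
  change 0 ≤ ∑ j ∈ Ico j1 j2, (Y3 s : ℝ) * (S / q * (1 / Real.log (T3 s j) ^ H.card)) - _ at r1
  change ∑ j ∈ Ico j1 j2, (Y3 s : ℝ) * (S / q * (1 / Real.log (T3 s j) ^ H.card)) - _ ≤ _ at r2
  rw [abs_le]
  constructor <;> linarith [d2.1, d2.2, c8.1, c8.2]

end Pool.Agent.Lib.MP_be93de_nt.Hd
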