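import Pool.Agent.Lib.MP_be93de_nt.Hd.Defs

namespace Pool.Agent.Lib.MP_be93de_nt.Hd

open Finset Filter Pool.Agent.Lib.MP_be93de_nt.Hb
open Pool.Agent.Lib.MP_be93de_nt.Hc (one Cells2St)

namespace Killx

theorem far {x θ : ℝ} (m : ℕ) (hx : 0 < x) (hθ : 0 ≤ θ) (h : θ < |x - 1|) :
    (1 + θ) ^ m ≤ x ^ m + x⁻¹ ^ m := by
  have h1 : 0 ≤ x ^ m := by positivity
  have h2 : 0 ≤ x⁻¹ ^ m := by positivity
  rcases lt_abs.1 h with h | h
  · have := pow_le_pow_left₀ (by linarith) (show 1 + θ ≤ x by linarith) m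
    linarith
  · have h3 : 1 + θ ≤ x⁻¹ := by
      rw [← one_div, le_div_iff₀ hx]
      nlinarith
    have := pow_le_pow_left₀ (by linarith) h3 m
    linarith

open Classical in
theorem share {ι : Type} (I : Finset ι) (hI : I.Nonempty) (φ : ι → ℕ → ℝ) (D m : ℕ) {θ E : ℝ}
    (hθ : 0 ≤ θ) (hp : ∀ i ∈ I, ∀ t, 0 < φ i t)
    (hm : ∀ t, mean I (fun i => φ i t ^ m) ≤ E ∧ mean I (fun i => (φ i t)⁻¹ ^ m) ≤ E) :
    ((I.filter fun i => ∃ t < D, θ < |φ i t - 1|).card : ℝ) * (1 + θ) ^ m ≤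
      D * (2 * E * I.card) := by
  have hc : (0 : ℝ) < I.card := by exact_mod_cast hI.card_pos
  have h0 : ∀ i ∈ I, ∀ t, 0 ≤ φ i t ^ m + (φ i t)⁻¹ ^ m := fun i hi t => by
    have := hp i hi t
    positivity
  calc _ = ∑ _i ∈ I.filter fun i => ∃ t < D, θ < |φ i t - 1|, (1 + θ) ^ m := by
        rw [sum_const, nsmul_eq_mul]
    _ ≤ ∑ i ∈ I.filter fun i => ∃ t < D, θ < |φ i t - 1|,
          ∑ t ∈ range D, (φ i t ^ m + (φ i t)⁻¹ ^ m) := by
        refine sum_le_sum fun i hi => ?_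
        obtain ⟨hi, t, ht, h⟩ := mem_filter.1 hi
        exact (far m (hp i hi t) hθ h).trans
          (single_le_sum (f := fun t => φ i t ^ m + (φ i t)⁻¹ ^ m) (fun t _ => h0 i hi t)
            (mem_range.2 ht))
    _ ≤ ∑ i ∈ I, ∑ t ∈ range D, (φ i t ^ m + (φ i t)⁻¹ ^ m) :=
        sum_le_sum_of_subset_of_nonneg (filter_subset _ _)
          fun i hi _ => sum_nonneg fun t _ => h0 i hi t
    _ ≤ ∑ _t ∈ range D, 2 * E * I.card := by
        rw [sum_comm]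
        refine sum_le_sum fun t _ => ?_
        have h1 := (div_le_iff₀ hc).1 (hm t).1
        have h2 := (div_le_iff₀ hc).1 (hm t).2
        rw [sum_add_distrib]
        linarith
    _ = _ := by rw [sum_const, card_range, nsmul_eq_mul]

theorem cost {ι : Type} (I : Finset ι) (hI : I.Nonempty) (p : ι → Prop) [DecidablePred p]
    (f f' : ι → ℝ) {M : ℝ} (h1 : ∀ i ∈ I, ¬ p i → f' i = f i)
    (h2 : ∀ i ∈ I, |f' i - f i| ≤ M) :
    |mean I f' - mean I f| ≤ (I.filter p).card * M / I.card := by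
  have hc : (0 : ℝ) < I.card := by exact_mod_cast hI.card_pos
  rw [mean, mean, ← sub_div, abs_div, abs_of_pos hc, ← sum_sub_distrib]
  refine div_le_div_of_nonneg_right ((abs_sum_le_sum_abs _ _).trans ?_) hc.le
  rw [← nsmul_eq_mul, ← sum_const, sum_filter]
  refine sum_le_sum fun i hi => ?_
  split_ifs with h
  · exact h2 i hi
  · rw [h1 i hi h, sub_self, abs_zero]

theorem big (C : ℝ) (hC : 0 < C) : ∀ᶠ u : ℕ in atTop, C * (u : ℝ) ^ 25 ≤ 2 ^ u := by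
  have h := (tendsto_pow_const_div_const_pow_of_one_lt 25 (one_lt_two (α := ℝ))).eventually
    (gt_mem_nhds (show (0 : ℝ) < 1 / C by positivity))
  filter_upwards [h] with u hu
  rw [div_lt_div_iff₀ (by positivity) hC] at hu
  linarith

theorem nums {u : ℕ} (hu : 3 ≤ u) : 2 * (u ^ 15) ^ 2 * (u ^ 25 + 1) ≤ u ^ 60 ∧
    2 * u ^ 15 * (u ^ 25 + 1) ≤ u ^ 60 ∧ u + u * u + u ^ 12 ≤ u ^ 13 ∧ u ^ 60 ≤ Y3 u := by
  have h0 : 1 ≤ u := by omega
  have h1 : 1 ≤ u ^ 25 := Nat.one_le_pow _ _ h0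
  have h2 : 3 ^ 5 ≤ u ^ 5 := Nat.pow_le_pow_left hu 5
  have h3 : 2 * (u ^ 15) ^ 2 * (u ^ 25 + 1) ≤ u ^ 60 := by
    calc _ ≤ 2 * (u ^ 15) ^ 2 * (2 * u ^ 25) := Nat.mul_le_mul_left _ (by omega)
      _ = 4 * u ^ 55 := by ring
      _ ≤ u ^ 5 * u ^ 55 := Nat.mul_le_mul_right _ (by omega)
      _ = _ := by ring
  have h4 : u ^ 1 ≤ u ^ 12 := Nat.pow_le_pow_right h0 (by norm_num)
  have h5 : u ^ 2 ≤ u ^ 12 := Nat.pow_le_pow_right h0 (by norm_num)
  refine ⟨h3, le_trans (Nat.mul_le_mul_right _ (Nat.mul_le_mul_left _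
    (Nat.le_self_pow two_ne_zero _))) h3, ?_, ?_⟩
  · have h6 : 3 * u ^ 12 ≤ u * u ^ 12 := Nat.mul_le_mul_right _ hu
    rw [pow_one] at h4
    rw [pow_two] at h5
    rw [show u ^ 13 = u * u ^ 12 by ring]
    omega
  · have h6 : 3 ^ 11 ≤ u ^ 11 := Nat.pow_le_pow_left hu 11
    calc u ^ 60 ≤ (2 ^ u) ^ 60 := Nat.pow_le_pow_left Nat.lt_two_pow_self.le _
      _ = 2 ^ (u * 60) := by rw [← pow_mul]
      _ ≤ _ := Nat.pow_le_pow_right (by norm_num) (by
        rw [show 2 * u ^ 12 = u * (2 * u ^ 11) by ring]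
        exact Nat.mul_le_mul_left _ (by omega))

end Killx

open Killx Classical in
theorem kill_st (h1 : Mert3St) (h2 : FacSt) (h3 : SoftSt) : KillSt := by
  have _ := h2
  filter_upwards [big (12 * Real.exp 40) (by positivity), eventually_ge_atTop 3] with u hb hu
  obtain ⟨n1, n2, n3, n4⟩ := nums hu
  have u1 : (1 : ℝ) ≤ u := by exact_mod_cast (by omega : 1 ≤ u)
  have e1 : 1 ≤ Real.exp 40 := Real.one_le_exp (by norm_num)
  obtain ⟨ι, I, φ, hI, hφ, hK, hm⟩ := h3 (pr (u ^ 60) (Y3 u)) (u ^ 25 + 1) (u ^ 15) (u ^ 60)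
    (by omega) (Nat.one_le_pow _ _ (by omega)) n2
    (fun p hp => (mem_Ioc.1 (mem_filter.1 hp).1).1)
  have hE : Real.exp (2 * ((u ^ 15 : ℕ) : ℝ) ^ 2 * ((u ^ 25 + 1 : ℕ) : ℝ) / ((u ^ 60 : ℕ) : ℝ)) ≤
      3 := by
    refine (Real.exp_le_exp.2 (div_le_one_of_le₀ (by exact_mod_cast n1) (by positivity))).trans ?_
    exact Real.exp_one_lt_three.le
  have hθ : (0 : ℝ) ≤ 1 / (u : ℝ) ^ 2 := by positivity
  have hs := share I hI φ (u ^ 25 + 1) (u ^ 15) hθ (fun i hi t => (hφ i hi t).1)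
    fun t => ⟨(hm t).1.trans hE, (hm t).2.trans hE⟩
  have p12 : (u : ℝ) ^ 12 ≤ (u : ℝ) ^ 25 := pow_le_pow_right₀ u1 (by norm_num)
  have p25 : (1 : ℝ) ≤ (u : ℝ) ^ 25 := one_le_pow₀ u1
  have hB : ∏ p ∈ pr (u ^ 60) (Y3 u), (1 - 1 / (p : ℝ))⁻¹ ≤ 2 ^ u := by
    rw [prod_inv_distrib]
    have a1 := h1.1 0 (u ^ 60)
    have a2 := h1.1 (u ^ 60) (Y3 u)
    have a3 := h1.2.2.1 _ _ n4
    have a4 := (h1.2.2.2 (Y3 u)).2
    have a5 : th 0 (Y3 u) ≤ th (u ^ 60) (Y3 u) := by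
      rw [a3]
      exact mul_le_of_le_one_left a2.1.le a1.2
    have a6 : Real.log (Y3 u) ≤ 2 * (u : ℝ) ^ 12 := by
      rw [Y3, Nat.cast_pow, Real.log_pow]
      push_cast
      exact mul_le_of_le_one_right (by positivity)
        (by have := Real.log_two_lt_d9; linarith)
    refine (inv_anti₀ (h1.1 0 _).1 a5).trans (a4.trans (le_trans ?_ hb))
    rw [mul_comm 12, mul_assoc]
    exact mul_le_mul_of_nonneg_left (by linarith) (by positivity)
  have hp : (2 : ℝ) ^ (u ^ 13) ≤ (1 + 1 / (u : ℝ) ^ 2) ^ (u ^ 15) := by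
    rw [show u ^ 15 = u ^ 2 * u ^ 13 by ring, pow_mul]
    refine pow_le_pow_left₀ (by norm_num) (le_trans (le_of_eq ?_)
      (one_add_mul_le_pow (by linarith) (u ^ 2))) _
    push_cast
    field_simp
    norm_num
  refine ⟨ι, I, fun i t => if ∃ s < u ^ 25 + 1, 1 / (u : ℝ) ^ 2 < |φ i s - 1| then 1 else φ i t,
    hI, fun i hi t => ?_, fun K hc hd => ?_⟩
  · dsimp only
    split_ifs with h
    · simp
    · rw [(hφ i hi t).2.1]
      exact not_lt.1 fun e => h ⟨_, Nat.mod_lt _ (by omega), e⟩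
  · have hc0 : (0 : ℝ) < I.card := by exact_mod_cast hI.card_pos
    have t1 : (1 : ℝ) ≤ 2 ^ u := one_le_pow₀ one_le_two
    rw [psi, ← hK K fun a ha b hb => by have := hd a ha b hb; omega]
    refine (cost I hI (fun i => ∃ s < u ^ 25 + 1, 1 / (u : ℝ) ^ 2 < |φ i s - 1|) _ _
      (M := (2 ^ u) ^ u) (fun i _ h => by simp only [if_neg h]) fun i hi => ?_).trans ?_
    · have t2 : (1 : ℝ) ≤ (2 ^ u) ^ u := one_le_pow₀ t1
      have t3 : 0 ≤ ∏ t ∈ K, φ i t := prod_nonneg fun t _ => (hφ i hi t).1.le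
      have t4 : ∏ t ∈ K, φ i t ≤ (2 ^ u) ^ u := by
        refine (prod_le_prod (g := fun _ => (2 : ℝ) ^ u) (fun t _ => (hφ i hi t).1.le)
          fun t _ => (hφ i hi t).2.2.trans hB).trans ?_
        rw [prod_const]
        exact pow_le_pow_right₀ t1 hc
      dsimp only
      split_ifs with h
      · rw [prod_const_one, abs_le]
        constructor <;> linarith
      · rw [sub_self, abs_zero]
        linarith
    · have t5 : ((u ^ 25 + 1 : ℕ) : ℝ) * (2 * 3 * I.card) ≤ 2 ^ u * I.card := by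
        push_cast
        rw [← mul_assoc]
        refine mul_le_mul_of_nonneg_right (le_trans ?_ hb) hc0.le
        nlinarith
      have t6 := (mul_le_mul_of_nonneg_left hp (Nat.cast_nonneg _)).trans (hs.trans t5)
      have t7 : (2 : ℝ) ^ u * ((2 ^ u) ^ u * 2 ^ (u ^ 12)) ≤ 2 ^ (u ^ 13) := by
        rw [← pow_mul, ← pow_add, ← pow_add, ← add_assoc]
        exact pow_le_pow_right₀ one_le_two n3
      rw [R3, Nat.cast_pow, Nat.cast_ofNat, div_le_div_iff₀ hc0 (by positivity), one_mul, mul_assoc]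
      refine le_of_mul_le_mul_left (a := 2 ^ u) ?_ (by positivity)
      rw [mul_left_comm]
      exact (mul_le_mul_of_nonneg_left t7 (Nat.cast_nonneg _)).trans t6

end Pool.Agent.Lib.MP_be93de_nt.Hd
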