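import Pool.Agent.Lib.MP_be93de_nt.Hd.Defs
import Pool.Agent.Lib.MP_be93de_nt.Hb.Mert

namespace Pool.Agent.Lib.MP_be93de_nt.Hd

open Pool.Agent.Lib.MP_be93de_nt.Hb

theorem mert3_st : Mert3St :=
  ⟨mert_st.1, mert_st.2.1, fun _ _ h => Mertx.th_mul h, fun n => ⟨Mertx.up n, Mertx.low n⟩⟩

end Pool.Agent.Lib.MP_be93de_nt.Hd
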