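import Pool.Agent.Lib.MP_be93de_nt.Hd.Defs

namespace Pool.Agent.Lib.MP_be93de_nt.Hd

open Finset Filter Pool.Agent.Lib.MP_be93de_nt.Hb

namespace Momx

theorem cut {g G : ℝ} (hg : 0 ≤ g) (hG : 0 < G) {k m : ℕ} (h : k ≤ m) :
    0 ≤ g ^ k - min g G ^ k ∧ g ^ k - min g G ^ k ≤ g ^ m * (G ^ k / G ^ m) := by
  rcases le_total g G with h1 | h1
  · rw [min_eq_left h1, sub_self]
    exact ⟨le_rfl, by positivity⟩
  · rw [min_eq_right h1]
    refine ⟨sub_nonneg.2 (pow_le_pow_left₀ hG.le h1 k), ?_⟩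
    obtain ⟨j, rfl⟩ := Nat.exists_eq_add_of_le h
    have e : g ^ (k + j) * (G ^ k / G ^ (k + j)) = g ^ k * (g ^ j / G ^ j) := by
      rw [pow_add, pow_add]
      field_simp
    have h2 : 1 ≤ g ^ j / G ^ j :=
      (one_le_div (pow_pos hG j)).2 (pow_le_pow_left₀ hG.le h1 j)
    have h3 : g ^ k * 1 ≤ g ^ k * (g ^ j / G ^ j) :=
      mul_le_mul_of_nonneg_left h2 (pow_nonneg hg k)
    have h4 : 0 ≤ G ^ k := (pow_pos hG k).le
    rw [e]
    linarith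

theorem big (a : ℕ) (ha : 60 ≤ a) :
    ∀ᶠ u : ℕ in atTop, 2 * (Real.exp 40 * (1 + a * Real.log u)) ≤ u := by
  have ha0 : (0 : ℝ) < a := by exact_mod_cast (by omega : 0 < a)
  have he : 0 < Real.exp 40 := Real.exp_pos _
  have h1 := tendsto_natCast_atTop_atTop.eventually
    (Real.isLittleO_log_id_atTop.bound (c := 1 / (4 * Real.exp 40 * a)) (by positivity))
  have h2 := tendsto_natCast_atTop_atTop.eventually (eventually_ge_atTop (4 * Real.exp 40))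
  filter_upwards [h1, h2] with u h1 h2
  simp only [Real.norm_eq_abs, id, Nat.abs_cast] at h1
  have h3 : Real.log u ≤ 1 / (4 * Real.exp 40 * a) * u := (le_abs_self _).trans h1
  have h4 : 4 * Real.exp 40 * a * Real.log u ≤ u := by
    rw [one_div, inv_mul_eq_div, le_div_iff₀ (by positivity)] at h3
    linarith
  nlinarith

theorem num (u : ℕ) (hu : 3 ≤ u) : 6 * u ^ (u ^ 2) * 2 ^ (u ^ 12) ≤ 2 ^ (u ^ 13) := by
  have h1 : u ^ (u ^ 2) ≤ 2 ^ (u ^ 3) := by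
    calc u ^ (u ^ 2) ≤ (2 ^ u) ^ (u ^ 2) := Nat.pow_le_pow_left Nat.lt_two_pow_self.le _
      _ = 2 ^ (u ^ 3) := by rw [← pow_mul]; congr 1; ring
  have h2 : u ^ 3 ≤ u ^ 12 := Nat.pow_le_pow_right (by omega) (by norm_num)
  have h3 : 3 ≤ u ^ 12 := hu.trans (Nat.le_self_pow (by norm_num) u)
  have h4 : 3 * u ^ 12 ≤ u ^ 13 := by
    rw [pow_succ' u 12]
    exact Nat.mul_le_mul_right _ hu
  calc 6 * u ^ (u ^ 2) * 2 ^ (u ^ 12) ≤ 2 ^ 3 * 2 ^ (u ^ 3) * 2 ^ (u ^ 12) :=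
        Nat.mul_le_mul_right _ (Nat.mul_le_mul (by norm_num) h1)
    _ = 2 ^ (3 + u ^ 3 + u ^ 12) := by rw [pow_add, pow_add]
    _ ≤ 2 ^ (u ^ 13) := Nat.pow_le_pow_right (by norm_num) (by omega)

end Momx

theorem mom_st (h1 : Mert3St) (h2 : FacSt) (h3 : ParetoSt) : MomSt := by
  intro a ha
  filter_upwards [Momx.big a ha, eventually_ge_atTop 3] with u hb hu
  have hu0 : (3 : ℝ) ≤ u := by exact_mod_cast hu
  obtain ⟨hs0, hs1⟩ := h1.1 (u ^ 27) (u ^ a)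
  set σ := th (u ^ 27) (u ^ a) with hσ
  have hQ : ∀ l ∈ pr (u ^ 27) (u ^ a), u ^ 27 < l := fun l hl =>
    (mem_Ioc.1 (mem_filter.1 hl).1).1
  have hm : 2 * u ^ 13 ≤ u ^ 27 := by
    have e : u ^ 27 = u ^ 14 * u ^ 13 := by ring
    rw [e]
    exact Nat.mul_le_mul_right _ ((by omega : 2 ≤ u).trans (Nat.le_self_pow (by norm_num) u))
  have hR : (0 : ℝ) < R3 u := by
    unfold R3
    positivity
  have hR1 : (1 : ℝ) ≤ R3 u := by
    unfold R3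
    exact_mod_cast Nat.one_le_two_pow
  obtain ⟨ι, I, g, hI, hg, hmom⟩ := h3 (pr (u ^ 27) (u ^ a)) (u ^ 13) (1 / (2 * R3 u))
    (by positivity) fun l hl => hm.trans_lt (hQ l hl)
  have hfac : ∀ k ≤ u ^ 13, ∀ l ∈ pr (u ^ 27) (u ^ a),
      0 < 1 - (k : ℝ) / l ∧ 1 - (k : ℝ) / l ≤ 1 := by
    intro k hk l hl
    have h4 : k < l := by
      have := hQ l hl
      omega
    have h5 : (0 : ℝ) < l := by exact_mod_cast (by omega : 0 < l)
    have h6 : (k : ℝ) / l < 1 := (div_lt_one h5).2 (by exact_mod_cast h4)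
    have h7 : 0 ≤ (k : ℝ) / l := by positivity
    exact ⟨by linarith, by linarith⟩
  have hP0 : ∀ k ≤ u ^ 13, 0 < ∏ l ∈ pr (u ^ 27) (u ^ a), (1 - (k : ℝ) / l) := fun k hk =>
    prod_pos fun l hl => (hfac k hk l hl).1
  have hP1 : ∀ k ≤ u ^ 13, ∏ l ∈ pr (u ^ 27) (u ^ a), (1 - (k : ℝ) / l) ≤ 1 := fun k hk =>
    prod_le_one (fun l hl => (hfac k hk l hl).1.le) fun l hl => (hfac k hk l hl).2
  have hinv : ∀ k : ℕ, ∏ l ∈ pr (u ^ 27) (u ^ a), 1 / (1 - (k : ℝ) / l) =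
      1 / ∏ l ∈ pr (u ^ 27) (u ^ a), (1 - (k : ℝ) / l) := fun k => by
    rw [prod_div_distrib, prod_const_one]
  have hsm : 0 < σ ^ (u ^ 13) := pow_pos hs0 _
  have hlow : σ ^ (u ^ 13) / 2 ≤ ∏ l ∈ pr (u ^ 27) (u ^ a), (1 - ((u ^ 13 : ℕ) : ℝ) / l) := by
    have h4 := (h2 (pr (u ^ 27) (u ^ a)) (u ^ 13) (u ^ 27) (Nat.one_le_pow _ _ (by omega))
      (by omega) hQ).1
    rw [prod_div_distrib, prod_pow] at h4
    have h5 : (((u ^ 13 : ℕ) : ℝ)) ^ 2 / ((u ^ 27 : ℕ) : ℝ) = 1 / u := by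
      push_cast
      field_simp
    have h6 : (1 : ℝ) / u ≤ 1 / 2 := one_div_le_one_div_of_le (by norm_num) (by linarith)
    have h7 : (1 : ℝ) / 2 ≤ (∏ l ∈ pr (u ^ 27) (u ^ a), (1 - ((u ^ 13 : ℕ) : ℝ) / l)) /
        σ ^ (u ^ 13) := by
      rw [h5] at h4
      exact le_trans (by linarith) h4
    rw [le_div_iff₀ hsm] at h7
    linarith
  have hη1 : 1 / (2 * (R3 u : ℝ)) ≤ 1 := by
    rw [div_le_one (by positivity)]
    linarith
  have hmm : mean I (fun i => g i ^ (u ^ 13)) ≤ 3 / σ ^ (u ^ 13) := by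
    have h4 := (abs_le.1 (hmom (u ^ 13) le_rfl)).2
    rw [hinv] at h4
    have h5 := one_div_le_one_div_of_le (by positivity) hlow
    have h6 : 1 / (σ ^ (u ^ 13) / 2) = 2 * (1 / σ ^ (u ^ 13)) := by field_simp
    have h7 : 1 ≤ 1 / σ ^ (u ^ 13) := (one_le_div hsm).2 (pow_le_one₀ hs0.le hs1)
    have h8 : 3 / σ ^ (u ^ 13) = 3 * (1 / σ ^ (u ^ 13)) := by field_simp
    linarith
  have hG0 : 0 < 2 / σ := by positivity
  have hGu : 2 / σ ≤ u := by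
    have h4 := h1.2.2.1 (u ^ 27) (u ^ a) (Nat.pow_le_pow_right (by omega) (by omega))
    have h5 := (h1.2.2.2 (u ^ a)).2
    obtain ⟨h6, h7⟩ := h1.1 0 (u ^ 27)
    have h8 : th 0 (u ^ a) ≤ σ := by
      rw [h4]
      exact mul_le_of_le_one_left hs0.le h7
    have h9 : σ⁻¹ ≤ (th 0 (u ^ a))⁻¹ := inv_anti₀ (h1.1 0 (u ^ a)).1 h8
    rw [Nat.cast_pow, Real.log_pow] at h5
    rw [div_eq_mul_inv]
    linarith
  have hc : (0 : ℝ) < I.card := by exact_mod_cast hI.card_pos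
  refine ⟨ι, I, fun i => min (g i) (2 / σ), hI,
    fun i hi => ⟨le_min (hg i hi) hG0.le, (min_le_right _ _).trans hGu⟩, fun k hk => ?_⟩
  have hkm : k ≤ u ^ 13 := hk.trans (Nat.pow_le_pow_right (by omega) (by norm_num))
  have hd : mean I (fun i => g i ^ k) - mean I (fun i => min (g i) (2 / σ) ^ k) =
      (∑ i ∈ I, (g i ^ k - min (g i) (2 / σ) ^ k)) / I.card := by
    rw [mean, mean, sum_sub_distrib, sub_div]
  have e0 : 0 ≤ mean I (fun i => g i ^ k) - mean I (fun i => min (g i) (2 / σ) ^ k) := by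
    rw [hd]
    exact div_nonneg (sum_nonneg fun i hi => (Momx.cut (hg i hi) hG0 hkm).1) hc.le
  have e1 : mean I (fun i => g i ^ k) - mean I (fun i => min (g i) (2 / σ) ^ k) ≤
      mean I (fun i => g i ^ (u ^ 13)) * ((2 / σ) ^ k / (2 / σ) ^ (u ^ 13)) := by
    rw [hd, mean, div_mul_eq_mul_div, sum_mul]
    exact div_le_div_of_nonneg_right
      (sum_le_sum fun i hi => (Momx.cut (hg i hi) hG0 hkm).2) hc.le
  have e2 : mean I (fun i => g i ^ (u ^ 13)) * ((2 / σ) ^ k / (2 / σ) ^ (u ^ 13)) ≤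
      1 / (2 * (R3 u : ℝ)) := by
    refine (mul_le_mul_of_nonneg_right hmm (by positivity)).trans ?_
    have h4 : 3 / σ ^ (u ^ 13) * ((2 / σ) ^ k / (2 / σ) ^ (u ^ 13)) =
        3 * (2 / σ) ^ k / 2 ^ (u ^ 13) := by
      rw [div_pow 2 σ (u ^ 13)]
      field_simp
    have h5 : (2 / σ) ^ k ≤ (u : ℝ) ^ (u ^ 2) :=
      (pow_le_pow_left₀ hG0.le hGu k).trans (pow_le_pow_right₀ (by linarith) hk)
    have h6 : (6 : ℝ) * (u : ℝ) ^ (u ^ 2) * R3 u ≤ 2 ^ (u ^ 13) := by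
      unfold R3
      exact_mod_cast Momx.num u hu
    rw [h4, div_le_div_iff₀ (by positivity) (by positivity)]
    nlinarith
  have e3 := abs_le.1 (hmom k hkm)
  rw [hinv] at e3
  have e4 : |mean I (fun i => min (g i) (2 / σ) ^ k) -
      1 / ∏ l ∈ pr (u ^ 27) (u ^ a), (1 - (k : ℝ) / l)| ≤ 1 / R3 u := by
    have h4 : 1 / (R3 u : ℝ) = 1 / (2 * R3 u) + 1 / (2 * R3 u) := by
      field_simp
      norm_num
    rw [abs_le, h4]
    constructor <;> linarith [e3.1, e3.2]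
  have e5 : mean I (fun i => min (g i) (2 / σ) ^ k) *
      ∏ l ∈ pr (u ^ 27) (u ^ a), (1 - (k : ℝ) / l) - 1 =
      (mean I (fun i => min (g i) (2 / σ) ^ k) -
        1 / ∏ l ∈ pr (u ^ 27) (u ^ a), (1 - (k : ℝ) / l)) *
        ∏ l ∈ pr (u ^ 27) (u ^ a), (1 - (k : ℝ) / l) := by
    rw [sub_mul, one_div_mul_cancel (hP0 k hkm).ne']
  rw [e5, abs_mul, abs_of_pos (hP0 k hkm)]
  exact (mul_le_of_le_one_right (abs_nonneg _) (hP1 k hkm)).trans e4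

end Pool.Agent.Lib.MP_be93de_nt.Hd
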