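import Pool.Agent.Lib.MP_be93de_nt.Hd.Defs

/-! A finite random variable with prescribed product moments, up to a small error. -/

namespace Pool.Agent.Lib.MP_be93de_nt.Hd

open Finset Filter Topology

namespace Paretox

theorem up {t : ℝ} (h0 : 0 ≤ t) (h1 : t ≤ 1) (N : ℕ) :
    t * ∑ j ∈ Icc 1 N, (j : ℝ) ^ (t - 1) ≤ (N : ℝ) ^ t := by
  induction N with
  | zero => simp; positivity
  | succ N ih =>
    rw [sum_Icc_succ_top (by omega), mul_add]
    have hp : (0 : ℝ) < ((N + 1 : ℕ) : ℝ) := by positivity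
    have hs : (-1 : ℝ) ≤ -(1 / ((N + 1 : ℕ) : ℝ)) := by
      rw [neg_le_neg_iff, div_le_one hp]
      exact_mod_cast Nat.succ_le_succ (Nat.zero_le N)
    have hb := rpow_one_add_le_one_add_mul_self hs h0 h1
    have e : (N : ℝ) = ((N + 1 : ℕ) : ℝ) * (1 + -(1 / ((N + 1 : ℕ) : ℝ))) := by
      field_simp
      push_cast
      ring
    have h2 : (N : ℝ) ^ t ≤ ((N + 1 : ℕ) : ℝ) ^ t * (1 + t * -(1 / ((N + 1 : ℕ) : ℝ))) := by
      calc (N : ℝ) ^ t = (((N + 1 : ℕ) : ℝ) * (1 + -(1 / ((N + 1 : ℕ) : ℝ)))) ^ t := by rw [← e]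
        _ = ((N + 1 : ℕ) : ℝ) ^ t * (1 + -(1 / ((N + 1 : ℕ) : ℝ))) ^ t :=
          Real.mul_rpow hp.le (by linarith)
        _ ≤ _ := mul_le_mul_of_nonneg_left hb (Real.rpow_nonneg hp.le _)
    rw [Real.rpow_sub_one hp.ne']
    have h3 : ((N + 1 : ℕ) : ℝ) ^ t * (1 + t * -(1 / ((N + 1 : ℕ) : ℝ))) =
        ((N + 1 : ℕ) : ℝ) ^ t - t * (((N + 1 : ℕ) : ℝ) ^ t / ((N + 1 : ℕ) : ℝ)) := by ring
    linarith

theorem low {t : ℝ} (h0 : 0 ≤ t) (h1 : t ≤ 1) (N : ℕ) :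
    ((N + 1 : ℕ) : ℝ) ^ t - 1 ≤ t * ∑ j ∈ Icc 1 N, (j : ℝ) ^ (t - 1) := by
  induction N with
  | zero => simp
  | succ N ih =>
    rw [sum_Icc_succ_top (by omega), mul_add]
    have hp : (0 : ℝ) < ((N + 1 : ℕ) : ℝ) := by positivity
    have hq : (0 : ℝ) ≤ 1 / ((N + 1 : ℕ) : ℝ) := by positivity
    have hb := rpow_one_add_le_one_add_mul_self (s := 1 / ((N + 1 : ℕ) : ℝ)) (by linarith) h0 h1
    have e : ((N + 1 + 1 : ℕ) : ℝ) = ((N + 1 : ℕ) : ℝ) * (1 + 1 / ((N + 1 : ℕ) : ℝ)) := by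
      field_simp
      push_cast
      ring
    have h2 : ((N + 1 + 1 : ℕ) : ℝ) ^ t ≤
        ((N + 1 : ℕ) : ℝ) ^ t * (1 + t * (1 / ((N + 1 : ℕ) : ℝ))) := by
      rw [e, Real.mul_rpow hp.le (by linarith)]
      exact mul_le_mul_of_nonneg_left hb (Real.rpow_nonneg hp.le _)
    rw [Real.rpow_sub_one hp.ne']
    have h3 : ((N + 1 : ℕ) : ℝ) ^ t * (1 + t * (1 / ((N + 1 : ℕ) : ℝ))) =
        ((N + 1 : ℕ) : ℝ) ^ t + t * (((N + 1 : ℕ) : ℝ) ^ t / ((N + 1 : ℕ) : ℝ)) := by ring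
    linarith

theorem lim {t : ℝ} (h0 : 0 < t) (h1 : t ≤ 1) :
    Tendsto (fun N : ℕ => (∑ j ∈ Icc 1 N, ((j : ℝ) / N) ^ (t - 1)) / N) atTop (𝓝 (1 / t)) := by
  have hz : Tendsto (fun N : ℕ => (1 - (N : ℝ) ^ (-t)) / t) atTop (𝓝 (1 / t)) := by
    have h := (tendsto_rpow_neg_atTop h0).comp tendsto_natCast_atTop_atTop
    have h' := (h.const_sub 1).div_const t
    rw [sub_zero] at h'
    exact h'
  have key : ∀ N : ℕ, 1 ≤ N → (∑ j ∈ Icc 1 N, ((j : ℝ) / N) ^ (t - 1)) / N =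
      (∑ j ∈ Icc 1 N, (j : ℝ) ^ (t - 1)) / (N : ℝ) ^ t := by
    intro N hN
    have hp : (0 : ℝ) < N := by exact_mod_cast hN
    rw [sum_congr rfl fun j _ => Real.div_rpow (Nat.cast_nonneg j) hp.le (t - 1), ← sum_div,
      Real.rpow_sub_one hp.ne', div_div, div_mul_cancel₀ _ hp.ne']
  refine tendsto_of_tendsto_of_tendsto_of_le_of_le' hz tendsto_const_nhds ?_ ?_
  · filter_upwards [eventually_ge_atTop 1] with N hN
    have hp : (0 : ℝ) < N := by exact_mod_cast hN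
    have hr : 0 < (N : ℝ) ^ t := Real.rpow_pos_of_pos hp t
    rw [key N hN, div_le_div_iff₀ h0 hr, Real.rpow_neg hp.le, sub_mul, inv_mul_cancel₀ hr.ne']
    have a := low h0.le h1 N
    have b : (N : ℝ) ^ t ≤ ((N + 1 : ℕ) : ℝ) ^ t :=
      Real.rpow_le_rpow hp.le (by push_cast; linarith) h0.le
    linarith
  · filter_upwards [eventually_ge_atTop 1] with N hN
    have hp : (0 : ℝ) < N := by exact_mod_cast hN
    have hr : 0 < (N : ℝ) ^ t := Real.rpow_pos_of_pos hp t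
    rw [key N hN, div_le_div_iff₀ hr h0]
    have a := up h0.le h1 N
    linarith

theorem mean_eq (Q : Finset ℕ) (N k : ℕ) :
    mean (Fintype.piFinset fun _ : Q => Icc 1 N)
      (fun c => (∏ l : Q, ((c l : ℝ) / N) ^ (-(1 / (l.1 : ℝ)))) ^ k) =
    ∏ l ∈ Q, (∑ j ∈ Icc 1 N, ((j : ℝ) / N) ^ ((1 - (k : ℝ) / l) - 1)) / N := by
  unfold mean
  rw [← prod_coe_sort Q, prod_div_distrib, prod_univ_sum, Fintype.card_piFinset]
  congr 1
  · refine sum_congr rfl fun c _ => ?_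
    beta_reduce
    rw [← prod_pow]
    refine prod_congr rfl fun l _ => ?_
    rw [← Real.rpow_natCast, ← Real.rpow_mul (by positivity)]
    congr 1
    ring
  · simp

end Paretox

theorem pareto_st : ParetoSt := by
  intro Q m η hη hQ
  have h : ∀ k ∈ range (m + 1), ∀ᶠ N : ℕ in atTop,
      |∏ l ∈ Q, (∑ j ∈ Icc 1 N, ((j : ℝ) / N) ^ ((1 - (k : ℝ) / l) - 1)) / N -
        ∏ l ∈ Q, 1 / (1 - (k : ℝ) / l)| ≤ η := by
    intro k hk
    have ht := tendsto_finsetProd Q (fun l hl => Paretox.lim (t := 1 - (k : ℝ) / l) (by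
      have h1 : k < l := by have := hQ l hl; have := mem_range.1 hk; omega
      have h2 : (k : ℝ) < l := by exact_mod_cast h1
      have h3 : (0 : ℝ) < l := lt_of_le_of_lt (Nat.cast_nonneg k) h2
      rw [sub_pos, div_lt_one h3]
      exact h2) (by
      have : (0 : ℝ) ≤ (k : ℝ) / l := by positivity
      linarith))
    filter_upwards [Metric.tendsto_nhds.1 ht η hη] with N hN
    rw [Real.dist_eq] at hN
    exact hN.le
  obtain ⟨N, hN, hN1⟩ := (((eventually_all_finset _).2 h).and (eventually_ge_atTop 1)).exists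
  refine ⟨Q → ℕ, Fintype.piFinset fun _ : Q => Icc 1 N,
    fun c => ∏ l : Q, ((c l : ℝ) / N) ^ (-(1 / (l.1 : ℝ))), ?_, ?_, fun k hk => ?_⟩
  · exact ⟨fun _ => 1, Fintype.mem_piFinset.2 fun _ => mem_Icc.2 ⟨le_rfl, hN1⟩⟩
  · exact fun c _ => prod_nonneg fun l _ => Real.rpow_nonneg (by positivity) _
  · rw [Paretox.mean_eq]
    exact hN k (mem_range.2 (by omega))

end Pool.Agent.Lib.MP_be93de_nt.Hd
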