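import Pool.Agent.Lib.MP_be93de_nt.Hd.Defs

/-! The rank of a twin of the model set is allowed at its level. -/

namespace Pool.Agent.Lib.MP_be93de_nt.Hd

open Finset Pool.Agent.Lib.MP_be93de_nt.Hb

namespace Rank3x

theorem lt_X (i : ℕ) : i < X3 (2 ^ i) := by
  have h1 : i < 2 ^ i := Nat.lt_two_pow_self
  have h2 : 2 ^ i ≤ (2 ^ i) ^ 12 := Nat.le_self_pow (by norm_num) _
  have h3 : 4 * (2 ^ i) ^ 12 < 2 ^ (4 * (2 ^ i) ^ 12) := Nat.lt_two_pow_self
  unfold X3
  omega

theorem sub {e s r : ℕ} {A : Set ℕ} {F : Finset ℕ} (h : StageOK3 e s r F) (hA : Agree3 s A F) {a : ℕ}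
    (ha : a ∈ F) : a ∈ A ∧ X3 s + 3 ≤ a ∧ a < X3 (2 * s) := by
  have := mem_Ico.1 (h.sub ha)
  exact ⟨(hA a (by omega) this.2).2 ha, this⟩

theorem ne {e s r : ℕ} {F : Finset ℕ} (h : StageOK3 e s r F) : F.Nonempty := by
  have h1 := h.big
  have h2 : 0 < X3 s := Nat.two_pow_pos _
  exact card_pos.1 (by omega)

end Rank3x

open Rank3x in
theorem rank3_st : Rank3St := by
  classical
  intro e i0 A hA
  have hinf : A.Infinite := by
    refine Set.infinite_of_forall_exists_gt fun n => ?_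
    obtain ⟨F, h1, h2⟩ := hA.st (max i0 n) (le_max_left _ _)
    obtain ⟨a, ha⟩ := ne h1
    have h3 := sub h1 h2 ha
    have h4 := lt_X (max i0 n)
    have h5 := le_max_right i0 n
    exact ⟨a, h3.1, by omega⟩
  refine ⟨hinf, fun m hm h2 => ?_⟩
  obtain ⟨a, ha⟩ : ∃ a, a = Nat.nth (· ∈ A) (m - 1) := ⟨_, rfl⟩
  rw [← ha] at h2
  have aA : a ∈ A := ha ▸ Nat.nth_mem_of_infinite (p := (· ∈ A)) hinf _
  have cm : ((range (a + 1)).filter (· ∈ A)).card = m := by
    rw [← Nat.count_eq_card_filter_range, Nat.count_succ, if_pos aA, ha,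
      Nat.count_nth_of_infinite (p := (· ∈ A)) hinf]
    omega
  have hex : ∃ j, a < X3 (2 ^ (i0 + j + 1)) := ⟨a, by have := lt_X (i0 + a + 1); omega⟩
  obtain ⟨j, hj, hmin⟩ : ∃ j, a < X3 (2 ^ (i0 + j + 1)) ∧ ∀ k < j, X3 (2 ^ (i0 + k + 1)) ≤ a :=
    ⟨Nat.find hex, Nat.find_spec hex, fun k hk => not_lt.1 (Nat.find_min hex hk)⟩
  have lo : X3 (2 ^ (i0 + j)) ≤ a := by
    rcases j with _ | j
    · exact hA.low a aA
    · exact hmin j (by omega)
  have e2 : ∀ i, 2 * 2 ^ i = 2 ^ (i + 1) := fun i => by ring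
  obtain ⟨F, f1, f2⟩ := hA.st (i0 + j) (by omega)
  have aF : a ∈ F := (f2 a lo (by rw [e2]; exact hj)).1 aA
  have aF2 : a + 2 ∈ F := by
    by_cases h : a + 2 < X3 (2 * 2 ^ (i0 + j))
    · exact (f2 _ (by omega) h).1 h2
    · obtain ⟨F', g1, g2⟩ := hA.st (i0 + j + 1) (by omega)
      obtain ⟨b, hb⟩ := ne g1
      have h3 := sub g1 g2 hb
      rw [e2] at h
      have h4 := sub g1 g2 ((g2 _ (by omega) (by omega)).1 h2)
      omega
  have er : {b ∈ A | b < X3 (2 ^ (i0 + j))}.ncard =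
      ((range (X3 (2 ^ (i0 + j)))).filter (· ∈ A)).card := by
    rw [← Set.ncard_coe_finset]
    congr 1
    ext b
    simp [and_comm]
  have em : ((range (X3 (2 ^ (i0 + j)))).filter (· ∈ A)).card + (F.filter (· ≤ a)).card = m := by
    rw [← cm, ← card_union_of_disjoint]
    · congr 1
      ext b
      simp only [mem_union, mem_filter, mem_range]
      constructor
      · rintro (h | h)
        · exact ⟨by omega, h.2⟩
        · exact ⟨by omega, (sub f1 f2 h.1).1⟩
      · rintro ⟨h, h'⟩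
        by_cases k : b < X3 (2 ^ (i0 + j))
        · exact Or.inl ⟨k, h'⟩
        · exact Or.inr ⟨(f2 b (by omega) (by rw [e2]; omega)).1 h', by omega⟩
    · refine disjoint_left.2 fun b h h' => ?_
      have k1 := mem_range.1 (mem_filter.1 h).1
      have k2 := sub f1 f2 (mem_filter.1 h').1
      omega
  refine ⟨i0 + j, by omega, ?_, ?_, ?_⟩
  · have := f1.good a aF aF2
    rwa [er, em] at this
  · have := card_filter_le (range (a + 1)) (· ∈ A)
    rw [card_range] at this
    omega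
  · rcases j with _ | j
    · exact Or.inl rfl
    · right
      obtain ⟨F', g1, g2⟩ := hA.st (i0 + j) (by omega)
      have k1 : F' ⊆ (range (X3 (2 ^ (i0 + (j + 1))))).filter (· ∈ A) := fun b hb => by
        have := sub g1 g2 hb
        rw [e2] at this
        exact mem_filter.2 ⟨mem_range.2 this.2.2, this.1⟩
      have k2 := card_le_card k1
      have k3 := g1.big
      rw [show i0 + (j + 1) - 1 = i0 + j by omega]
      omega

end Pool.Agent.Lib.MP_be93de_nt.Hd
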