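import Pool.Agent.Lib.MP_be93de_nt.Hd.Defs

/-! The singular series exists and is close to its truncation times the middle factor. -/

namespace Pool.Agent.Lib.MP_be93de_nt.Hd

open Finset Filter Topology Pool.Agent.Lib.MP_be93de_nt.Hb

namespace Sing3x

theorem nu_eq {q p : ℕ} {H : Finset ℕ} (hp : p.Prime) (h1 : 1 ≤ q) (h2 : q < p)
    (hH : ∀ b ∈ H, b < p) : nu q H p = H.card := by
  have := Fact.mk hp
  have hq : (q : ZMod p) ≠ 0 := fun h =>
    absurd (Nat.le_of_dvd h1 ((ZMod.natCast_eq_zero_iff q p).1 h)) (not_le.2 h2)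
  refine card_bij (fun m _ => (-((q : ZMod p) * m)).val) (fun m hm => ?_) (fun m hm m' hm' h => ?_)
    fun b hb => ?_
  · obtain ⟨b, hb, h⟩ := (mem_filter.1 hm).2
    have h3 := (ZMod.natCast_eq_zero_iff _ p).2 h
    push_cast at h3
    rwa [neg_eq_of_add_eq_zero_right h3, ZMod.val_cast_of_lt (hH b hb)]
  · have h3 := mul_left_cancel₀ hq (neg_injective (ZMod.val_injective p h))
    have h4 := congrArg ZMod.val h3
    rwa [ZMod.val_cast_of_lt (mem_range.1 (mem_filter.1 hm).1),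
      ZMod.val_cast_of_lt (mem_range.1 (mem_filter.1 hm').1)] at h4
  · have e : (q : ZMod p) * ((-(b : ZMod p) / q).val : ℕ) = -b := by
      rw [ZMod.natCast_zmod_val]; field_simp
    refine ⟨(-(b : ZMod p) / q).val, mem_filter.2 ⟨mem_range.2 (ZMod.val_lt _), b, hb, ?_⟩, ?_⟩
    · rw [← ZMod.natCast_eq_zero_iff]
      push_cast
      rw [e, neg_add_cancel]
    · show (-((q : ZMod p) * ((-(b : ZMod p) / q).val : ℕ))).val = b
      rw [e, neg_neg, ZMod.val_cast_of_lt (hH b hb)]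

theorem mem_pr {a b p : ℕ} : p ∈ pr a b ↔ a < p ∧ p ≤ b ∧ p.Prime := by
  simp [pr, and_assoc]

theorem th_pos (a b : ℕ) : 0 < th a b := by
  refine prod_pos fun p hp => sub_pos.2 ?_
  have : (1 : ℝ) < p := by exact_mod_cast (mem_pr.1 hp).2.2.one_lt
  exact (div_lt_one (by linarith)).2 this

theorem split {w n : ℕ} (h : w ≤ n) (f : ℕ → ℝ) :
    ∏ p ∈ (range (n + 1)).filter Nat.Prime, f p = (∏ p ∈ pr 0 w, f p) * ∏ p ∈ pr w n, f p := by
  rw [← prod_union (disjoint_left.2 fun p h1 h2 => by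
    have := mem_pr.1 h1; have := mem_pr.1 h2; omega)]
  refine prod_congr ?_ fun _ _ => rfl
  ext p
  simp only [mem_filter, mem_range, mem_union, mem_pr]
  constructor
  · rintro ⟨h1, h2⟩
    have := h2.pos
    rcases le_or_gt p w with h3 | h3
    exacts [Or.inl ⟨this, h3, h2⟩, Or.inr ⟨h3, by omega, h2⟩]
  · rintro (⟨-, h1, h2⟩ | ⟨-, h1, h2⟩)
    exacts [⟨by omega, h2⟩, ⟨by omega, h2⟩]

theorem fac_mem (q : ℕ) (H : Finset ℕ) {p : ℕ} (hp : 0 < p) :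
    0 ≤ 1 - (nu q H p : ℝ) / p ∧ 1 - (nu q H p : ℝ) / p ≤ 1 := by
  have h1 : nu q H p ≤ p := (card_filter_le _ _).trans (card_range p).le
  have h2 : (nu q H p : ℝ) ≤ p := by exact_mod_cast h1
  have h3 : (0 : ℝ) < p := by exact_mod_cast hp
  exact ⟨sub_nonneg.2 ((div_le_one h3).2 h2), sub_le_self _ (by positivity)⟩

theorem split2 {w W n : ℕ} (h : w ≤ W) (h' : W ≤ n) (f : ℕ → ℝ) :
    ∏ p ∈ pr w n, f p = (∏ p ∈ pr w W, f p) * ∏ p ∈ pr W n, f p := by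
  rw [← prod_union (disjoint_left.2 fun p h1 h2 => by
    have := mem_pr.1 h1; have := mem_pr.1 h2; omega)]
  refine prod_congr ?_ fun _ _ => rfl
  ext p
  simp only [mem_union, mem_pr]
  constructor
  · rintro ⟨h1, h2, h3⟩
    rcases le_or_gt p W with h4 | h4
    exacts [Or.inl ⟨h1, h4, h3⟩, Or.inr ⟨h4, h2, h3⟩]
  · rintro (⟨h1, h2, h3⟩ | ⟨h1, h2, h3⟩)
    exacts [⟨h1, by omega, h3⟩, ⟨by omega, h2, h3⟩]

theorem w_le (u : ℕ) : u ^ 60 ≤ Y3 u := by
  unfold Y3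
  rcases Nat.lt_or_ge u 2 with h | h
  · have h1 : u ^ 60 ≤ 1 := pow_le_one₀ (Nat.zero_le u) (by omega)
    exact h1.trans Nat.one_le_two_pow
  · have h1 : u ^ 60 ≤ (2 ^ u) ^ 60 := Nat.pow_le_pow_left Nat.lt_two_pow_self.le 60
    rw [← pow_mul] at h1
    refine h1.trans (Nat.pow_le_pow_right two_pos ?_)
    have h2 : 2 ^ 11 ≤ u ^ 11 := Nat.pow_le_pow_left h 11
    have h3 : u ^ 12 = u * u ^ 11 := by ring
    have h4 : u * 2 ^ 11 ≤ u * u ^ 11 := Nat.mul_le_mul_left u h2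
    omega

end Sing3x

theorem sing3_st (h : FacSt) : Sing3St := by
  intro u
  have hpsi : ∀ k ≤ u, 0 ≤ psi u k ∧ psi u k ≤ 1 := by
    intro k hk
    rcases Nat.eq_zero_or_pos u with rfl | hu
    · obtain rfl : k = 0 := by omega
      simp [psi]
    · exact (h (pr (u ^ 60) (Y3 u)) k (u ^ 60) (Nat.one_le_pow _ _ hu)
        (hk.trans (Nat.le_self_pow (by norm_num) u)) fun p hp => (Sing3x.mem_pr.1 hp).1).2
  refine ⟨hpsi, ?_⟩
  rintro ⟨q, H⟩ hτ
  simp only [tests3, mem_product, mem_Icc, mem_filter, mem_powerset] at hτ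
  obtain ⟨⟨q1, q2⟩, hH, k1, k2⟩ := hτ
  simp only
  have hu : 0 < u := by omega
  have hwW := Sing3x.w_le u
  have hps := hpsi _ k2
  have hpe : psi u H.card = ∏ p ∈ pr (u ^ 60) (Y3 u),
      (1 - (H.card : ℝ) / p) / (1 - 1 / (p : ℝ)) ^ H.card := rfl
  have w1 : u ^ 25 ≤ u ^ 60 := Nat.pow_le_pow_right hu (by norm_num)
  have w2 : H.card ≤ u ^ 60 := k2.trans (Nat.le_self_pow (by norm_num) u)
  generalize psi u H.card = ψ at hps hpe ⊢
  generalize Y3 u = W at hwW hpe ⊢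
  generalize u ^ 60 = w at hwW hpe w1 w2 ⊢
  generalize u ^ 25 = v at q2 hH w1
  have w0 : 1 ≤ w := k1.trans w2
  set k := H.card with hk
  set Pw := ∏ p ∈ pr 0 w, (1 - (nu q H p : ℝ) / p) with hPw
  set t : ℕ → ℝ := fun n => ∏ p ∈ pr W n, (1 - (k : ℝ) / p) / (1 - 1 / (p : ℝ)) ^ k with ht
  have hth : 0 < th 0 w ^ k := pow_pos (Sing3x.th_pos 0 w) k
  have P0 : 0 ≤ Pw := prod_nonneg fun p hp => (Sing3x.fac_mem q H (Sing3x.mem_pr.1 hp).1).1
  have P1 : Pw ≤ 1 := prod_le_one (fun p hp => (Sing3x.fac_mem q H (Sing3x.mem_pr.1 hp).1).1)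
    fun p hp => (Sing3x.fac_mem q H (Sing3x.mem_pr.1 hp).1).2
  have Q0 : 0 ≤ Pw * ψ := mul_nonneg P0 hps.1
  have Q1 : Pw * ψ ≤ 1 := mul_le_one₀ P1 hps.1 hps.2
  have hT := fun n => h (pr W n) k W (w0.trans hwW) (w2.trans hwW)
    fun p hp => (Sing3x.mem_pr.1 hp).1
  have key : ∀ᶠ n in atTop, ∏ p ∈ (range (n + 1)).filter Nat.Prime,
      (1 - (nu q H p : ℝ) / p) / (1 - 1 / (p : ℝ)) ^ k = Pw * ψ / th 0 w ^ k * t n := by
    filter_upwards [eventually_ge_atTop W] with n hn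
    have e : ∏ p ∈ pr w n, (1 - (nu q H p : ℝ) / p) / (1 - 1 / (p : ℝ)) ^ k = ψ * t n := by
      rw [hpe, ← Sing3x.split2 hwW hn]
      refine prod_congr rfl fun p hp => ?_
      obtain ⟨h1, -, h2⟩ := Sing3x.mem_pr.1 hp
      rw [Sing3x.nu_eq h2 q1 (by omega) fun b hb => by have := mem_range.1 (hH hb); omega]
    rw [Sing3x.split (hwW.trans hn), e, prod_div_distrib, prod_pow]
    show Pw / th 0 w ^ k * (ψ * t n) = _
    ring
  have anti : Antitone t := by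
    intro a b hab
    have hs : pr W a ⊆ pr W b := fun p hp => by
      obtain ⟨h1, h2, h3⟩ := Sing3x.mem_pr.1 hp
      exact Sing3x.mem_pr.2 ⟨h1, h2.trans hab, h3⟩
    have h2 := h (pr W b \ pr W a) k W (w0.trans hwW) (w2.trans hwW)
      fun p hp => (Sing3x.mem_pr.1 (mem_sdiff.1 hp).1).1
    simp only [ht]
    rw [← prod_sdiff hs]
    exact mul_le_of_le_one_left (hT a).2.1 h2.2.2
  refine ⟨⟨Pw * ψ / th 0 w ^ k * ⨅ n, t n, ?_⟩, fun S hS => ?_⟩
  · have h1 := (tendsto_atTop_ciInf anti ⟨0, by rintro _ ⟨n, rfl⟩; exact (hT n).2.1⟩).const_mul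
      (Pw * ψ / th 0 w ^ k)
    exact (tendsto_add_atTop_iff_nat 1).1 (h1.congr' (key.mono fun n hn => hn.symm))
  · have h1 := (((tendsto_add_atTop_iff_nat 1).2 hS).congr' key).mul_const (th 0 w ^ k)
    have h2 : Tendsto (fun n => Pw * ψ * t n) atTop (𝓝 (S * th 0 w ^ k)) :=
      h1.congr fun n => by field_simp
    have h3 : S * th 0 w ^ k ≤ Pw * ψ :=
      le_of_tendsto' h2 fun n => mul_le_of_le_one_right Q0 (hT n).2.2
    have h4 : 0 ≤ S * th 0 w ^ k := ge_of_tendsto' h2 fun n => mul_nonneg Q0 (hT n).2.1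
    have h6 : (k : ℝ) ^ 2 / W ≤ (u : ℝ) ^ 2 / W := by
      have : (k : ℝ) ≤ u := by exact_mod_cast k2
      gcongr
    have h7 : Pw * ψ * ((k : ℝ) ^ 2 / W) ≤ (k : ℝ) ^ 2 / W :=
      mul_le_of_le_one_left (by positivity) Q1
    have h8 : Pw * ψ - (u : ℝ) ^ 2 / W ≤ S * th 0 w ^ k := ge_of_tendsto' h2 fun n => by
      have h5 := mul_le_mul_of_nonneg_left (hT n).1 Q0
      simp only [ht]
      linarith
    have h9 : 0 ≤ (u : ℝ) ^ 2 / W := by positivity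
    exact ⟨nonneg_of_mul_nonneg_left h4 hth, h3.trans Q1, abs_le.2 ⟨by linarith, by linarith⟩⟩

end Pool.Agent.Lib.MP_be93de_nt.Hd
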