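import Pool.Agent.Lib.MP_be93de_nt.Hd.Defs

/-! The rank neutral tilt of the weights of one cell, weighted form. -/

namespace Pool.Agent.Lib.MP_be93de_nt.Hd

open Finset Pool.Agent.Lib.MP_be93de_nt.Hb

namespace Tilt2x

noncomputable section

/-- ranks inside `π` of the lower members of its twins -/
def JJ (π : Finset ℕ) : Finset ℕ := (tw π).image (fun a => (π.filter (· ≤ a)).card)

/-- patterns of size `n` with a twin -/
def WW (c : Finset ℕ) (n : ℕ) : Finset (Finset ℕ) :=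
  (powersetCard n c).filter (fun π => (tw π).Nonempty)

/-- patterns of size `n` without a twin -/
def ZZ (c : Finset ℕ) (n : ℕ) : Finset (Finset ℕ) :=
  (powersetCard n c).filter (fun π => ¬ (tw π).Nonempty)

def al (c : Finset ℕ) (b : Finset ℕ → ℝ) (π J : Finset ℕ) : ℝ :=
  if (tw π).Nonempty then (if J = JJ π then 1 else 0)
  else (if J = ∅ then 1 + (∑ π' ∈ WW c π.card, b π') / ∑ π' ∈ ZZ c π.card, b π' else 0) -
    (∑ π' ∈ (WW c π.card).filter (fun π' => JJ π' = J), b π') / ∑ π' ∈ ZZ c π.card, b π'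

lemma JJ_sub (π : Finset ℕ) : JJ π ⊆ Icc 1 π.card := by
  intro j hj
  obtain ⟨a, ha, rfl⟩ := mem_image.1 hj
  have ha' : a ∈ π := (mem_filter.1 ha).1
  refine mem_Icc.2 ⟨?_, card_filter_le _ _⟩
  exact card_pos.2 ⟨a, mem_filter.2 ⟨ha', le_rfl⟩⟩

lemma ind_mem (P : ℕ → Prop) {g : ℝ} (hg : 0 ≤ g) (r : ℕ) : 0 ≤ ind P g r ∧ ind P g r ≤ g := by
  by_cases h : P r
  · rw [ind_pos h]; exact ⟨hg, le_rfl⟩
  · rw [ind_neg h]; exact ⟨le_rfl, hg⟩

lemma G_nonneg (P : ℕ → Prop) {g : ℝ} (hg : 0 ≤ g) (J : Finset ℕ) (r : ℕ) : 0 ≤ G P g J r :=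
  prod_nonneg fun _ _ => (ind_mem P hg _).1

lemma G_le (P : ℕ → Prop) {g gm : ℝ} (hg : 0 ≤ g) (h1 : g ≤ gm) (h2 : 1 ≤ gm) (π : Finset ℕ)
    (r : ℕ) : G P g (JJ π) r ≤ gm ^ (tw π).card := by
  have h3 : G P g (JJ π) r ≤ ∏ _j ∈ JJ π, gm :=
    prod_le_prod (fun _ _ => (ind_mem P hg _).1) fun _ _ => (ind_mem P hg _).2.trans h1
  rw [prod_const] at h3
  exact h3.trans (pow_le_pow_right₀ h2 card_image_le)

lemma G_empty (P : ℕ → Prop) (g : ℝ) (r : ℕ) : G P g ∅ r = 1 := by simp [G]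

lemma fib (c : Finset ℕ) (b : Finset ℕ → ℝ) (n : ℕ) (F : Finset ℕ → ℝ) :
    ∑ J ∈ (Icc 1 n).powerset, (∑ π' ∈ (WW c n).filter (fun π' => JJ π' = J), b π') * F J =
      ∑ π' ∈ WW c n, b π' * F (JJ π') := by
  have hm : ∀ π' ∈ WW c n, JJ π' ∈ (Icc 1 n).powerset := by
    intro π' h
    have h2 : π'.card = n := (mem_powersetCard.1 (mem_filter.1 h).1).2
    rw [mem_powerset, ← h2]
    exact JJ_sub π'
  rw [← sum_fiberwise_of_maps_to hm]
  refine sum_congr rfl fun J _ => ?_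
  rw [sum_mul]
  exact sum_congr rfl fun π' h => by rw [(mem_filter.1 h).2]

lemma al_tw {c : Finset ℕ} {b : Finset ℕ → ℝ} {π : Finset ℕ} (h2 : (tw π).Nonempty)
    (F : Finset ℕ → ℝ) :
    ∑ J ∈ (Icc 1 π.card).powerset, al c b π J * F J = F (JJ π) := by
  simp only [al, if_pos h2, ite_mul, one_mul, zero_mul]
  rw [sum_ite_eq', if_pos (mem_powerset.2 (JJ_sub π))]

lemma al_no {c : Finset ℕ} {b : Finset ℕ → ℝ} {π : Finset ℕ} (h2 : ¬ (tw π).Nonempty)
    (F : Finset ℕ → ℝ) :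
    ∑ J ∈ (Icc 1 π.card).powerset, al c b π J * F J =
      (1 + (∑ π' ∈ WW c π.card, b π') / ∑ π' ∈ ZZ c π.card, b π') * F ∅ -
        (∑ π' ∈ WW c π.card, b π' * F (JJ π')) / ∑ π' ∈ ZZ c π.card, b π' := by
  simp only [al, if_neg h2, sub_mul, ite_mul, zero_mul]
  rw [sum_sub_distrib, sum_ite_eq', if_pos (mem_powerset.2 (empty_subset _)), ← fib c b π.card F,
    sum_div (Icc 1 π.card).powerset]
  congr 1
  refine sum_congr rfl fun J _ => ?_
  ring

lemma al_abs {c : Finset ℕ} {b : Finset ℕ → ℝ} {π : Finset ℕ} (hb : ∀ π, 0 ≤ b π)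
    (hW : ∑ π' ∈ WW c π.card, b π' ≤ ∑ π' ∈ ZZ c π.card, b π') :
    ∑ J ∈ (Icc 1 π.card).powerset, |al c b π J| ≤ 3 := by
  by_cases h2 : (tw π).Nonempty
  · have : ∀ J, |al c b π J| = al c b π J * 1 := by
      intro J
      simp only [al, if_pos h2]
      split_ifs <;> simp
    rw [sum_congr rfl fun J _ => this J, al_tw h2]
    norm_num
  have hs : ∀ S : Finset (Finset ℕ), 0 ≤ ∑ π' ∈ S, b π' := fun S => sum_nonneg fun _ _ => hb _
  have hq : (∑ π' ∈ WW c π.card, b π') / ∑ π' ∈ ZZ c π.card, b π' ≤ 1 :=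
    div_le_one_of_le₀ hW (hs _)
  have hq0 : 0 ≤ (∑ π' ∈ WW c π.card, b π') / ∑ π' ∈ ZZ c π.card, b π' := div_nonneg (hs _) (hs _)
  have : ∀ J, |al c b π J| ≤
      (if J = ∅ then 1 + (∑ π' ∈ WW c π.card, b π') / ∑ π' ∈ ZZ c π.card, b π' else 0) +
        (∑ π' ∈ (WW c π.card).filter (fun π' => JJ π' = J), b π') *
          (1 / ∑ π' ∈ ZZ c π.card, b π') := by
    intro J
    simp only [al, if_neg h2]
    refine (abs_sub _ _).trans (le_of_eq ?_)
    rw [abs_of_nonneg, abs_of_nonneg (div_nonneg (hs _) (hs _))]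
    · ring
    · split_ifs
      · linarith
      · exact le_rfl
  refine (sum_le_sum fun J _ => this J).trans ?_
  rw [sum_add_distrib, sum_ite_eq', if_pos (mem_powerset.2 (empty_subset _)),
    fib c b π.card (fun _ => 1 / ∑ π' ∈ ZZ c π.card, b π'), ← sum_mul, mul_one_div]
  linarith

/-- the tilted law -/
def pp (P : ℕ → Prop) (g : ℝ) (c : Finset ℕ) (b : Finset ℕ → ℝ) (r : ℕ) (π : Finset ℕ) : ℝ :=
  if π ⊆ c then b π * ∑ J ∈ (Icc 1 π.card).powerset, al c b π J * G P g J r else 0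

end

end Tilt2x

open Tilt2x in
theorem tilt2_st (h : RareSt) : Tilt2St := by
  intro P c ι I g gm ρ nm b h3 hgm hg hc hb hβ
  have b0 := hb.nonneg
  have hs : ∀ S : Finset (Finset ℕ), 0 ≤ ∑ π' ∈ S, b π' := fun S => sum_nonneg fun _ _ => b0 _
  have hadd : ∀ (n : ℕ) (f : Finset ℕ → ℝ),
      ∑ π ∈ powersetCard n c, f π = ∑ π ∈ WW c n, f π + ∑ π ∈ ZZ c n, f π := fun n f =>
    (sum_filter_add_sum_filter_not (powersetCard n c) (fun π => (tw π).Nonempty) f).symm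
  have hN : ∀ n, ∑ π ∈ WW c n, b π ≤ ∑ π ∈ WW c n, b π * gm ^ (tw π).card := fun n =>
    sum_le_sum fun π _ => le_mul_of_one_le_right (b0 π) (one_le_pow₀ hgm)
  have hR : ∀ n, ∑ π ∈ WW c n, b π * gm ^ (tw π).card ≤ ∑ π ∈ ZZ c n, b π := by
    intro n
    by_cases hn : nm < n
    · refine le_trans (le_of_eq (sum_eq_zero fun π hπ => ?_)) (hs _)
      rw [hb.trunc π (by rw [(mem_powersetCard.1 (mem_filter.1 hπ).1).2]; exact hn), zero_mul]
    obtain ⟨β0, hβ0⟩ := hβ n (not_lt.1 hn)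
    have hβ1 : ∀ π ∈ powersetCard n c, max β0 0 / 4 ≤ b π ∧ b π ≤ max β0 0 := by
      intro π hπ
      obtain ⟨a1, a2⟩ := hβ0 π (mem_powersetCard.1 hπ).1 (mem_powersetCard.1 hπ).2
      have a3 : max β0 0 ≤ 4 * b π := max_le (by linarith) (by linarith [b0 π])
      exact ⟨by linarith, a2.trans (le_max_left _ _)⟩
    have β0' : 0 ≤ max β0 0 := le_max_right _ _
    generalize max β0 0 = β at hβ1 β0'
    have g0 : 0 ≤ gm := by linarith
    have a1 : ∑ π ∈ WW c n, (4 * gm) ^ (tw π).card ≤ (c.card.choose n : ℝ) / 2 := by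
      refine h c (4 * gm) n h3 (by linarith) (le_trans ?_ hc)
      have : (n : ℝ) ≤ nm := by exact_mod_cast not_lt.1 hn
      calc 3 * (4 * gm) * (n : ℝ) ^ 2 = 12 * gm * (n : ℝ) ^ 2 := by ring
        _ ≤ 12 * gm * (nm : ℝ) ^ 2 := by gcongr
    have a2 : 4 * ∑ π ∈ WW c n, b π * gm ^ (tw π).card ≤
        β * ∑ π ∈ WW c n, (4 * gm) ^ (tw π).card := by
      rw [mul_sum, mul_sum]
      refine sum_le_sum fun π hπ => ?_
      have e1 : (4 : ℝ) ≤ 4 ^ (tw π).card :=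
        le_self_pow₀ (by norm_num) (card_pos.2 (mem_filter.1 hπ).2).ne'
      have e2 := (hβ1 π (mem_filter.1 hπ).1).2
      have e3 := b0 π
      calc 4 * (b π * gm ^ (tw π).card) = b π * (4 * gm ^ (tw π).card) := by ring
        _ ≤ β * (4 ^ (tw π).card * gm ^ (tw π).card) := by gcongr
        _ = β * (4 * gm) ^ (tw π).card := by rw [mul_pow]
    have a3 : (c.card.choose n : ℝ) * (β / 4) ≤ ∑ π ∈ powersetCard n c, b π := by
      have := card_nsmul_le_sum (powersetCard n c) b (β / 4) fun π hπ => (hβ1 π hπ).1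
      rwa [card_powersetCard, nsmul_eq_mul] at this
    have a4 := mul_le_mul_of_nonneg_left a1 β0'
    have a5 := hN n
    rw [hadd] at a3
    linarith
  have hS : ∀ i ∈ I, ∀ n r, ∑ π ∈ WW c n, b π * G P (g i) (JJ π) r ≤ ∑ π ∈ ZZ c n, b π :=
    fun i hi n r => (sum_le_sum fun π _ => mul_le_mul_of_nonneg_left
      (G_le P (hg i hi).1 (hg i hi).2 hgm π r) (b0 π)).trans (hR n)
  have hW : ∀ n, ∑ π ∈ WW c n, b π ≤ ∑ π ∈ ZZ c n, b π := fun n => (hN n).trans (hR n)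
  have hneu : ∀ i ∈ I, ∀ r n, ∑ π ∈ powersetCard n c, pp P (g i) c b r π =
      ∑ π ∈ powersetCard n c, b π := by
    intro i hi r n
    have e2 : ∑ π ∈ WW c n, pp P (g i) c b r π = ∑ π ∈ WW c n, b π * G P (g i) (JJ π) r := by
      refine sum_congr rfl fun π hπ => ?_
      obtain ⟨h0, h4⟩ := mem_filter.1 hπ
      simp only [pp, if_pos (mem_powersetCard.1 h0).1]
      rw [al_tw h4]
    have e3 : ∑ π ∈ ZZ c n, pp P (g i) c b r π = (∑ π ∈ ZZ c n, b π) *
        ((1 + (∑ π' ∈ WW c n, b π') / ∑ π' ∈ ZZ c n, b π') -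
          (∑ π' ∈ WW c n, b π' * G P (g i) (JJ π') r) / ∑ π' ∈ ZZ c n, b π') := by
      rw [sum_mul]
      refine sum_congr rfl fun π hπ => ?_
      obtain ⟨h0, h4⟩ := mem_filter.1 hπ
      obtain ⟨h1, h2⟩ := mem_powersetCard.1 h0
      simp only [pp, if_pos h1]
      rw [al_no h4, h2, G_empty, mul_one]
    rw [hadd, hadd, e2, e3]
    by_cases hz : ∑ π ∈ ZZ c n, b π = 0
    · have hw : ∑ π ∈ WW c n, b π = 0 := le_antisymm (hz ▸ hW n) (hs _)
      have hw' : ∑ π ∈ WW c n, b π * G P (g i) (JJ π) r = 0 :=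
        le_antisymm (hz ▸ hS i hi n r)
          (sum_nonneg fun π _ => mul_nonneg (b0 π) (G_nonneg P (hg i hi).1 _ _))
      rw [hz, hw, hw', zero_mul]
    · field_simp
      ring
  refine ⟨fun i => pp P (g i) c b, fun i hi => ⟨?_, ?_, ?_⟩, b, al c b, hb, hneu, ?_⟩
  · intro r π
    show 0 ≤ pp P (g i) c b r π
    unfold pp
    split_ifs with h1
    · refine mul_nonneg (b0 _) ?_
      by_cases h2 : (tw π).Nonempty
      · rw [al_tw h2]; exact G_nonneg P (hg i hi).1 _ _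
      rw [al_no h2, G_empty, mul_one]
      have h7 := div_le_one_of_le₀ (hS i hi π.card r) (hs _)
      have h8 := div_nonneg (hs (WW c π.card)) (hs (ZZ c π.card))
      linarith
    · exact le_rfl
  · intro r
    rw [sum_powerset, sum_congr rfl fun n _ => hneu i hi r n, ← sum_powerset c b]
    exact hb.total
  · intro r π h1 hp a ha ha2
    have h2 : (tw π).Nonempty := ⟨a, mem_filter.2 ⟨ha, ha2⟩⟩
    simp only [pp, if_pos h1] at hp
    rw [al_tw h2] at hp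
    by_contra hP
    refine hp (mul_eq_zero_of_right _ ?_)
    exact prod_eq_zero (mem_image.2 ⟨a, mem_filter.2 ⟨ha, ha2⟩, rfl⟩) (ind_neg hP)
  · intro π h1
    refine ⟨?_, al_abs b0 (hW _), fun i _ r => by simp only [pp, if_pos h1]⟩
    rw [sum_congr rfl (g := fun J => al c b π J * 1) (fun J _ => (mul_one _).symm)]
    by_cases h2 : (tw π).Nonempty
    · rw [al_tw h2]
    rw [al_no h2]
    simp only [mul_one]
    ring

end Pool.Agent.Lib.MP_be93de_nt.Hd
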