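import Pool.Agent.Lib.MP_be93de_nt.Hb.Alt
import Pool.Agent.Lib.MP_be93de_nt.Hb.Crt
import Pool.Agent.Lib.MP_be93de_nt.Hb.Bonf
import Pool.Agent.Lib.MP_be93de_nt.Hb.Fac
import Pool.Agent.Lib.MP_be93de_nt.Hb.Rare
import Pool.Agent.Lib.MP_be93de_nt.Hb.Func
import Pool.Agent.Lib.MP_be93de_nt.Hc.Cells2
import Pool.Agent.Lib.MP_be93de_nt.Hd.Mert3
import Pool.Agent.Lib.MP_be93de_nt.Hd.Pareto
import Pool.Agent.Lib.MP_be93de_nt.Hd.Mom
import Pool.Agent.Lib.MP_be93de_nt.Hd.Soft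
import Pool.Agent.Lib.MP_be93de_nt.Hd.Kill
import Pool.Agent.Lib.MP_be93de_nt.Hd.Base2
import Pool.Agent.Lib.MP_be93de_nt.Hd.Tilt2
import Pool.Agent.Lib.MP_be93de_nt.Hd.Comb2
import Pool.Agent.Lib.MP_be93de_nt.Hd.Avg3
import Pool.Agent.Lib.MP_be93de_nt.Hd.Many3
import Pool.Agent.Lib.MP_be93de_nt.Hd.BlockK
import Pool.Agent.Lib.MP_be93de_nt.Hd.Block3
import Pool.Agent.Lib.MP_be93de_nt.Hd.Ecount3
import Pool.Agent.Lib.MP_be93de_nt.Hd.Sing3
import Pool.Agent.Lib.MP_be93de_nt.Hd.Term3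
import Pool.Agent.Lib.MP_be93de_nt.Hd.Seq3
import Pool.Agent.Lib.MP_be93de_nt.Hd.Union3
import Pool.Agent.Lib.MP_be93de_nt.Hd.Inter3
import Pool.Agent.Lib.MP_be93de_nt.Hd.Glob3
import Pool.Agent.Lib.MP_be93de_nt.Hd.Hl3
import Pool.Agent.Lib.MP_be93de_nt.Hd.Free3
import Pool.Agent.Lib.MP_be93de_nt.Hd.Rank3
import Pool.Agent.Lib.MP_be93de_nt.Hd.Exc3

/-! The model set, third version: assembly of the steps. -/

namespace Pool.Agent.Lib.MP_be93de_nt.Hd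

open Pool.Agent.Lib.MP_be93de_nt.Hb
open Pool.Agent.Lib.MP_be93de_nt.Hc (one Cells2St)

theorem stage3_st (h1 : Seq3St) (h2 : Union3St) (h3 : Inter3St) : Stage3St := by
  intro a ha
  filter_upwards [h1 a ha, h3 a ha, Filter.eventually_ge_atTop 1] with s x b hs r
  obtain ⟨B, hB⟩ := x r
  obtain ⟨e, u1, u2, u3⟩ := h2 a s r B hs hB
  exact ⟨_, u1, u2, u3, fun A hA => b r B A hB e hA⟩

theorem main (bonf : BonfSt) (fac : FacSt) (rare : RareSt) (func : FuncSt) (cells : Cells2St)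
    (δ : ℝ) (hδ : 0 < δ) :
    ∃ (ε : ℝ) (A : Set ℕ) (C : ℝ), 0 < ε ∧ A.Infinite ∧ Part1P A ε C ∧ Part2P A δ := by
  have m := mert3_st
  have sing := sing3_st fac
  have tm := term3_st m sing (ecount3_st m bonf)
  have bl := block3_st (blockk_st cells base2_st (tilt2_st rare) func (comb2_st func)
    (avg3_st m bonf (mom_st m fac pareto_st)) (many3_st m bonf) (kill_st m fac soft_st)) sing
  obtain ⟨a, ha⟩ := exists_nat_ge (max 60 (5 * Real.exp 44 / δ))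
  have a1 : (60 : ℝ) ≤ a := (le_max_left _ _).trans ha
  have a2 : 60 ≤ a := by exact_mod_cast a1
  obtain ⟨i0, A, hA⟩ := glob3_st (stage3_st (seq3_st bl tm) union3_st (inter3_st tm)) a a2
  obtain ⟨C, h1⟩ := hl3_st m sing a a2 i0 A hA
  refine ⟨_, A, C, by positivity, (rank3_st a i0 A hA).1, h1, ?_⟩
  filter_upwards [exc3_st (free3_st m bonf) rank3_st a a2 i0 A hA] with N hN
  refine hN.trans (mul_le_mul_of_nonneg_right ?_ (Nat.cast_nonneg _))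
  have := (le_max_right _ _).trans ha
  rw [div_le_iff₀ hδ] at this
  rw [div_le_iff₀ (by linarith)]
  linarith

theorem main' (δ : ℝ) (hδ : 0 < δ) :
    ∃ (ε : ℝ) (A : Set ℕ) (C : ℝ), 0 < ε ∧ A.Infinite ∧ Part1P A ε C ∧ Part2P A δ :=
  main (bonf_st alt_st crt_st) fac_st rare_st func_st Hc.cells2_st δ hδ

end Pool.Agent.Lib.MP_be93de_nt.Hd
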