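import Pool.Agent.Lib.MP_be93de_nt.Hd.Defs

namespace Pool.Agent.Lib.MP_be93de_nt.Hd

open Finset Filter Pool.Agent.Lib.MP_be93de_nt.Hb

namespace Softx

theorem mean_pi (Q : Finset ℕ) (D : ℕ) (h : ℕ → ℕ → ℝ) :
    mean (Fintype.piFinset fun _ : Q => range D) (fun c => ∏ p : Q, h p (c p)) =
      ∏ p ∈ Q, (∑ j ∈ range D, h p j) / D := by
  unfold mean
  rw [← prod_univ_sum (fun _ : Q => range D) (fun p j => h p j), Fintype.card_piFinset,
    ← prod_coe_sort Q (fun p => (∑ j ∈ range D, h p j) / D), prod_div_distrib]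
  simp

theorem prod_one_sub (K : Finset ℕ) (a : ℕ → ℝ) (h : ∀ s ∈ K, ∀ t ∈ K, s ≠ t → a s * a t = 0) :
    ∏ t ∈ K, (1 - a t) = 1 - ∑ t ∈ K, a t := by
  induction K using Finset.induction_on with
  | empty => simp
  | insert s K hs ih =>
    have e : a s * ∑ t ∈ K, a t = 0 := by
      rw [mul_sum]
      exact sum_eq_zero fun t ht => h s (mem_insert_self s K) t (mem_insert_of_mem ht)
        (fun e => hs (e ▸ ht))
    rw [prod_insert hs, sum_insert hs,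
      ih fun s hs t ht => h s (mem_insert_of_mem hs) t (mem_insert_of_mem ht)]
    linear_combination e

theorem sum_ite_fun (D r : ℕ) (hr : r < D) (x : ℝ) (g : ℝ → ℝ) :
    ∑ j ∈ range D, g (if r = j then x else 0) = D * g 0 + (g x - g 0) := by
  have e : ∀ j, g (if r = j then x else 0) = g 0 + if r = j then g x - g 0 else 0 := fun j => by
    split_ifs <;> ring
  simp only [e, sum_add_distrib, sum_const, card_range, nsmul_eq_mul, sum_ite_eq,
    mem_range.2 hr, if_true]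

theorem inv_le_exp {y : ℝ} (h0 : 0 ≤ y) (h1 : y ≤ 1 / 2) : (1 - y)⁻¹ ≤ Real.exp (y + y ^ 2) := by
  have h2 := Real.quadratic_le_exp_of_nonneg (show 0 ≤ y + y ^ 2 by positivity)
  refine le_trans ?_ h2
  rw [inv_eq_one_div, div_le_iff₀ (by linarith)]
  have h3 : 2 * y ≤ (1 - y) * (1 + y) ^ 2 := by nlinarith [sq_nonneg (1 - y)]
  nlinarith [mul_le_mul_of_nonneg_left h3 (sq_nonneg y)]

theorem up1 {D y : ℝ} {m : ℕ} (hD : 1 ≤ D) (hm : 1 ≤ m) (h0 : 0 ≤ y) (h : m * (D * y) ≤ 1 / 2) :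
    (D * ((1 - 0) / (1 - y)) ^ m + (((1 - D * y) / (1 - y)) ^ m - ((1 - 0) / (1 - y)) ^ m)) / D ≤
      Real.exp (2 * (m : ℝ) ^ 2 * D * y ^ 2) := by
  have m1 : (1 : ℝ) ≤ m := by exact_mod_cast hm
  have x0 : 0 ≤ D * y := by positivity
  have x1 : D * y ≤ 1 / 2 := by nlinarith
  have y1 : y ≤ 1 / 2 := by nlinarith
  have a1 : (1 - D * y) ^ m ≤ Real.exp (-(m * (D * y))) := by
    rw [← mul_neg, Real.exp_nat_mul]
    exact pow_le_pow_left₀ (by linarith) (Real.one_sub_le_exp_neg _) m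
  have a2 := (abs_le.1 (Real.abs_exp_sub_one_sub_id_le (x := -(m * (D * y)))
    (by rw [abs_neg, abs_of_nonneg (by positivity)]; linarith))).2
  have a3 : (D + ((1 - D * y) ^ m - 1)) / D ≤ Real.exp (-(m * y) + (m : ℝ) ^ 2 * D * y ^ 2) := by
    refine le_trans ?_ (Real.add_one_le_exp _)
    rw [div_le_iff₀ (by linarith)]
    nlinarith
  have a4 : (1 - y)⁻¹ ^ m ≤ Real.exp (m * (y + y ^ 2)) := by
    rw [Real.exp_nat_mul]
    exact pow_le_pow_left₀ (inv_nonneg.2 (by linarith)) (inv_le_exp h0 y1) m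
  have e : (D * ((1 - 0) / (1 - y)) ^ m + (((1 - D * y) / (1 - y)) ^ m -
      ((1 - 0) / (1 - y)) ^ m)) / D = (D + ((1 - D * y) ^ m - 1)) / D * (1 - y)⁻¹ ^ m := by
    simp only [div_eq_mul_inv, mul_pow, sub_zero, one_pow]
    ring
  rw [e]
  refine (mul_le_mul a3 a4 (pow_nonneg (inv_nonneg.2 (by linarith)) m)
    (Real.exp_pos _).le).trans ?_
  rw [← Real.exp_add]
  refine Real.exp_le_exp.2 ?_
  have a5 : (m : ℝ) ≤ (m : ℝ) ^ 2 * D := by nlinarith
  nlinarith [mul_le_mul_of_nonneg_right a5 (sq_nonneg y)]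

theorem up2 {D y : ℝ} {m : ℕ} (hD : 1 ≤ D) (hm : 1 ≤ m) (h0 : 0 ≤ y) (h : m * (D * y) ≤ 1 / 2) :
    (D * ((1 - 0) / (1 - y))⁻¹ ^ m + (((1 - D * y) / (1 - y))⁻¹ ^ m -
      ((1 - 0) / (1 - y))⁻¹ ^ m)) / D ≤ Real.exp (2 * (m : ℝ) ^ 2 * D * y ^ 2) := by
  have m1 : (1 : ℝ) ≤ m := by exact_mod_cast hm
  have x0 : 0 ≤ D * y := by positivity
  have x1 : D * y ≤ 1 / 2 := by nlinarith
  have y1 : y ≤ 1 / 2 := by nlinarith
  have z0 : 0 ≤ m * (D * y) := by positivity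
  have a0 := one_add_mul_le_pow (a := -(D * y)) (by linarith) m
  have a1 : (1 - D * y)⁻¹ ^ m ≤ 1 + m * (D * y) + 2 * (m * (D * y)) ^ 2 := by
    have b1 : 0 < (1 - D * y) ^ m := pow_pos (by linarith) m
    rw [inv_pow, inv_eq_one_div, div_le_iff₀ b1]
    have b2 : 1 - m * (D * y) ≤ (1 - D * y) ^ m := by
      rw [sub_eq_add_neg 1 (D * y)]
      linarith
    generalize (m : ℝ) * (D * y) = z at *
    have b3 := mul_le_mul_of_nonneg_left b2 (show 0 ≤ 1 + z + 2 * z ^ 2 by positivity)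
    nlinarith [mul_le_mul_of_nonneg_left h (sq_nonneg z)]
  have a3 : (D + ((1 - D * y)⁻¹ ^ m - 1)) / D ≤
      Real.exp (m * y + 2 * (m : ℝ) ^ 2 * D * y ^ 2) := by
    refine le_trans ?_ (Real.add_one_le_exp _)
    rw [div_le_iff₀ (by linarith)]
    nlinarith
  have a4 : (1 - y) ^ m ≤ Real.exp (-(m * y)) := by
    rw [← mul_neg, Real.exp_nat_mul]
    exact pow_le_pow_left₀ (by linarith) (Real.one_sub_le_exp_neg _) m
  have e : (D * ((1 - 0) / (1 - y))⁻¹ ^ m + (((1 - D * y) / (1 - y))⁻¹ ^ m -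
      ((1 - 0) / (1 - y))⁻¹ ^ m)) / D = (D + ((1 - D * y)⁻¹ ^ m - 1)) / D * (1 - y) ^ m := by
    simp only [inv_div, sub_zero, div_one]
    simp only [div_eq_mul_inv, mul_pow]
    ring
  rw [e]
  refine (mul_le_mul a3 a4 (pow_nonneg (by linarith) m) (Real.exp_pos _).le).trans ?_
  rw [← Real.exp_add]
  exact Real.exp_le_exp.2 (by linarith)

theorem prod_le (Q : Finset ℕ) (w : ℕ) (hw : w ≠ 0) (hQ : ∀ p ∈ Q, w < p) (c : ℝ) (hc : 0 ≤ c)
    (f : ℕ → ℝ) (h0 : ∀ p ∈ Q, 0 ≤ f p) (h1 : ∀ p ∈ Q, f p ≤ Real.exp (c * (1 / (p : ℝ)) ^ 2)) :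
    ∏ p ∈ Q, f p ≤ Real.exp (c / w) := by
  refine (prod_le_prod h0 h1).trans ?_
  rw [← Real.exp_sum, ← mul_sum, div_eq_mul_inv c]
  refine Real.exp_le_exp.2 (mul_le_mul_of_nonneg_left ?_ hc)
  have s1 : Q ⊆ Ioc w (w + Q.sup id) := fun p hp =>
    mem_Ioc.2 ⟨hQ p hp, (le_sup (f := id) hp).trans (Nat.le_add_left _ _)⟩
  have s2 := sum_Ioc_inv_sq_le_sub (α := ℝ) hw (Nat.le_add_right w (Q.sup id))
  have s3 : (0 : ℝ) ≤ (((w + Q.sup id : ℕ) : ℝ))⁻¹ := by positivity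
  simp only [one_div, inv_pow]
  refine (sum_le_sum_of_subset_of_nonneg s1 fun p _ _ => by positivity).trans ?_
  linarith

/-- the local factor -/
noncomputable def lf (D p j t : ℕ) : ℝ :=
  (1 - if t % D = j then D * (1 / (p : ℝ)) else 0) / (1 - 1 / (p : ℝ))

end Softx

open Softx in
theorem soft_st : SoftSt := by
  intro Q D m w hD hm hw hQ
  have D1 : (1 : ℝ) ≤ D := by exact_mod_cast hD
  have m1 : (1 : ℝ) ≤ m := by exact_mod_cast hm
  have w0 : w ≠ 0 := by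
    have : 0 < 2 * m * D := by positivity
    omega
  have hx : ∀ p ∈ Q, 0 < 1 / (p : ℝ) ∧ m * (D * (1 / (p : ℝ))) ≤ 1 / 2 := fun p hp => by
    have b1 : ((2 * m * D : ℕ) : ℝ) ≤ p := by exact_mod_cast hw.trans (hQ p hp).le
    have b2 : (0 : ℝ) < p := by exact_mod_cast (Nat.zero_le w).trans_lt (hQ p hp)
    push_cast at b1
    refine ⟨by positivity, ?_⟩
    rw [← mul_assoc, mul_one_div, div_le_iff₀ b2]
    linarith
  have hy : ∀ p ∈ Q, D * (1 / (p : ℝ)) ≤ 1 / 2 ∧ 1 / (p : ℝ) ≤ 1 / 2 := fun p hp => by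
    obtain ⟨b1, b2⟩ := hx p hp
    have b3 : D * (1 / (p : ℝ)) ≤ 1 / 2 := by nlinarith [mul_pos (zero_lt_one.trans_le D1) b1]
    exact ⟨b3, by nlinarith⟩
  have hl : ∀ p ∈ Q, ∀ j t, 0 < lf D p j t ∧ lf D p j t ≤ (1 - 1 / (p : ℝ))⁻¹ := fun p hp j t => by
    obtain ⟨b1, -⟩ := hx p hp
    obtain ⟨b2, b3⟩ := hy p hp
    have b4 : 0 < 1 - 1 / (p : ℝ) := by linarith
    have b5 : 0 ≤ D * (1 / (p : ℝ)) := by positivity
    unfold lf
    rw [inv_eq_one_div (1 - 1 / (p : ℝ))]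
    refine ⟨div_pos ?_ b4, div_le_div_of_nonneg_right ?_ b4.le⟩ <;> split_ifs <;> linarith
  have hr : ∀ t, t % D < D := fun t => Nat.mod_lt t hD
  have c0 : (0 : ℝ) ≤ 2 * (m : ℝ) ^ 2 * D := by positivity
  refine ⟨Q → ℕ, Fintype.piFinset fun _ : Q => range D, fun c t => ∏ p : Q, lf D p (c p) t,
    Fintype.piFinset_nonempty.2 fun _ => ⟨0, mem_range.2 hD⟩, fun c _ t => ⟨?_, ?_, ?_⟩,
    fun K hK => ?_, fun t => ⟨?_, ?_⟩⟩
  · exact prod_pos fun p _ => (hl p p.2 _ _).1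
  · simp only [lf, Nat.mod_mod]
  · rw [← prod_coe_sort Q (fun p => (1 - 1 / (p : ℝ))⁻¹)]
    exact prod_le_prod (fun p _ => (hl p p.2 _ _).1.le) fun p _ => (hl p p.2 _ _).2
  · simp only [prod_comm (s := K) (t := (univ : Finset Q))]
    rw [mean_pi Q D (fun p j => ∏ t ∈ K, lf D p j t)]
    refine prod_congr rfl fun p _ => ?_
    have e : ∀ j, ∏ t ∈ K, lf D p j t =
        (1 - ∑ t ∈ K, if t % D = j then D * (1 / (p : ℝ)) else 0) /
          (1 - 1 / (p : ℝ)) ^ K.card := fun j => by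
      unfold lf
      rw [prod_div_distrib, prod_const, prod_one_sub]
      intro s hs t ht hst
      by_cases e1 : s % D = j
      · by_cases e2 : t % D = j
        · have b1 := hK s hs t ht
          have b2 := hK t ht s hs
          have b3 : s ≡ t [MOD D] := e1.trans e2.symm
          exact absurd (b3.eq_of_abs_lt (by rw [abs_lt]; omega)) hst
        · rw [if_neg e2, mul_zero]
      · rw [if_neg e1, zero_mul]
    simp only [e]
    rw [← sum_div, sum_sub_distrib, sum_comm]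
    simp only [sum_ite_eq, mem_range.2 (hr _), if_true, sum_const, card_range, nsmul_eq_mul,
      mul_one]
    have D0 : (D : ℝ) ≠ 0 := by positivity
    rw [div_right_comm]
    congr 1
    field_simp
  · simp only [← prod_pow]
    rw [mean_pi Q D (fun p j => lf D p j t ^ m)]
    refine prod_le Q w w0 hQ _ c0 _ (fun p hp => div_nonneg
      (sum_nonneg fun j _ => pow_nonneg (hl p hp j t).1.le m) (by positivity)) fun p hp => ?_
    have e := sum_ite_fun D (t % D) (hr t) (D * (1 / (p : ℝ)))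
      (fun z => ((1 - z) / (1 - 1 / (p : ℝ))) ^ m)
    unfold lf
    rw [e]
    exact up1 D1 hm (hx p hp).1.le (hx p hp).2
  · simp only [← prod_inv_distrib, ← prod_pow]
    rw [mean_pi Q D (fun p j => (lf D p j t)⁻¹ ^ m)]
    refine prod_le Q w w0 hQ _ c0 _ (fun p hp => div_nonneg
      (sum_nonneg fun j _ => pow_nonneg (inv_nonneg.2 (hl p hp j t).1.le) m) (by positivity))
      fun p hp => ?_
    have e := sum_ite_fun D (t % D) (hr t) (D * (1 / (p : ℝ)))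
      (fun z => ((1 - z) / (1 - 1 / (p : ℝ)))⁻¹ ^ m)
    unfold lf
    rw [e]
    exact up2 D1 hm (hx p hp).1.le (hx p hp).2

end Pool.Agent.Lib.MP_be93de_nt.Hd
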