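import Pool.Agent.Lib.MP_be93de_nt.Hd.Defs

namespace Pool.Agent.Lib.MP_be93de_nt.Hd

open Finset Filter Pool.Agent.Lib.MP_be93de_nt.Hb

namespace Term3x

theorem ev_log (C : ℝ) (hC : 0 < C) : ∀ᶠ u : ℕ in atTop, C * (1 + 60 * Real.log u) ≤ u := by
  have h1 : ∀ᶠ x : ℝ in atTop, ‖Real.log x‖ ≤ 1 / (120 * C) * ‖x‖ :=
    Real.isLittleO_log_id_atTop.bound (by positivity)
  have h2 := (tendsto_natCast_atTop_atTop (R := ℝ)).eventually h1
  have h3 := (tendsto_natCast_atTop_atTop (R := ℝ)).eventually (eventually_ge_atTop (2 * C))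
  filter_upwards [h2, h3] with u a b
  have hu : (0 : ℝ) ≤ u := Nat.cast_nonneg u
  rw [Real.norm_eq_abs, Real.norm_eq_abs, abs_of_nonneg hu] at a
  have a' : Real.log u ≤ 1 / (120 * C) * u := (le_abs_self _).trans a
  have e : C * (60 * (1 / (120 * C) * u)) = u / 2 := by field_simp; ring
  have : C * (60 * Real.log u) ≤ C * (60 * (1 / (120 * C) * u)) := by gcongr
  nlinarith

theorem logX (u : ℕ) : 2 * (u : ℝ) ^ 12 ≤ Real.log (X3 u) := by
  have h := Real.log_two_gt_d9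
  have e : Real.log (X3 u) = 4 * (u : ℝ) ^ 12 * Real.log 2 := by
    unfold X3
    rw [Nat.cast_pow, Real.log_pow]
    push_cast
    ring
  rw [e]
  have : (0 : ℝ) ≤ (u : ℝ) ^ 12 := by positivity
  nlinarith

theorem Yer (u : ℕ) (hu : 1 ≤ u) : (u : ℝ) ^ 2 ≤ Y3 u * er 60 u := by
  have h := Real.log_two_gt_d9
  have hu' : (1 : ℝ) ≤ u := by exact_mod_cast hu
  have e : (Y3 u : ℝ) = Real.exp (2 * (u : ℝ) ^ 12 * Real.log 2) := by
    unfold Y3
    have : (2 * (u : ℝ) ^ 12) = ((2 * u ^ 12 : ℕ) : ℝ) := by push_cast; ring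
    rw [this, Real.exp_nat_mul, Real.exp_log (by norm_num), Nat.cast_pow]
    norm_num
  have hv : (0 : ℝ) ≤ (u : ℝ) ^ 12 := by positivity
  have h2 : (u : ℝ) ^ 2 ≤ (u : ℝ) ^ 12 := pow_le_pow_right₀ hu' (by norm_num)
  unfold er
  rw [e, ← Real.exp_add]
  have h3 := Real.add_one_le_exp (2 * (u : ℝ) ^ 12 * Real.log 2 + -((u : ℝ) ^ 12 / ((60 : ℕ) : ℝ)))
  have h4 : ((60 : ℕ) : ℝ) = 60 := by norm_num
  rw [h4] at h3 ⊢
  nlinarith

theorem core (ρ ψ t Y q P σ E F : ℝ) (h0 : 0 ≤ ρ) (h1 : ρ ≤ 1) (p0 : 0 ≤ ψ) (p1 : ψ ≤ 1)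
    (hY : 0 < Y) (hq : 1 ≤ q) (e1 : |t - Y / q * P| ≤ E) (e2 : |σ - P * ψ| ≤ F / Y) (hF : F ≤ E) :
    |ρ * ψ * t - Y / q * ρ * σ| ≤ 2 * E := by
  have e : ρ * ψ * t - Y / q * ρ * σ = ρ * ψ * (t - Y / q * P) - Y / q * ρ * (σ - P * ψ) := by ring
  have hq0 : 0 < q := by linarith
  have a1 : |ρ * ψ * (t - Y / q * P)| ≤ E := by
    rw [abs_mul, abs_of_nonneg (mul_nonneg h0 p0)]
    have : ρ * ψ ≤ 1 := mul_le_one₀ h1 p0 p1
    calc ρ * ψ * |t - Y / q * P| ≤ 1 * |t - Y / q * P| := by gcongr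
      _ ≤ E := by rw [one_mul]; exact e1
  have a2 : |Y / q * ρ * (σ - P * ψ)| ≤ E := by
    rw [abs_mul, abs_of_nonneg (by positivity)]
    have b1 : Y / q ≤ Y := div_le_self hY.le hq
    have b2 : Y / q * ρ ≤ Y := by
      calc Y / q * ρ ≤ Y * 1 := by gcongr
        _ = Y := mul_one _
    calc Y / q * ρ * |σ - P * ψ| ≤ Y * (F / Y) := by gcongr
      _ = F := by field_simp
      _ ≤ E := hF
  rw [e]
  have := abs_sub (ρ * ψ * (t - Y / q * P)) (Y / q * ρ * (σ - P * ψ))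
  linarith

end Term3x

theorem term3_st (h1 : Mert3St) (h2 : Sing3St) (h3 : Ecount3St) : Term3St := by
  filter_upwards [h3, Term3x.ev_log (Real.exp 40) (Real.exp_pos _), eventually_ge_atTop 1]
    with u hE hlog hu T hT
  have hu' : (1 : ℝ) ≤ u := by exact_mod_cast hu
  have hθ := (h1.1 0 (u ^ 60)).1
  have hθi : (th 0 (u ^ 60))⁻¹ ≤ u := by
    refine (h1.2.2.2 (u ^ 60)).2.trans ?_
    rw [Nat.cast_pow, Real.log_pow]
    exact_mod_cast hlog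
  have hX := Term3x.logX u
  have hXpos : (0 : ℝ) < X3 u := by
    have : 0 < X3 u := by unfold X3; positivity
    exact_mod_cast this
  have hL : 2 * (u : ℝ) ^ 12 ≤ Real.log T :=
    hX.trans (Real.log_le_log hXpos (by exact_mod_cast hT))
  have hv : (1 : ℝ) ≤ (u : ℝ) ^ 12 := one_le_pow₀ hu'
  have hLpos : 0 < Real.log T := by linarith
  have hρ0 : 0 ≤ 1 / (th 0 (u ^ 60) * Real.log T) := by positivity
  have hρ1 : 1 / (th 0 (u ^ 60) * Real.log T) ≤ 1 / (u : ℝ) ^ 11 := by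
    have e : 1 / (th 0 (u ^ 60) * Real.log T) = (th 0 (u ^ 60))⁻¹ / Real.log T := by
      field_simp
    rw [e, div_le_div_iff₀ hLpos (by positivity)]
    calc (th 0 (u ^ 60))⁻¹ * (u : ℝ) ^ 11 ≤ u * (u : ℝ) ^ 11 := by gcongr
      _ = (u : ℝ) ^ 12 := by ring
      _ ≤ 1 * Real.log T := by linarith
  refine ⟨hρ0, hρ1, ?_⟩
  intro τ hτ S hS
  obtain ⟨hψ, hs⟩ := h2 u
  obtain ⟨s0, s1, s2⟩ := (hs τ hτ).2 S hS
  have hτ' := hτ
  simp only [tests3, mem_product, mem_Icc, mem_filter] at hτ'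
  obtain ⟨⟨q1, -⟩, -, -, k1⟩ := hτ'
  obtain ⟨p0, p1⟩ := hψ _ k1
  refine ⟨s0, ?_, ?_⟩
  · have a : S ≤ (th 0 (u ^ 60))⁻¹ ^ τ.2.card := by
      rw [inv_pow, ← one_div, le_div_iff₀ (by positivity)]
      exact s1
    refine a.trans (pow_le_pow_left₀ (by positivity) (hθi.trans ?_) _)
    have : (u : ℝ) ≤ (u : ℝ) ^ 12 := le_self_pow₀ hu' (by norm_num)
    linarith
  · have hY : (0 : ℝ) < Y3 u := by
      have : 0 < Y3 u := by unfold Y3; positivity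
      exact_mod_cast this
    have hq : (1 : ℝ) ≤ τ.1 := by exact_mod_cast q1
    have r1 : 1 / (th 0 (u ^ 60) * Real.log T) ≤ 1 :=
      hρ1.trans ((div_le_one (by positivity)).2 (one_le_pow₀ hu'))
    have c := Term3x.core ((1 / (th 0 (u ^ 60) * Real.log T)) ^ τ.2.card) (psi u τ.2.card) _ _ _ _ _
      _ _ (pow_nonneg hρ0 _) (pow_le_one₀ hρ0 r1) p0 p1 hY hq (hE T τ hτ) s2 (Term3x.Yer u hu)
    have e : (Y3 u : ℝ) * (S / τ.1 * (1 / Real.log T ^ τ.2.card)) =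
        Y3 u / τ.1 * (1 / (th 0 (u ^ 60) * Real.log T)) ^ τ.2.card *
          (S * th 0 (u ^ 60) ^ τ.2.card) := by
      rw [div_pow, mul_pow, one_pow]
      field_simp
    rw [e, mul_assoc 2]
    exact c

end Pool.Agent.Lib.MP_be93de_nt.Hd
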